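import Pool.Agent.MP_ccae28_an.LinAlg

open MeasureTheory Metric Set Matrix
open scoped ComplexOrder

set_option linter.unusedSectionVars false

namespace Pool.Agent.MP_ccae28_an

section SecondDerivative

variable {E : Type*} [NormedAddCommGroup E] [NormedSpace ℝ E]

/-- The second derivative of `f` at `x` in the directions `v` and `w`. -/
noncomputable def D2 (f : E → ℝ) (x v w : E) : ℝ := fderiv ℝ (fderiv ℝ f) x v w

theorem differentiable_fderiv {F : Type*} [NormedAddCommGroup F] [NormedSpace ℝ F]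
    {f : E → F} (hf : ContDiff ℝ 2 f) : Differentiable ℝ (fderiv ℝ f) := by
  have : ContDiff ℝ 1 (fderiv ℝ f) := hf.fderiv_right (m := 1) (by norm_num)
  exact this.differentiable (by norm_num)

theorem contDiff_fderiv {F : Type*} [NormedAddCommGroup F] [NormedSpace ℝ F]
    {f : E → F} (hf : ContDiff ℝ 2 f) : ContDiff ℝ 1 (fderiv ℝ f) :=
  hf.fderiv_right (m := 1) (by norm_num)

theorem continuous_D2 {f : E → ℝ} (hf : ContDiff ℝ 2 f) (v w : E) :
    Continuous fun x => D2 f x v w := by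
  have h1 : Continuous (fderiv ℝ (fderiv ℝ f)) :=
    (contDiff_fderiv hf).continuous_fderiv (by norm_num)
  exact (h1.clm_apply continuous_const).clm_apply continuous_const

theorem D2_symm {f : E → ℝ} (hf : ContDiff ℝ 2 f) (x v w : E) :
    D2 f x v w = D2 f x w v := by
  have h : IsSymmSndFDerivAt ℝ f x :=
    (hf.contDiffAt).isSymmSndFDerivAt (by simp)
  exact h.eq v w

/-- The derivative of `f` along a line. -/
theorem hasDerivAt_line {f : E → ℝ} (hf : ContDiff ℝ 2 f) (x v : E) (t : ℝ) :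
    HasDerivAt (fun t : ℝ => f (x + t • v)) (fderiv ℝ f (x + t • v) v) t := by
  have h1 : HasDerivAt (fun t : ℝ => x + t • v) v t := by
    simpa using ((hasDerivAt_id t).smul_const v).const_add x
  exact ((hf.differentiable (by norm_num) _).hasFDerivAt).comp_hasDerivAt t h1

theorem hasDerivAt_line2 {f : E → ℝ} (hf : ContDiff ℝ 2 f) (x v w : E) (t : ℝ) :
    HasDerivAt (fun t : ℝ => fderiv ℝ f (x + t • v) w) (D2 f (x + t • v) v w) t := by
  have h1 : HasDerivAt (fun t : ℝ => x + t • v) v t := by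
    simpa using ((hasDerivAt_id t).smul_const v).const_add x
  have h2 := ((differentiable_fderiv hf _).hasFDerivAt).comp_hasDerivAt t h1
  have h3 := h2.clm_apply (hasDerivAt_const t w)
  simpa [D2] using h3

/-- Necessary second order condition at a local maximum. -/
theorem D2_nonpos_of_isLocalMax {f : E → ℝ} (hf : ContDiff ℝ 2 f) {x : E}
    (hx : IsLocalMax f x) (v : E) : D2 f x v v ≤ 0 := by
  by_contra hcon
  push Not at hcon
  set g : ℝ → ℝ := fun t => f (x + t • v) with hg
  have hg1 : deriv g = fun t => fderiv ℝ f (x + t • v) v := by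
    funext t
    exact (hasDerivAt_line hf x v t).deriv
  have hg2 : deriv (deriv g) 0 = D2 f x v v := by
    rw [hg1]
    have := (hasDerivAt_line2 hf x v v 0).deriv
    simpa using this
  have hgc : Continuous g := by
    have := hf.continuous
    fun_prop
  have hmax : IsLocalMax g 0 := by
    have hc : ContinuousAt (fun t : ℝ => x + t • v) 0 := by fun_prop
    have h0 : x = (fun t : ℝ => x + t • v) 0 := by simp
    have : ∀ᶠ y in nhds ((fun t : ℝ => x + t • v) 0), f y ≤ f x := by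
      rw [← h0]; exact hx
    have h2 := hc.eventually this
    filter_upwards [h2] with t ht
    simpa [hg] using ht
  have hd : deriv g 0 = 0 := hmax.deriv_eq_zero
  have hmin : IsLocalMin g 0 := isLocalMin_of_deriv_deriv_pos (by rw [hg2]; exact hcon) hd
    hgc.continuousAt
  have hconst : g =ᶠ[nhds 0] fun _ => g 0 := by
    filter_upwards [hmax, hmin] with t h1 h2
    exact le_antisymm h1 h2
  have h3 : deriv g =ᶠ[nhds 0] deriv fun _ => g 0 := hconst.deriv
  have h4 : deriv (deriv g) 0 = deriv (deriv fun _ : ℝ => g 0) 0 := h3.deriv_eq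
  rw [hg2] at h4
  simp at h4
  linarith

end SecondDerivative

section ABP

variable {E : Type*} [NormedAddCommGroup E] [InnerProductSpace ℝ E] [FiniteDimensional ℝ E]
variable {ι : Type*} [Fintype ι] [DecidableEq ι]

/-- The gradient vector, expressed in an orthonormal basis. -/
noncomputable def gradv (b : OrthonormalBasis ι ℝ E) (f : E → ℝ) (x : E) : E :=
  ∑ i, fderiv ℝ f x (b i) • b i

/-- The derivative of the gradient vector. -/
noncomputable def hessOp (b : OrthonormalBasis ι ℝ E) (f : E → ℝ) (x : E) : E →L[ℝ] E :=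
  ∑ i, (ContinuousLinearMap.smulRight
    ((ContinuousLinearMap.apply ℝ ℝ (b i)).comp (fderiv ℝ (fderiv ℝ f) x)) (b i))

theorem hessOp_apply (b : OrthonormalBasis ι ℝ E) (f : E → ℝ) (x v : E) :
    hessOp b f x v = ∑ i, D2 f x v (b i) • b i := by
  simp [hessOp, D2]

theorem hasFDerivAt_gradv (b : OrthonormalBasis ι ℝ E) {f : E → ℝ} (hf : ContDiff ℝ 2 f) (x : E) :
    HasFDerivAt (gradv b f) (hessOp b f x) x := by
  unfold gradv hessOp
  have h := (differentiable_fderiv hf x).hasFDerivAt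
  refine HasFDerivAt.fun_sum fun i _ => ?_
  have h1 : HasFDerivAt (fun y => fderiv ℝ f y (b i))
      ((ContinuousLinearMap.apply ℝ ℝ (b i)).comp (fderiv ℝ (fderiv ℝ f) x)) x :=
    (ContinuousLinearMap.apply ℝ ℝ (b i)).hasFDerivAt.comp x h
  exact h1.smul_const (b i)

/-- The matrix of second derivatives in the basis `b`. -/
noncomputable def hessMat (b : OrthonormalBasis ι ℝ E) (f : E → ℝ) (x : E) : Matrix ι ι ℝ :=
  Matrix.of fun i j => D2 f x (b i) (b j)

theorem toMatrix_hessOp (b : OrthonormalBasis ι ℝ E) {f : E → ℝ} (hf : ContDiff ℝ 2 f) (x : E) :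
    LinearMap.toMatrix b.toBasis b.toBasis (hessOp b f x : E →ₗ[ℝ] E) = hessMat b f x := by
  ext i j
  rw [LinearMap.toMatrix_apply]
  simp only [OrthonormalBasis.coe_toBasis, ContinuousLinearMap.coe_coe, hessMat, Matrix.of_apply]
  rw [hessOp_apply]
  have h := b.toBasis.repr_sum_self (fun i => D2 f x (b j) (b i))
  simp only [OrthonormalBasis.coe_toBasis] at h
  rw [h, D2_symm hf]

/-- The quadratic form of the Hessian matrix. -/
theorem D2_eq_hessMat (b : OrthonormalBasis ι ℝ E) {f : E → ℝ} (x : E) (y : ι → ℝ) :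
    D2 f x (∑ i, y i • b i) (∑ i, y i • b i) = y ⬝ᵥ (hessMat b f x *ᵥ y) := by
  simp only [D2, map_sum, map_smul, _root_.sum_apply, _root_.smul_apply, smul_eq_mul, dotProduct, mulVec,
    hessMat, Matrix.of_apply, Finset.mul_sum]
  rw [Finset.sum_comm]
  refine Finset.sum_congr rfl fun i _ => Finset.sum_congr rfl fun j _ => ?_
  ring

/-- If the second derivative is negative semidefinite, and the frame `T` has determinant of
absolute value one, the determinant of the derivative of the gradient is controlled by the trace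
of the second derivative along the frame. -/
theorem abs_det_hessOp_le [Nonempty ι] (b : OrthonormalBasis ι ℝ E) {f : E → ℝ}
    (hf : ContDiff ℝ 2 f) {x : E} (hneg : ∀ v, D2 f x v v ≤ 0) {T : E →ₗ[ℝ] E}
    (hT : |LinearMap.det T| = 1) {k : ℝ} (hk : -k ≤ ∑ i, D2 f x (T (b i)) (T (b i))) :
    |(hessOp b f x).det| ≤ (k / Fintype.card ι) ^ Fintype.card ι := by
  have h1 : (hessOp b f x).det = (hessMat b f x).det := by
    rw [← toMatrix_hessOp b hf x]
    exact (LinearMap.det_toMatrix b.toBasis _).symm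
  rw [h1]
  set M := LinearMap.toMatrix b.toBasis b.toBasis T with hM
  have hTb : ∀ j, T (b j) = ∑ i, M i j • b i := by
    intro j
    have := b.toBasis.sum_repr (T (b j))
    simp only [OrthonormalBasis.coe_toBasis] at this
    rw [← this]
    refine Finset.sum_congr rfl fun i _ => ?_
    rw [hM, LinearMap.toMatrix_apply, OrthonormalBasis.coe_toBasis]
  refine abs_det_le_of_frame (T := M) ?_ ?_ ?_
  · refine Matrix.PosSemidef.of_dotProduct_mulVec_nonneg ?_ fun y => ?_
    · ext i j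
      simp only [conjTranspose_apply, Matrix.neg_apply, hessMat, Matrix.of_apply, star_trivial]
      rw [D2_symm hf]
    · have h2 := hneg (∑ i, y i • b i)
      rw [D2_eq_hessMat] at h2
      simp only [star_trivial, neg_mulVec, dotProduct_neg]
      linarith
  · rw [hM, LinearMap.det_toMatrix]
    exact hT
  · refine hk.trans (le_of_eq ?_)
    simp only [Matrix.trace, Matrix.diag]
    refine Finset.sum_congr rfl fun j _ => ?_
    rw [hTb j, D2_eq_hessMat, Matrix.mul_assoc, Matrix.mul_apply]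
    simp only [dotProduct, Matrix.transpose_apply, mulVec, Matrix.mul_apply]

/-- The gradient image of the upper contact set contains a ball. -/
theorem ball_subset_gradv_image (b : OrthonormalBasis ι ℝ E) {Ψ : E → ℝ} (hΨ : ContDiff ℝ 2 Ψ)
    {Ω : Set E} (hΩ : IsOpen Ω) (hbd : Bornology.IsBounded Ω) {x₀ : E} (hx₀ : x₀ ∈ Ω)
    {d : ℝ} (hd : 0 < d) (hdist : ∀ x ∈ closure Ω, dist x x₀ ≤ d)
    (hfr : ∀ x ∈ frontier Ω, Ψ x ≤ 0) :
    ball (0 : E) (Ψ x₀ / d) ⊆ gradv b Ψ '' {x | x ∈ Ω ∧ 0 < Ψ x ∧ ∀ v, D2 Ψ x v v ≤ 0} := by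
  intro p hp
  rw [mem_ball_zero_iff] at hp
  have hpd : ‖p‖ * d < Ψ x₀ := by
    rwa [lt_div_iff₀ hd] at hp
  set φ : E → ℝ := fun x => Ψ x - inner ℝ p (x - x₀) with hφ
  have hφc : ContDiff ℝ 2 φ := by
    apply hΨ.sub
    exact ContDiff.inner ℝ contDiff_const (contDiff_id.sub contDiff_const)
  have hcomp : IsCompact (closure Ω) := hbd.isCompact_closure
  obtain ⟨x₁, hx₁, hmax⟩ := hcomp.exists_isMaxOn ⟨x₀, subset_closure hx₀⟩ hφc.continuous.continuousOn
  have hinner : ∀ x ∈ closure Ω, |inner ℝ p (x - x₀)| ≤ ‖p‖ * d := by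
    intro x hx
    refine (abs_real_inner_le_norm _ _).trans ?_
    have := hdist x hx
    rw [dist_eq_norm] at this
    gcongr
  have h0 : Ψ x₀ ≤ φ x₁ := by
    have := hmax (subset_closure hx₀)
    simpa [hφ] using this
  have hx₁Ω : x₁ ∈ Ω := by
    by_contra hcon
    have hf : x₁ ∈ frontier Ω := by
      rw [frontier, hΩ.interior_eq]
      exact ⟨hx₁, hcon⟩
    have h3 := hfr x₁ hf
    have h4 := (abs_le.1 (hinner x₁ hx₁)).1
    simp only [hφ] at h0
    linarith
  have hΨpos : 0 < Ψ x₁ := by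
    have h4 := (abs_le.1 (hinner x₁ hx₁)).1
    simp only [hφ] at h0
    linarith
  have hloc : IsLocalMax φ x₁ := by
    filter_upwards [hΩ.mem_nhds hx₁Ω] with y hy
    exact hmax (subset_closure hy)
  have hdΨ : ∀ x, HasFDerivAt Ψ (fderiv ℝ Ψ x) x := fun x =>
    (hΨ.differentiable (by norm_num) x).hasFDerivAt
  have hdφ : ∀ x, HasFDerivAt φ (fderiv ℝ Ψ x - innerSL ℝ p) x := by
    intro x
    refine (hdΨ x).sub ?_
    have h5 : HasFDerivAt (fun y : E => y - x₀) (ContinuousLinearMap.id ℝ E) x :=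
      (hasFDerivAt_id x).sub_const x₀
    have h6 := (innerSL ℝ p).hasFDerivAt.comp x h5
    rw [ContinuousLinearMap.comp_id] at h6
    exact h6
  have hfd : fderiv ℝ φ = fun x => fderiv ℝ Ψ x - innerSL ℝ p := by
    funext x
    exact (hdφ x).fderiv
  have hgrad : fderiv ℝ Ψ x₁ = innerSL ℝ p := by
    have h7 := hloc.fderiv_eq_zero
    rw [hfd] at h7
    exact sub_eq_zero.1 h7
  refine ⟨x₁, ⟨hx₁Ω, hΨpos, fun v => ?_⟩, ?_⟩
  · have h8 := D2_nonpos_of_isLocalMax hφc hloc v
    have h9 : D2 φ x₁ v v = D2 Ψ x₁ v v := by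
      unfold D2
      rw [hfd, fderiv_sub_const]
    rwa [h9] at h8
  · unfold gradv
    rw [hgrad]
    simp only [innerSL_apply_apply]
    have := b.sum_repr p
    conv_rhs => rw [← this]
    refine Finset.sum_congr rfl fun i _ => ?_
    rw [b.repr_apply_apply, real_inner_comm]

variable [MeasurableSpace E] [BorelSpace E] (μ : Measure E) [μ.IsAddHaarMeasure]

/-- The Aleksandrov-Bakelman-Pucci estimate, for operators normalised by a frame of
determinant of absolute value one. -/
theorem abp [Nonempty ι] (b : OrthonormalBasis ι ℝ E) {Ψ : E → ℝ} (hΨ : ContDiff ℝ 2 Ψ)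
    {Ω : Set E} (hΩ : IsOpen Ω) (hbd : Bornology.IsBounded Ω) {x₀ : E} (hx₀ : x₀ ∈ Ω)
    {d : ℝ} (hd : 0 < d) (hdist : ∀ x ∈ closure Ω, dist x x₀ ≤ d)
    (hfr : ∀ x ∈ frontier Ω, Ψ x ≤ 0) (hpos : 0 < Ψ x₀)
    {S : Set E} (hS : MeasurableSet S) {k : ℝ} (hk : 0 ≤ k)
    (T : E → E →ₗ[ℝ] E) (hT : ∀ x, |LinearMap.det (T x)| = 1)
    (h1 : ∀ x ∈ Ω, 0 < Ψ x → -k ≤ ∑ i, D2 Ψ x (T x (b i)) (T x (b i)))
    (h2 : ∀ x ∈ Ω, 0 < Ψ x → x ∉ S → 0 ≤ ∑ i, D2 Ψ x (T x (b i)) (T x (b i))) :
    ENNReal.ofReal ((Ψ x₀ / d) ^ Fintype.card ι) * μ (ball 0 1) ≤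
      ENNReal.ofReal ((k / Fintype.card ι) ^ Fintype.card ι) * μ S := by
  set G : Set E := {x | x ∈ Ω ∧ 0 < Ψ x ∧ ∀ v, D2 Ψ x v v ≤ 0} with hG
  have hGm : MeasurableSet G := by
    have e1 : G = Ω ∩ ({x | 0 < Ψ x} ∩ ⋂ v, {x | D2 Ψ x v v ≤ 0}) := by
      ext x
      simp only [hG, mem_setOf_eq, mem_inter_iff, mem_iInter]
    rw [e1]
    refine hΩ.measurableSet.inter ((isOpen_lt continuous_const hΨ.continuous).measurableSet.inter ?_)
    exact (isClosed_iInter fun v => isClosed_le (continuous_D2 hΨ v v)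
      continuous_const).measurableSet
  have hfin : Module.finrank ℝ E = Fintype.card ι := Module.finrank_eq_card_basis b.toBasis
  have : Nontrivial E := by
    apply Module.nontrivial_of_finrank_pos (R := ℝ)
    rw [hfin]
    exact Fintype.card_pos
  have hdpos : 0 ≤ Ψ x₀ / d := (div_pos hpos hd).le
  have hball : μ (ball (0 : E) (Ψ x₀ / d)) =
      ENNReal.ofReal ((Ψ x₀ / d) ^ Fintype.card ι) * μ (ball 0 1) := by
    rw [Measure.addHaar_ball μ (0 : E) hdpos, hfin]
  rw [← hball]
  have hsub := ball_subset_gradv_image b hΨ hΩ hbd hx₀ hd hdist hfr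
  have hdet : ∀ x ∈ G, |(hessOp b Ψ x).det| ≤ (k / Fintype.card ι) ^ Fintype.card ι ∧
      (x ∉ S → |(hessOp b Ψ x).det| = 0) := by
    intro x hx
    refine ⟨abs_det_hessOp_le b hΨ hx.2.2 (hT x) (h1 x hx.1 hx.2.1), fun hxS => ?_⟩
    have h3 := abs_det_hessOp_le b hΨ hx.2.2 (hT x) (k := 0)
      (by simpa using h2 x hx.1 hx.2.1 hxS)
    have h4 : ((0 : ℝ) / Fintype.card ι) ^ Fintype.card ι = 0 := by
      rw [zero_div, zero_pow Fintype.card_pos.ne']
    rw [h4] at h3
    exact le_antisymm h3 (abs_nonneg _)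
  calc μ (ball (0 : E) (Ψ x₀ / d)) ≤ μ (gradv b Ψ '' G) := measure_mono hsub
    _ ≤ ∫⁻ x in G, ENNReal.ofReal |(hessOp b Ψ x).det| ∂μ :=
        addHaar_image_le_lintegral_abs_det_fderiv μ hGm
          (fun x _ => (hasFDerivAt_gradv b hΨ x).hasFDerivWithinAt)
    _ ≤ ∫⁻ x in G, S.indicator
          (fun _ => ENNReal.ofReal ((k / Fintype.card ι) ^ Fintype.card ι)) x ∂μ := by
        refine setLIntegral_mono' hGm fun x hx => ?_
        by_cases hxS : x ∈ S
        · rw [indicator_of_mem hxS]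
          exact ENNReal.ofReal_le_ofReal (hdet x hx).1
        · rw [indicator_of_notMem hxS, (hdet x hx).2 hxS]
          simp
    _ ≤ ∫⁻ x, S.indicator
          (fun _ => ENNReal.ofReal ((k / Fintype.card ι) ^ Fintype.card ι)) x ∂μ :=
        setLIntegral_le_lintegral _ _
    _ = ENNReal.ofReal ((k / Fintype.card ι) ^ Fintype.card ι) * μ S := by
        rw [lintegral_indicator_const hS]

end ABP

end Pool.Agent.MP_ccae28_an
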