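import Pool.Agent.MP_ccae28_an.Frame

open MeasureTheory Metric Set Filter
open scoped Real Topology

set_option linter.unusedSectionVars false

namespace Pool.Agent.MP_ccae28_an

section Transl

variable {E G α : Type*} [NormedAddCommGroup E] [NormedSpace ℝ E] [FiniteDimensional ℝ E]
  [NormedAddCommGroup G] [NormedSpace ℝ G] [MeasurableSpace α]
  {ν : Measure α} [IsFiniteMeasure ν] {γ : α → E} {K : ℝ}

/-- A continuous function is bounded on balls. -/
theorem exists_bound_closedBall {F : E → G} (hF : Continuous F) (z : E) (R : ℝ) :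
    ∃ C, 0 ≤ C ∧ ∀ x ∈ closedBall z R, ‖F x‖ ≤ C := by
  obtain ⟨C, hC⟩ := (isCompact_closedBall z R).exists_bound_of_continuousOn hF.continuousOn
  exact ⟨max C 0, le_max_right _ _, fun x hx => (hC x hx).trans (le_max_left _ _)⟩

theorem integrable_transl {F : E → G} (hF : Continuous F) (hγ : AEStronglyMeasurable γ ν)
    (hK : ∀ᵐ a ∂ν, ‖γ a‖ ≤ K) (z : E) : Integrable (fun a => F (z + γ a)) ν := by
  obtain ⟨C, _, hC⟩ := exists_bound_closedBall hF z K
  refine Integrable.of_bound ?_ C ?_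
  · exact (hF.comp (continuous_const.add continuous_id)).comp_aestronglyMeasurable hγ
  · filter_upwards [hK] with a ha
    exact hC _ (by simpa [mem_closedBall, dist_eq_norm] using ha)

theorem continuous_transl {F : E → G} (hF : Continuous F) (hγ : AEStronglyMeasurable γ ν)
    (hK : ∀ᵐ a ∂ν, ‖γ a‖ ≤ K) : Continuous fun z => ∫ a, F (z + γ a) ∂ν := by
  rw [continuous_iff_continuousAt]
  intro z
  obtain ⟨C, _, hC⟩ := exists_bound_closedBall hF z (K + 1)
  refine continuousAt_of_dominated (bound := fun _ => C) ?_ ?_ (integrable_const _) ?_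
  · exact Eventually.of_forall fun x =>
      (hF.comp (continuous_const.add continuous_id)).comp_aestronglyMeasurable hγ
  · filter_upwards [ball_mem_nhds z zero_lt_one] with x hx
    filter_upwards [hK] with a ha
    apply hC
    rw [mem_closedBall, dist_eq_norm]
    rw [mem_ball, dist_eq_norm] at hx
    calc ‖x + γ a - z‖ = ‖γ a + (x - z)‖ := by congr 1; abel
      _ ≤ ‖γ a‖ + ‖x - z‖ := norm_add_le _ _
      _ ≤ K + 1 := by linarith
  · exact Eventually.of_forall fun a => (hF.comp (continuous_id.add continuous_const)).continuousAt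

theorem hasFDerivAt_transl {F : E → G} (hF : ContDiff ℝ 1 F) (hγ : AEStronglyMeasurable γ ν)
    (hK : ∀ᵐ a ∂ν, ‖γ a‖ ≤ K) (z : E) :
    HasFDerivAt (fun z => ∫ a, F (z + γ a) ∂ν) (∫ a, fderiv ℝ F (z + γ a) ∂ν) z := by
  have hF' : Continuous (fderiv ℝ F) := hF.continuous_fderiv (by norm_num)
  obtain ⟨C, _, hC⟩ := exists_bound_closedBall hF' z (K + 1)
  refine hasFDerivAt_integral_of_dominated_of_fderiv_le (bound := fun _ => C)
    (F' := fun x a => fderiv ℝ F (x + γ a)) (ball_mem_nhds z zero_lt_one) ?_ ?_ ?_ ?_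
    (integrable_const _) ?_
  · exact Eventually.of_forall fun x =>
      (hF.continuous.comp (continuous_const.add continuous_id)).comp_aestronglyMeasurable hγ
  · exact integrable_transl hF.continuous hγ hK z
  · exact (hF'.comp (continuous_const.add continuous_id)).comp_aestronglyMeasurable hγ
  · filter_upwards [hK] with a ha x hx
    apply hC
    rw [mem_closedBall, dist_eq_norm]
    rw [mem_ball, dist_eq_norm] at hx
    calc ‖x + γ a - z‖ = ‖γ a + (x - z)‖ := by congr 1; abel
      _ ≤ ‖γ a‖ + ‖x - z‖ := norm_add_le _ _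
      _ ≤ K + 1 := by linarith
  · refine Eventually.of_forall fun a x _ => ?_
    have h1 : HasFDerivAt F (fderiv ℝ F (x + γ a)) (x + γ a) :=
      (hF.differentiable (by norm_num) _).hasFDerivAt
    have h2 : HasFDerivAt (fun y : E => y + γ a) (ContinuousLinearMap.id ℝ E) x :=
      (hasFDerivAt_id x).add_const _
    have h3 := h1.comp x h2
    rw [ContinuousLinearMap.comp_id] at h3
    exact h3

theorem contDiff_one_transl {F : E → G} (hF : ContDiff ℝ 1 F) (hγ : AEStronglyMeasurable γ ν)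
    (hK : ∀ᵐ a ∂ν, ‖γ a‖ ≤ K) : ContDiff ℝ 1 (fun z => ∫ a, F (z + γ a) ∂ν) := by
  rw [contDiff_one_iff_hasFDerivAt]
  exact ⟨fun z => ∫ a, fderiv ℝ F (z + γ a) ∂ν,
    continuous_transl (hF.continuous_fderiv (by norm_num)) hγ hK,
    fun z => hasFDerivAt_transl hF hγ hK z⟩

theorem contDiff_two_transl {F : E → G} (hF : ContDiff ℝ 2 F) (hγ : AEStronglyMeasurable γ ν)
    (hK : ∀ᵐ a ∂ν, ‖γ a‖ ≤ K) : ContDiff ℝ 2 (fun z => ∫ a, F (z + γ a) ∂ν) := by
  have h1 : ContDiff ℝ ((1 : ℕ) + 1) (fun z => ∫ a, F (z + γ a) ∂ν) := by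
    rw [contDiff_succ_iff_hasFDerivAt]
    refine ⟨fun z => ∫ a, fderiv ℝ F (z + γ a) ∂ν, ?_, fun z =>
      hasFDerivAt_transl (hF.of_le (by norm_num)) hγ hK z⟩
    have := contDiff_one_transl (contDiff_fderiv hF) hγ hK
    exact_mod_cast this
  norm_num at h1
  exact h1

theorem D2_transl {f : E → ℝ} (hf : ContDiff ℝ 2 f) (hγ : AEStronglyMeasurable γ ν)
    (hK : ∀ᵐ a ∂ν, ‖γ a‖ ≤ K) (z v w : E) :
    D2 (fun z => ∫ a, f (z + γ a) ∂ν) z v w = ∫ a, D2 f (z + γ a) v w ∂ν := by
  unfold D2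
  have h1 : fderiv ℝ (fun z => ∫ a, f (z + γ a) ∂ν) = fun z => ∫ a, fderiv ℝ f (z + γ a) ∂ν := by
    funext z
    exact (hasFDerivAt_transl (hf.of_le (by norm_num)) hγ hK z).fderiv
  have h2 := (hasFDerivAt_transl (contDiff_fderiv hf) hγ hK z).fderiv
  have hc : Continuous (fderiv ℝ (fderiv ℝ f)) :=
    (contDiff_fderiv hf).continuous_fderiv (by norm_num)
  rw [h1, h2, ContinuousLinearMap.integral_apply (integrable_transl hc hγ hK z),
    ContinuousLinearMap.integral_apply]
  exact (integrable_transl (hc.clm_apply continuous_const) hγ hK z)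

end Transl

end Pool.Agent.MP_ccae28_an
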