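import Pool.Agent.MP_ccae28_an.Avg

open MeasureTheory Metric Set Filter
open scoped Real Topology

set_option linter.unusedSectionVars false

namespace Pool.Agent.MP_ccae28_an

theorem hasDerivAt_param {F F' : ℝ → ℝ → ℝ} {a b : ℝ} (hab : a ≤ b)
    (hF : ∀ r θ, HasDerivAt (fun r => F r θ) (F' r θ) r)
    (hc : ∀ r, Continuous (F r)) (hc' : Continuous (Function.uncurry F')) (r : ℝ) :
    HasDerivAt (fun r => ∫ θ in a..b, F r θ) (∫ θ in a..b, F' r θ) r := by
  obtain ⟨C, hC⟩ := ((isCompact_Icc (a := r - 1) (b := r + 1)).prod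
    (isCompact_Icc (a := a) (b := b))).exists_bound_of_continuousOn hc'.continuousOn
  have hcr : ∀ r, Continuous (F' r) := fun r =>
    hc'.comp (continuous_const.prodMk continuous_id)
  refine (intervalIntegral.hasDerivAt_integral_of_dominated_loc_of_deriv_le
    (bound := fun _ => C) (s := Ioo (r - 1) (r + 1))
    (Ioo_mem_nhds (by linarith) (by linarith)) ?_ ?_ ?_ ?_ ?_ ?_).2
  · exact Eventually.of_forall fun x => (hc x).aestronglyMeasurable
  · exact (hc r).intervalIntegrable _ _
  · exact (hcr r).aestronglyMeasurable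
  · refine Eventually.of_forall fun t ht x hx => ?_
    rw [uIoc_of_le hab] at ht
    exact hC (x, t) ⟨⟨hx.1.le, hx.2.le⟩, ⟨ht.1.le, ht.2⟩⟩
  · exact intervalIntegrable_const
  · exact Eventually.of_forall fun t _ x _ => hF x t

variable {n : ℕ}

theorem hasDerivAt_line2' {f : Cn n → ℝ} (hf : ContDiff ℝ 2 f) (x v w : Cn n) (t : ℝ) :
    HasDerivAt (fun t : ℝ => fderiv ℝ f (x + t • v) w) (D2 f (x + t • v) v w) t :=
  hasDerivAt_line2 hf x v w t

/-- The unit complex number `e^{iθ}`. -/
noncomputable def eu (θ : ℝ) : ℂ := Complex.exp (θ * Complex.I)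

theorem norm_eu (θ : ℝ) : ‖eu θ‖ = 1 := Complex.norm_exp_ofReal_mul_I θ

@[fun_prop] theorem continuous_eu : Continuous eu := by
  unfold eu
  fun_prop

theorem hasDerivAt_eu (θ : ℝ) : HasDerivAt eu (Complex.I * eu θ) θ := by
  have h1 : HasDerivAt (fun t : ℝ => (t : ℂ) * Complex.I) Complex.I θ := by
    have := (Complex.ofRealCLM.hasDerivAt (x := θ)).mul_const Complex.I
    simpa using this
  have h2 := h1.cexp
  have h3 : Complex.exp ((θ : ℂ) * Complex.I) * Complex.I = Complex.I * eu θ := by
    rw [eu]; ring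
  rw [h3] at h2
  exact h2

theorem eu_zero : eu 0 = 1 := by simp [eu]

theorem eu_two_pi : eu (2 * π) = 1 := by
  rw [eu]
  push_cast
  exact Complex.exp_two_pi_mul_I

/-- The normalised measure on `(0, 2π]`. -/
noncomputable def cm : Measure ℝ :=
  (ENNReal.ofReal (2 * π)⁻¹) • (volume.restrict (Ioc 0 (2 * π)))

instance : IsProbabilityMeasure cm := ⟨by
  rw [cm, Measure.smul_apply, Measure.restrict_apply_univ, Real.volume_Ioc, sub_zero, smul_eq_mul,
    ← ENNReal.ofReal_mul (by positivity), inv_mul_cancel₀ (by positivity), ENNReal.ofReal_one]⟩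

theorem integral_cm (f : ℝ → ℝ) : ∫ θ, f θ ∂cm = (2 * π)⁻¹ * ∫ θ in (0 : ℝ)..(2 * π), f θ := by
  rw [cm, integral_smul_measure, ENNReal.toReal_ofReal (by positivity),
    intervalIntegral.integral_of_le (by positivity), smul_eq_mul]

/-- The circle average of `f` over the circle `z + e^{iθ} h`. -/
noncomputable def cavg (f : Cn n → ℝ) (h z : Cn n) : ℝ := ∫ θ, f (z + eu θ • h) ∂cm

theorem aesm_eu_smul (h : Cn n) : AEStronglyMeasurable (fun θ => eu θ • h) cm :=
  (continuous_eu.smul continuous_const).aestronglyMeasurable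

theorem norm_eu_smul (h : Cn n) (θ : ℝ) : ‖eu θ • h‖ = ‖h‖ := by
  rw [norm_smul, norm_eu, one_mul]

theorem ae_norm_eu_smul (h : Cn n) : ∀ᵐ θ ∂cm, ‖eu θ • h‖ ≤ ‖h‖ :=
  Eventually.of_forall fun θ => (norm_eu_smul h θ).le

theorem integrable_cavg {f : Cn n → ℝ} (hf : Continuous f) (h z : Cn n) :
    Integrable (fun θ => f (z + eu θ • h)) cm :=
  integrable_transl hf (aesm_eu_smul h) (ae_norm_eu_smul h) z

theorem continuous_cavg {f : Cn n → ℝ} (hf : Continuous f) (h : Cn n) :
    Continuous (cavg f h) := continuous_transl hf (aesm_eu_smul h) (ae_norm_eu_smul h)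

theorem contDiff_cavg {f : Cn n → ℝ} (hf : ContDiff ℝ 2 f) (h : Cn n) :
    ContDiff ℝ 2 (cavg f h) := contDiff_two_transl hf (aesm_eu_smul h) (ae_norm_eu_smul h)

theorem D2_cavg {f : Cn n → ℝ} (hf : ContDiff ℝ 2 f) (h z v w : Cn n) :
    D2 (cavg f h) z v w = cavg (fun y => D2 f y v w) h z :=
  D2_transl hf (aesm_eu_smul h) (ae_norm_eu_smul h) z v w

theorem cavg_const (c : ℝ) (h z : Cn n) : cavg (fun _ => c) h z = c := by
  simp [cavg]

theorem cavg_mono {f g : Cn n → ℝ} (hf : Continuous f) (hg : Continuous g) (h z : Cn n)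
    (hfg : ∀ y, ‖y - z‖ ≤ ‖h‖ → f y ≤ g y) : cavg f h z ≤ cavg g h z := by
  refine integral_mono (integrable_cavg hf h z) (integrable_cavg hg h z) fun θ => ?_
  apply hfg
  simp [norm_eu_smul]

theorem continuous_lev {u : Cn n → ℝ} (hu : ContDiff ℝ 2 u) (h : Cn n) :
    Continuous fun z => lev u z h := by
  unfold lev
  exact continuous_const.mul ((continuous_D2 hu _ _).add (continuous_D2 hu _ _))

theorem lev_smul {u : Cn n → ℝ} (hu : ContDiff ℝ 2 u) (z h : Cn n) (c : ℂ) :
    lev u z (c • h) = ‖c‖ ^ 2 * lev u z h := by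
  have h1 := sesq_self hu z (c • h)
  rw [sesq_smul_left, sesq_smul_right, sesq_self hu, ← mul_assoc, Complex.mul_conj,
    Complex.normSq_eq_norm_sq] at h1
  have h2 : ‖c‖ ^ 2 * (4 * lev u z h) = 4 * lev u z (c • h) := by exact_mod_cast h1
  linarith

theorem continuous_D2_joint {u : Cn n → ℝ} (hu : ContDiff ℝ 2 u) {X : Type*} [TopologicalSpace X]
    {p v w : X → Cn n} (hp : Continuous p) (hv : Continuous v) (hw : Continuous w) :
    Continuous fun x => D2 u (p x) (v x) (w x) := by
  have h1 : Continuous (fderiv ℝ (fderiv ℝ u)) :=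
    (contDiff_fderiv hu).continuous_fderiv (by norm_num)
  exact ((h1.comp hp).clm_apply hv).clm_apply hw

/-- The polar coordinates identity, integrated over the circle. -/
theorem polar_identity {u : Cn n → ℝ} (hu : ContDiff ℝ 2 u) (z h : Cn n) (r : ℝ) :
    r * ∫ θ in (0 : ℝ)..(2 * π), D2 u (z + r • (eu θ • h)) (Complex.I • (eu θ • h))
      (Complex.I • (eu θ • h)) =
    ∫ θ in (0 : ℝ)..(2 * π), fderiv ℝ u (z + r • (eu θ • h)) (eu θ • h) := by
  have hdu : Continuous (fderiv ℝ u) := (contDiff_fderiv hu).continuous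
  have hce : Continuous fun θ => eu θ • h := continuous_eu.smul continuous_const
  have hderiv : ∀ θ ∈ uIcc (0 : ℝ) (2 * π), HasDerivAt
      (fun θ => fderiv ℝ u (z + r • (eu θ • h)) (Complex.I • (eu θ • h)))
      (r * D2 u (z + r • (eu θ • h)) (Complex.I • (eu θ • h)) (Complex.I • (eu θ • h)) -
        fderiv ℝ u (z + r • (eu θ • h)) (eu θ • h)) θ := by
    intro θ _
    have h1 : HasDerivAt (fun θ => eu θ • h) (Complex.I • (eu θ • h)) θ := by
      have := (hasDerivAt_eu θ).smul_const h
      rwa [mul_smul] at this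
    have h2 : HasDerivAt (fun θ => z + r • (eu θ • h)) (r • (Complex.I • (eu θ • h))) θ :=
      (h1.const_smul r).const_add z
    have h3 : HasDerivAt (fun θ => Complex.I • (eu θ • h)) (-(eu θ • h)) θ := by
      have := h1.const_smul Complex.I
      rwa [I_smul_I_smul] at this
    have h4 := ((differentiable_fderiv hu (z + r • (eu θ • h))).hasFDerivAt).comp_hasDerivAt θ h2
    have h5 := h4.clm_apply h3
    refine h5.congr_deriv ?_
    simp only [Function.comp_apply, map_smul, map_neg, _root_.smul_apply, smul_eq_mul, D2]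
    ring
  have hcont : Continuous fun θ => r * D2 u (z + r • (eu θ • h)) (Complex.I • (eu θ • h))
      (Complex.I • (eu θ • h)) - fderiv ℝ u (z + r • (eu θ • h)) (eu θ • h) := by
    refine (continuous_const.mul (continuous_D2_joint hu ?_ ?_ ?_)).sub
      ((hdu.comp ?_).clm_apply hce) <;> fun_prop
  have h6 := intervalIntegral.integral_eq_sub_of_hasDerivAt hderiv (hcont.intervalIntegrable _ _)
  rw [eu_two_pi, eu_zero, sub_self, intervalIntegral.integral_sub,
    intervalIntegral.integral_const_mul] at h6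
  · linarith
  · apply Continuous.intervalIntegrable
    refine continuous_const.mul (continuous_D2_joint hu ?_ ?_ ?_) <;> fun_prop
  · apply Continuous.intervalIntegrable
    refine (hdu.comp ?_).clm_apply hce
    fun_prop

theorem cavg_sub_le {u : Cn n → ℝ} (hu : ContDiff ℝ 2 u) (z h : Cn n) {β : ℝ}
    (hβ : ∀ y ∈ closedBall z ‖h‖, lev u y h ≤ β) : cavg u h z - u z ≤ β := by
  have hpi : (0 : ℝ) < 2 * π := by positivity
  have hdu : Continuous (fderiv ℝ u) := (contDiff_fderiv hu).continuous
  have hce : Continuous fun θ => eu θ • h := continuous_eu.smul continuous_const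
  have hline : ∀ r θ, HasDerivAt (fun r : ℝ => z + r • (eu θ • h)) (eu θ • h) r := by
    intro r θ
    simpa using ((hasDerivAt_id r).smul_const (eu θ • h)).const_add z
  set φ : ℝ → ℝ := fun r => ∫ θ in (0 : ℝ)..(2 * π), u (z + r • (eu θ • h)) with hφ
  set φ' : ℝ → ℝ := fun r => ∫ θ in (0 : ℝ)..(2 * π),
    fderiv ℝ u (z + r • (eu θ • h)) (eu θ • h) with hφ'
  set φ'' : ℝ → ℝ := fun r => ∫ θ in (0 : ℝ)..(2 * π),
    D2 u (z + r • (eu θ • h)) (eu θ • h) (eu θ • h) with hφ''
  have hφd : ∀ r, HasDerivAt φ (φ' r) r := by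
    intro r
    refine hasDerivAt_param (F := fun r θ => u (z + r • (eu θ • h)))
      (F' := fun r θ => fderiv ℝ u (z + r • (eu θ • h)) (eu θ • h))
      hpi.le (fun r θ => ?_) (fun r => ?_) ?_ r
    · exact (hu.differentiable (by norm_num) _).hasFDerivAt.comp_hasDerivAt r (hline r θ)
    · have := hu.continuous
      fun_prop
    · simp only [Function.uncurry_def]
      refine (hdu.comp ?_).clm_apply ?_ <;> fun_prop
  have hφ'd : ∀ r, HasDerivAt φ' (φ'' r) r := by
    intro r
    refine hasDerivAt_param (F := fun r θ => fderiv ℝ u (z + r • (eu θ • h)) (eu θ • h))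
      (F' := fun r θ => D2 u (z + r • (eu θ • h)) (eu θ • h) (eu θ • h))
      hpi.le (fun r θ => ?_) (fun r => ?_) ?_ r
    · exact hasDerivAt_line2' hu z (eu θ • h) (eu θ • h) r
    · refine (hdu.comp ?_).clm_apply ?_ <;> fun_prop
    · simp only [Function.uncurry_def]
      refine continuous_D2_joint hu ?_ ?_ ?_ <;> fun_prop
  have hpolar := polar_identity hu z h
  have hψd : ∀ r, HasDerivAt (fun r => r * φ' r)
      (r * ∫ θ in (0 : ℝ)..(2 * π), 4 * lev u (z + r • (eu θ • h)) h) r := by
    intro r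
    have h1 := (hasDerivAt_id r).mul (hφ'd r)
    refine h1.congr_deriv ?_
    simp only [id_eq, one_mul]
    rw [show φ' r = r * ∫ θ in (0 : ℝ)..(2 * π), D2 u (z + r • (eu θ • h))
      (Complex.I • (eu θ • h)) (Complex.I • (eu θ • h)) from (hpolar r).symm, ← mul_add,
      hφ'', ← intervalIntegral.integral_add]
    · congr 1
      refine intervalIntegral.integral_congr fun θ _ => ?_
      have h2 := lev_smul hu (z + r • (eu θ • h)) h (eu θ)
      rw [norm_eu, one_pow, one_mul] at h2
      rw [← h2, lev]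
      ring
    · apply Continuous.intervalIntegrable
      refine continuous_D2_joint hu ?_ ?_ ?_ <;> fun_prop
    · apply Continuous.intervalIntegrable
      refine continuous_D2_joint hu ?_ ?_ ?_ <;> fun_prop
  have hbd : ∀ r ∈ Icc (0 : ℝ) 1,
      (∫ θ in (0 : ℝ)..(2 * π), 4 * lev u (z + r • (eu θ • h)) h) ≤ 2 * π * (4 * β) := by
    intro r hr
    have h1 : (∫ θ in (0 : ℝ)..(2 * π), 4 * lev u (z + r • (eu θ • h)) h) ≤
        ∫ θ in (0 : ℝ)..(2 * π), 4 * β := by
      refine intervalIntegral.integral_mono_on hpi.le ?_ intervalIntegrable_const fun θ _ => ?_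
      · apply Continuous.intervalIntegrable
        refine continuous_const.mul ((continuous_lev hu h).comp ?_)
        fun_prop
      · have : lev u (z + r • (eu θ • h)) h ≤ β := by
          apply hβ
          rw [mem_closedBall, dist_eq_norm, add_sub_cancel_left, norm_smul, norm_smul, norm_eu,
            one_mul, Real.norm_of_nonneg hr.1]
          exact mul_le_of_le_one_left (norm_nonneg _) hr.2
        linarith
    rw [intervalIntegral.integral_const, smul_eq_mul, sub_zero] at h1
    exact h1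
  have hstep1 : ∀ r ∈ Icc (0 : ℝ) 1, r * φ' r ≤ 4 * π * β * r ^ 2 := by
    have hmono : MonotoneOn (fun r => 4 * π * β * r ^ 2 - r * φ' r) (Icc 0 1) := by
      refine monotoneOn_of_deriv_nonneg (convex_Icc 0 1) ?_ ?_ ?_
      · exact fun r _ => (((hasDerivAt_pow 2 r).const_mul (4 * π * β)).sub
          (hψd r)).continuousAt.continuousWithinAt
      · exact fun r _ => (((hasDerivAt_pow 2 r).const_mul (4 * π * β)).sub
          (hψd r)).differentiableAt.differentiableWithinAt
      · intro r hr
        rw [interior_Icc] at hr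
        have h1 := (((hasDerivAt_pow 2 r).const_mul (4 * π * β)).sub (hψd r)).deriv
        have h3 := hbd r ⟨hr.1.le, hr.2.le⟩
        have h4 : deriv (fun r => 4 * π * β * r ^ 2 - r * φ' r) r = _ := h1
        rw [h4]
        have h5 : r * (∫ θ in (0 : ℝ)..(2 * π), 4 * lev u (z + r • (eu θ • h)) h) ≤
            r * (2 * π * (4 * β)) := mul_le_mul_of_nonneg_left h3 hr.1.le
        push_cast
        nlinarith [h5]
    intro r hr
    have := hmono (left_mem_Icc.2 zero_le_one) hr hr.1
    simp only [ne_eq, OfNat.ofNat_ne_zero, not_false_eq_true, zero_pow, mul_zero, zero_mul,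
      sub_zero] at this
    linarith
  have hstep2 : φ 1 - φ 0 ≤ 2 * π * β := by
    have hmono : MonotoneOn (fun r => 2 * π * β * r ^ 2 - φ r) (Icc 0 1) := by
      refine monotoneOn_of_deriv_nonneg (convex_Icc 0 1) ?_ ?_ ?_
      · exact fun r _ => (((hasDerivAt_pow 2 r).const_mul (2 * π * β)).sub
          (hφd r)).continuousAt.continuousWithinAt
      · exact fun r _ => (((hasDerivAt_pow 2 r).const_mul (2 * π * β)).sub
          (hφd r)).differentiableAt.differentiableWithinAt
      · intro r hr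
        rw [interior_Icc] at hr
        have h1 := (((hasDerivAt_pow 2 r).const_mul (2 * π * β)).sub (hφd r)).deriv
        have h4 : deriv (fun r => 2 * π * β * r ^ 2 - φ r) r = _ := h1
        rw [h4]
        have h3 := hstep1 r ⟨hr.1.le, hr.2.le⟩
        have h5 : φ' r ≤ 4 * π * β * r := by
          have h6 : r * φ' r ≤ r * (4 * π * β * r) := by nlinarith
          exact le_of_mul_le_mul_left h6 hr.1
        push_cast
        nlinarith [h5]
    have := hmono (left_mem_Icc.2 zero_le_one) (right_mem_Icc.2 zero_le_one) zero_le_one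
    simp only [ne_eq, OfNat.ofNat_ne_zero, not_false_eq_true, zero_pow, mul_zero,
      zero_sub, one_pow, mul_one] at this
    linarith
  have h1 : cavg u h z = (2 * π)⁻¹ * φ 1 := by
    rw [cavg, integral_cm, hφ]
    simp
  have h0 : u z = (2 * π)⁻¹ * φ 0 := by
    rw [hφ]
    simp only [zero_smul, add_zero, intervalIntegral.integral_const, sub_zero, smul_eq_mul]
    rw [← mul_assoc, inv_mul_cancel₀ hpi.ne', one_mul]
  rw [h1, h0, ← mul_sub]
  rw [inv_mul_le_iff₀ hpi]
  exact hstep2

theorem D2_neg (f : Cn n → ℝ) (z v w : Cn n) : D2 (fun y => -f y) z v w = -D2 f z v w := by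
  unfold D2
  have h1 : fderiv ℝ (fun y => -f y) = fun y => -fderiv ℝ f y := by
    funext y
    exact fderiv_fun_neg
  rw [h1, fderiv_fun_neg]
  simp

theorem lev_neg (f : Cn n → ℝ) (z h : Cn n) : lev (fun y => -f y) z h = -lev f z h := by
  simp only [lev, D2_neg]
  ring

theorem cavg_neg (f : Cn n → ℝ) (h z : Cn n) : cavg (fun y => -f y) h z = -cavg f h z := by
  simp only [cavg, integral_neg]

theorem le_cavg_sub {u : Cn n → ℝ} (hu : ContDiff ℝ 2 u) (z h : Cn n) {α : ℝ}
    (hα : ∀ y ∈ closedBall z ‖h‖, α ≤ lev u y h) : α ≤ cavg u h z - u z := by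
  have h1 := cavg_sub_le (u := fun y => -u y) hu.neg z h (β := -α)
    (fun y hy => by rw [lev_neg]; linarith [hα y hy])
  rw [cavg_neg] at h1
  linarith

/-- A bound on small circle averages gives a bound on the Levi form. -/
theorem lev_le_of_cavg {u : Cn n → ℝ} (hu : ContDiff ℝ 2 u) (z h : Cn n) {S : ℝ}
    (hS : ∀ s : ℝ, 0 < s → cavg u (s • h) z - u z ≤ S * s ^ 2) : lev u z h ≤ S := by
  by_contra hcon
  push Not at hcon
  have hc := (continuous_lev hu h).continuousAt (x := z)
  obtain ⟨m, hm1, hm2⟩ := exists_between hcon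
  have hev : ∀ᶠ y in 𝓝 z, m < lev u y h := hc.eventually (lt_mem_nhds hm2)
  obtain ⟨δ, hδ, hball⟩ := Metric.eventually_nhds_iff_ball.1 hev
  obtain ⟨s, hs, hsh⟩ : ∃ s : ℝ, 0 < s ∧ s * ‖h‖ < δ := by
    refine ⟨δ / (2 * (‖h‖ + 1)), by positivity, ?_⟩
    rw [div_mul_eq_mul_div, div_lt_iff₀ (by positivity)]
    nlinarith [norm_nonneg h]
  have h1 : m * s ^ 2 ≤ cavg u (s • h) z - u z := by
    refine le_cavg_sub hu z (s • h) fun y hy => ?_
    have h2 : lev u y (s • h) = s ^ 2 * lev u y h := by
      have := lev_smul hu y h (s : ℂ)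
      rw [Complex.norm_real, Real.norm_of_nonneg hs.le] at this
      rw [← this]
      congr 1
    rw [h2, mul_comm]
    have h3 : m < lev u y h := by
      apply hball
      rw [mem_ball]
      rw [mem_closedBall, norm_smul, Real.norm_of_nonneg hs.le] at hy
      linarith
    exact mul_le_mul_of_nonneg_left h3.le (by positivity)
  have h4 := hS s hs
  have h5 : m * s ^ 2 ≤ S * s ^ 2 := h1.trans h4
  have h6 : 0 < s ^ 2 := by positivity
  have := le_of_mul_le_mul_right h5 h6
  linarith

theorem integral_eu_smul (z h : Cn n) : ∫ θ, inner ℝ z (eu θ • h) ∂cm = 0 := by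
  have h0 : ∀ θ, inner ℝ z (eu θ • h) =
      (innerSL ℝ z : Cn n →L[ℝ] ℝ) (eu θ • h) := fun θ => rfl
  rw [integral_cm]
  have h1 : ∀ θ ∈ uIcc (0 : ℝ) (2 * π), HasDerivAt
      (fun θ => inner ℝ z (-(Complex.I • (eu θ • h)))) (inner ℝ z (eu θ • h)) θ := by
    intro θ _
    have h1 : HasDerivAt (fun θ => eu θ • h) (Complex.I • (eu θ • h)) θ := by
      have := (hasDerivAt_eu θ).smul_const h
      rwa [mul_smul] at this
    have h3 : HasDerivAt (fun θ => -(Complex.I • (eu θ • h))) (eu θ • h) θ := by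
      have := (h1.const_smul Complex.I).neg
      rw [I_smul_I_smul, neg_neg] at this
      exact this
    exact (innerSL ℝ z).hasFDerivAt.comp_hasDerivAt θ h3
  have hcont : Continuous fun θ => inner ℝ z (eu θ • h) := by
    have : Continuous fun θ => eu θ • h := by fun_prop
    exact continuous_const.inner this
  have h6 := intervalIntegral.integral_eq_sub_of_hasDerivAt h1 (hcont.intervalIntegrable _ _)
  rw [h6, eu_two_pi, eu_zero, sub_self, mul_zero]

end Pool.Agent.MP_ccae28_an
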