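import Pool.Agent.MP_ccae28_an.Harnack

open MeasureTheory Metric Set Filter Matrix
open scoped Real Topology ComplexOrder

set_option linter.unusedSectionVars false

namespace Pool.Agent.MP_ccae28_an

variable {n : ℕ}

/-- Two positive semidefinite matrices of determinant one which are comparable are equal. -/
theorem eq_of_sub_posSemidef {G H : Matrix (Fin n) (Fin n) ℂ} (hG : G.PosSemidef)
    (hH : H.PosSemidef) (hGd : G.det = 1) (hHd : H.det = 1) (hGH : (G - H).PosSemidef) :
    G = H := by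
  rcases Nat.eq_zero_or_pos n with hn | hn
  · subst hn
    ext i
    exact i.elim0
  have : Nonempty (Fin n) := ⟨⟨0, hn⟩⟩
  obtain ⟨W, hW1, hW2⟩ := exists_frame hG hGd
  have hP : (Wᴴ * H * W).PosSemidef := hH.conjTranspose_mul_mul_same W
  have h1 := det_le_trace_pow (𝕜 := ℂ) hP
  have h2 : (Wᴴ * H * W).det = 1 := by
    rw [Matrix.det_mul, Matrix.det_mul, Matrix.det_conjTranspose, hHd, mul_one]
    have : star W.det * W.det = ((‖W.det‖ ^ 2 : ℝ) : ℂ) := by
      have h5 := Complex.conj_mul' W.det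
      rw [starRingEnd_apply] at h5
      rw [h5]
      push_cast
      ring
    rw [this, hW2]
    simp
  rw [h2] at h1
  simp only [RCLike.one_re, Fintype.card_fin, RCLike.re_to_complex] at h1
  have hn' : (0 : ℝ) < n := by exact_mod_cast hn
  have h3 : (n : ℝ) ≤ (Wᴴ * H * W).trace.re := by
    by_contra hcon
    push Not at hcon
    have h4 : 0 ≤ (Wᴴ * H * W).trace.re / n := by
      refine div_nonneg ?_ hn'.le
      have := hP.trace_nonneg
      rw [Complex.nonneg_iff] at this
      exact this.1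
    have h6 := pow_lt_one₀ h4 (by rw [div_lt_one hn']; exact hcon) hn.ne'
    linarith
  have hD : (Wᴴ * (G - H) * W).PosSemidef := hGH.conjTranspose_mul_mul_same W
  have hD2 : Wᴴ * (G - H) * W = 1 - Wᴴ * H * W := by
    rw [Matrix.mul_sub, Matrix.sub_mul, hW1]
  have htr : (Wᴴ * (G - H) * W).trace = 0 := by
    have h5 := hD.trace_nonneg
    have h7 : (Wᴴ * (G - H) * W).trace.re = n - (Wᴴ * H * W).trace.re := by
      rw [hD2, Matrix.trace_sub, Matrix.trace_one]
      simp
    rw [Complex.nonneg_iff] at h5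
    apply Complex.ext
    · rw [Complex.zero_re]
      linarith [h5.1]
    · rw [Complex.zero_im]
      exact h5.2.symm
  rw [hD.trace_eq_zero_iff] at htr
  have hWu : IsUnit W.det := by
    rw [isUnit_iff_ne_zero]
    intro h0
    rw [h0, norm_zero] at hW2
    exact zero_ne_one hW2
  have hWu' : IsUnit Wᴴ.det := by
    rw [Matrix.det_conjTranspose]
    exact hWu.star
  have h8 : G - H = (Wᴴ)⁻¹ * (Wᴴ * (G - H) * W) * W⁻¹ := by
    rw [Matrix.mul_assoc Wᴴ, ← Matrix.mul_assoc (Wᴴ)⁻¹, Matrix.nonsing_inv_mul _ hWu',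
      Matrix.one_mul, Matrix.mul_assoc, Matrix.mul_nonsing_inv _ hWu, Matrix.mul_one]
  rw [htr, Matrix.mul_zero, Matrix.zero_mul] at h8
  exact sub_eq_zero.1 h8

/-- Polarisation. -/
theorem sesq_polar {u : Cn n → ℝ} (hu : ContDiff ℝ 2 u) (z v w : Cn n) :
    sesq u z v w = ((lev u z (v + w) : ℂ) - lev u z (v - w)) +
      Complex.I * ((lev u z (v + Complex.I • w) : ℂ) - lev u z (v - Complex.I • w)) := by
  have key : ∀ x, (lev u z x : ℂ) = (1 / 4) * sesq u z x x := by
    intro x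
    rw [sesq_self hu]
    push_cast
    ring
  have hneg_l : ∀ x y, sesq u z (-x) y = -sesq u z x y := fun x y => by
    rw [← neg_one_smul ℂ, sesq_smul_left]; ring
  have hneg_r : ∀ x y, sesq u z x (-y) = -sesq u z x y := fun x y => by
    rw [← neg_one_smul ℂ, sesq_smul_right]; simp
  simp only [key, sub_eq_add_neg, sesq_add_left, sesq_add_right, hneg_l, hneg_r, sesq_I_left,
    sesq_I_right]
  linear_combination ((1 / 2) * sesq u z v w - (1 / 2) * sesq u z w v) * Complex.I_mul_I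

/-- The matrix of the limiting Hermitian form. -/
noncomputable def Gbar (u : Cn n → ℝ) : Matrix (Fin n) (Fin n) ℂ :=
  Matrix.of fun i j => (1 / 4 : ℂ) * (((slev u (ev i + ev j) : ℂ) - slev u (ev i - ev j)) +
    Complex.I * ((slev u (ev i + Complex.I • ev j) : ℂ) - slev u (ev i - Complex.I • ev j)))

/-- The Hermitian form of a matrix. -/
noncomputable def qf (M : Matrix (Fin n) (Fin n) ℂ) (h : Cn n) : ℂ :=
  ∑ i, ∑ j, h i * (starRingEnd ℂ) (h j) * M i j

theorem qf_hessian {u : Cn n → ℝ} (hu : ContDiff ℝ 2 u) (z h : Cn n) :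
    qf (complexHessian u z) h = lev u z h := by
  have h1 := sesq_self hu z h
  rw [sesq_eq_hessian hu] at h1
  unfold qf
  have h2 : ((4 * lev u z h : ℝ) : ℂ) = 4 * (lev u z h : ℂ) := by push_cast; ring
  rw [h2] at h1
  exact mul_left_cancel₀ (by norm_num : (4 : ℂ) ≠ 0) h1

theorem continuous_qf (h : Cn n) : Continuous fun M : Matrix (Fin n) (Fin n) ℂ => qf M h := by
  unfold qf
  refine continuous_finsetSum _ fun i _ => continuous_finsetSum _ fun j _ => ?_
  exact continuous_const.mul (continuous_id.matrix_elem i j)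

theorem qf_sub (M N : Matrix (Fin n) (Fin n) ℂ) (h : Cn n) : qf (M - N) h = qf M h - qf N h := by
  simp only [qf, Matrix.sub_apply, mul_sub, Finset.sum_sub_distrib]

theorem posSemidef_of_qf {M : Matrix (Fin n) (Fin n) ℂ} (hM : M.IsHermitian)
    (hq : ∀ h : Cn n, 0 ≤ qf M h) : M.PosSemidef := by
  refine Matrix.PosSemidef.of_dotProduct_mulVec_nonneg hM fun x => ?_
  have h1 : star x ⬝ᵥ (M *ᵥ x) = qf M (WithLp.toLp 2 (star x)) := by
    simp only [dotProduct, Matrix.mulVec, Pi.star_apply, Finset.mul_sum, qf]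
    refine Finset.sum_congr rfl fun i _ => Finset.sum_congr rfl fun j _ => ?_
    rw [starRingEnd_apply, star_star]
    ring
  rw [h1]
  exact hq _

section

variable {u : Cn n → ℝ} {T : Cn n → Cn n →ₗ[ℂ] Cn n} {Λ : ℝ}

theorem exists_seq (hn : 0 < n) (hu : ContDiff ℝ 2 u)
    (hpsh : ∀ z, (complexHessian u z).PosSemidef) (hT : IsFrame u T) (hΛ : 0 < Λ)
    (hb : ∀ z h : Cn n, lev u z h ≤ Λ * ‖h‖ ^ 2) (F : Finset (Cn n)) :
    ∃ z : ℕ → Cn n, ∀ h ∈ F, Tendsto (fun k => lev u (z k) h) atTop (𝓝 (slev u h)) := by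
  choose z hz using fun k : ℕ => exists_close hn hu hpsh hT hΛ hb F
    (ε := 1 / ((k : ℝ) + 1)) (by positivity)
  refine ⟨z, fun h hh => ?_⟩
  have h1 : Tendsto (fun k : ℕ => slev u h - 1 / ((k : ℝ) + 1)) atTop (𝓝 (slev u h - 0)) :=
    tendsto_const_nhds.sub tendsto_one_div_add_atTop_nhds_zero_nat
  rw [sub_zero] at h1
  refine tendsto_of_tendsto_of_tendsto_of_le_of_le h1 tendsto_const_nhds (fun k => ?_)
    (fun k => lev_le_slev hb (z k) h)
  have := hz k h hh
  simp only
  linarith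

theorem exists_seq_hessian (hn : 0 < n) (hu : ContDiff ℝ 2 u)
    (hpsh : ∀ z, (complexHessian u z).PosSemidef) (hT : IsFrame u T) (hΛ : 0 < Λ)
    (hb : ∀ z h : Cn n, lev u z h ≤ Λ * ‖h‖ ^ 2) (h₀ : Cn n) :
    ∃ z : ℕ → Cn n, Tendsto (fun k => lev u (z k) h₀) atTop (𝓝 (slev u h₀)) ∧
      Tendsto (fun k => complexHessian u (z k)) atTop (𝓝 (Gbar u)) := by
  classical
  set F : Finset (Cn n) := insert h₀
    (((Finset.univ : Finset (Fin n × Fin n)).image fun p => ev p.1 + ev p.2) ∪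
    ((Finset.univ : Finset (Fin n × Fin n)).image fun p => ev p.1 - ev p.2) ∪
    ((Finset.univ : Finset (Fin n × Fin n)).image fun p => ev p.1 + Complex.I • ev p.2) ∪
    ((Finset.univ : Finset (Fin n × Fin n)).image fun p => ev p.1 - Complex.I • ev p.2)) with hF
  obtain ⟨z, hz⟩ := exists_seq hn hu hpsh hT hΛ hb F
  refine ⟨z, hz h₀ (by rw [hF]; exact Finset.mem_insert_self _ _), ?_⟩
  refine tendsto_pi_nhds.2 fun i => tendsto_pi_nhds.2 fun j => ?_
  have m1 : ev i + ev j ∈ F := by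
    rw [hF]
    simp only [Finset.mem_insert, Finset.mem_union, Finset.mem_image, Finset.mem_univ, true_and]
    exact Or.inr (Or.inl (Or.inl (Or.inl ⟨(i, j), rfl⟩)))
  have m2 : ev i - ev j ∈ F := by
    rw [hF]
    simp only [Finset.mem_insert, Finset.mem_union, Finset.mem_image, Finset.mem_univ, true_and]
    exact Or.inr (Or.inl (Or.inl (Or.inr ⟨(i, j), rfl⟩)))
  have m3 : ev i + Complex.I • ev j ∈ F := by
    rw [hF]
    simp only [Finset.mem_insert, Finset.mem_union, Finset.mem_image, Finset.mem_univ, true_and]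
    exact Or.inr (Or.inl (Or.inr ⟨(i, j), rfl⟩))
  have m4 : ev i - Complex.I • ev j ∈ F := by
    rw [hF]
    simp only [Finset.mem_insert, Finset.mem_union, Finset.mem_image, Finset.mem_univ, true_and]
    exact Or.inr (Or.inr ⟨(i, j), rfl⟩)
  have hc : ∀ h ∈ F, Tendsto (fun k => (lev u (z k) h : ℂ)) atTop (𝓝 (slev u h : ℂ)) :=
    fun h hh => (Complex.continuous_ofReal.tendsto _).comp (hz h hh)
  have hlim := (((hc _ m1).sub (hc _ m2)).add
    (((hc _ m3).sub (hc _ m4)).const_mul Complex.I)).const_mul (1 / 4 : ℂ)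
  have heq : (fun k => complexHessian u (z k) i j) = fun k =>
      (1 / 4 : ℂ) * (((lev u (z k) (ev i + ev j) : ℂ) - lev u (z k) (ev i - ev j)) +
      Complex.I * ((lev u (z k) (ev i + Complex.I • ev j) : ℂ) -
        lev u (z k) (ev i - Complex.I • ev j))) := by
    funext k
    rw [complexHessian_apply hu, sesq_polar hu]
  rw [heq]
  exact hlim

theorem qf_Gbar (hn : 0 < n) (hu : ContDiff ℝ 2 u)
    (hpsh : ∀ z, (complexHessian u z).PosSemidef) (hT : IsFrame u T) (hΛ : 0 < Λ)
    (hb : ∀ z h : Cn n, lev u z h ≤ Λ * ‖h‖ ^ 2) (h : Cn n) : qf (Gbar u) h = slev u h := by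
  obtain ⟨z, hz1, hz2⟩ := exists_seq_hessian hn hu hpsh hT hΛ hb h
  have h1 := ((continuous_qf h).tendsto (Gbar u)).comp hz2
  have h2 : ((fun M => qf M h) ∘ fun k => complexHessian u (z k)) =
      fun k => ((lev u (z k) h : ℝ) : ℂ) := by
    funext k
    exact qf_hessian hu (z k) h
  rw [h2] at h1
  exact tendsto_nhds_unique h1 ((Complex.continuous_ofReal.tendsto _).comp hz1)

/-- The complex Hessian of a solution with bounded Levi form is constant. -/
theorem hessian_eq_Gbar (hn : 0 < n) (hu : ContDiff ℝ 2 u)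
    (hpsh : ∀ z, (complexHessian u z).PosSemidef) (hdet : ∀ z, (complexHessian u z).det = 1)
    (hT : IsFrame u T) (hΛ : 0 < Λ)
    (hb : ∀ z h : Cn n, lev u z h ≤ Λ * ‖h‖ ^ 2) (z : Cn n) : Gbar u = complexHessian u z := by
  obtain ⟨y, -, hy2⟩ := exists_seq_hessian hn hu hpsh hT hΛ hb 0
  have hdetG : (Gbar u).det = 1 := by
    have h1 := ((continuous_id.matrix_det).tendsto (Gbar u)).comp hy2
    have h2 : ((fun M : Matrix (Fin n) (Fin n) ℂ => (id M).det) ∘
        fun k => complexHessian u (y k)) = fun _ => 1 := by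
      funext k
      exact hdet (y k)
    rw [h2] at h1
    exact (tendsto_nhds_unique h1 tendsto_const_nhds)
  have hherm : (Gbar u).IsHermitian := by
    have h1 := ((continuous_id.matrix_conjTranspose).tendsto (Gbar u)).comp hy2
    have h2 : ((fun M : Matrix (Fin n) (Fin n) ℂ => (id M)ᴴ) ∘
        fun k => complexHessian u (y k)) = fun k => complexHessian u (y k) := by
      funext k
      exact (hpsh (y k)).1
    rw [h2] at h1
    exact tendsto_nhds_unique h1 hy2
  have hG : (Gbar u).PosSemidef := by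
    refine posSemidef_of_qf hherm fun h => ?_
    rw [qf_Gbar hn hu hpsh hT hΛ hb]
    exact_mod_cast (lev_nonneg hu hpsh 0 h).trans (lev_le_slev hb 0 h)
  refine eq_of_sub_posSemidef hG (hpsh z) hdetG (hdet z) ?_
  refine posSemidef_of_qf (hherm.sub (hpsh z).1) fun h => ?_
  rw [qf_sub, qf_Gbar hn hu hpsh hT hΛ hb, qf_hessian hu, sub_nonneg]
  exact_mod_cast lev_le_slev hb z h

theorem lev_eq_slev (hn : 0 < n) (hu : ContDiff ℝ 2 u)
    (hpsh : ∀ z, (complexHessian u z).PosSemidef) (hdet : ∀ z, (complexHessian u z).det = 1)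
    (hT : IsFrame u T) (hΛ : 0 < Λ)
    (hb : ∀ z h : Cn n, lev u z h ≤ Λ * ‖h‖ ^ 2) (z h : Cn n) : lev u z h = slev u h := by
  have h1 := qf_Gbar hn hu hpsh hT hΛ hb h
  rw [hessian_eq_Gbar hn hu hpsh hdet hT hΛ hb z, qf_hessian hu] at h1
  exact_mod_cast h1

end

end Pool.Agent.MP_ccae28_an
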