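import Pool.Agent.MP_ccae28_an.Circle

open MeasureTheory Metric Set Filter
open scoped Real Topology

set_option linter.unusedSectionVars false

namespace Pool.Agent.MP_ccae28_an

variable {n : ℕ}

/-- A cutoff function. -/
noncomputable def eta (ρ : ℝ) (z : Cn n) : ℝ := (max 0 (2 - ‖z‖ ^ 2 / ρ ^ 2)) ^ 2

theorem continuous_eta (ρ : ℝ) : Continuous (eta (n := n) ρ) := by
  unfold eta
  fun_prop

theorem eta_nonneg (ρ : ℝ) (z : Cn n) : 0 ≤ eta ρ z := by
  unfold eta
  positivity

theorem eta_le (ρ : ℝ) (z : Cn n) : eta ρ z ≤ 4 := by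
  unfold eta
  have h1 : max 0 (2 - ‖z‖ ^ 2 / ρ ^ 2) ≤ 2 := by
    refine max_le (by norm_num) ?_
    have : 0 ≤ ‖z‖ ^ 2 / ρ ^ 2 := by positivity
    linarith
  have h2 : 0 ≤ max 0 (2 - ‖z‖ ^ 2 / ρ ^ 2) := le_max_left _ _
  nlinarith

theorem one_le_eta {ρ : ℝ} (hρ : 0 < ρ) {z : Cn n} (hz : ‖z‖ ≤ ρ) : 1 ≤ eta ρ z := by
  unfold eta
  have h1 : ‖z‖ ^ 2 / ρ ^ 2 ≤ 1 := by
    rw [div_le_one (by positivity)]
    exact pow_le_pow_left₀ (norm_nonneg _) hz 2
  have h2 : 1 ≤ max 0 (2 - ‖z‖ ^ 2 / ρ ^ 2) := le_max_of_le_right (by linarith)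
  nlinarith

theorem eta_eq_zero {ρ : ℝ} (hρ : 0 < ρ) {z : Cn n} (hz : 2 * ρ ≤ ‖z‖) : eta ρ z = 0 := by
  unfold eta
  have h1 : 2 ≤ ‖z‖ ^ 2 / ρ ^ 2 := by
    rw [le_div_iff₀ (by positivity)]
    nlinarith
  rw [max_eq_left (by linarith)]
  norm_num

theorem max_sq_le (x Δ : ℝ) : (max 0 (x + Δ)) ^ 2 ≤ (max 0 x) ^ 2 + 2 * max 0 x * Δ + Δ ^ 2 := by
  have h0 : (max 0 x) ^ 2 + 2 * max 0 x * Δ + Δ ^ 2 = (max 0 x + Δ) ^ 2 := by ring
  rw [h0]
  rcases le_total (x + Δ) 0 with h | h
  · rw [max_eq_left h]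
    nlinarith [sq_nonneg (max 0 x + Δ)]
  · rw [max_eq_right h]
    have h1 : x ≤ max 0 x := le_max_right _ _
    exact pow_le_pow_left₀ h (by linarith) 2

theorem cavg_eta_sub_le {ρ : ℝ} (hρ : 0 < ρ) {h : Cn n} (hh : ‖h‖ ≤ ρ) (z : Cn n) :
    cavg (eta ρ) h z - eta ρ z ≤
      (closedBall (0 : Cn n) (3 * ρ)).indicator (fun _ => 49 * ‖h‖ ^ 2 / ρ ^ 2) z := by
  by_cases hz : ‖z‖ ≤ 3 * ρ
  · rw [indicator_of_mem (by simpa [mem_closedBall, dist_eq_norm] using hz)]
    set x : ℝ := 2 - ‖z‖ ^ 2 / ρ ^ 2 with hx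
    set Δ : ℝ → ℝ := fun θ => -(2 * inner ℝ z (eu θ • h) + ‖h‖ ^ 2) / ρ ^ 2 with hΔ
    have hcont : Continuous fun θ => inner ℝ z (eu θ • h) := by
      have : Continuous fun θ => eu θ • h := by fun_prop
      exact continuous_const.inner this
    have hΔc : Continuous Δ := by
      rw [hΔ]
      fun_prop
    have hpt : ∀ θ, eta ρ (z + eu θ • h) ≤ eta ρ z + 2 * max 0 x * Δ θ + 49 * ‖h‖ ^ 2 / ρ ^ 2 := by
      intro θ
      have h1 : 2 - ‖z + eu θ • h‖ ^ 2 / ρ ^ 2 = x + Δ θ := by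
        rw [norm_add_sq_real, norm_eu_smul, hx, hΔ]
        field_simp
        ring
      have h2 := max_sq_le x (Δ θ)
      rw [← h1] at h2
      have h3 : |Δ θ| ≤ 7 * ‖h‖ / ρ := by
        rw [hΔ]
        simp only
        rw [abs_div, abs_neg, abs_of_pos (by positivity : (0 : ℝ) < ρ ^ 2),
          div_le_div_iff₀ (by positivity) hρ]
        have h4 : |2 * inner ℝ z (eu θ • h) + ‖h‖ ^ 2| ≤ 2 * (‖z‖ * ‖h‖) + ‖h‖ ^ 2 := by
          refine (abs_add_le _ _).trans ?_
          rw [abs_mul, abs_two, abs_of_nonneg (by positivity : (0 : ℝ) ≤ ‖h‖ ^ 2)]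
          have := abs_real_inner_le_norm z (eu θ • h)
          rw [norm_eu_smul] at this
          linarith
        have h5 : 2 * (‖z‖ * ‖h‖) + ‖h‖ ^ 2 ≤ 7 * ρ * ‖h‖ := by
          have h6 : ‖z‖ * ‖h‖ ≤ 3 * ρ * ‖h‖ := mul_le_mul_of_nonneg_right hz (norm_nonneg _)
          have h7 : ‖h‖ ^ 2 ≤ ρ * ‖h‖ := by
            rw [sq]; exact mul_le_mul_of_nonneg_right hh (norm_nonneg _)
          linarith
        calc |2 * inner ℝ z (eu θ • h) + ‖h‖ ^ 2| * ρ ≤ (7 * ρ * ‖h‖) * ρ :=
              mul_le_mul_of_nonneg_right (h4.trans h5) hρ.le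
          _ = 7 * ‖h‖ * ρ ^ 2 := by ring
      have h8 : Δ θ ^ 2 ≤ 49 * ‖h‖ ^ 2 / ρ ^ 2 := by
        rw [← sq_abs]
        calc |Δ θ| ^ 2 ≤ (7 * ‖h‖ / ρ) ^ 2 := pow_le_pow_left₀ (abs_nonneg _) h3 2
          _ = 49 * ‖h‖ ^ 2 / ρ ^ 2 := by ring
      unfold eta
      linarith
    have hΔint : ∫ θ, Δ θ ∂cm = -‖h‖ ^ 2 / ρ ^ 2 := by
      have e1 : Δ = fun θ => (-2 / ρ ^ 2) * inner ℝ z (eu θ • h) + (-‖h‖ ^ 2 / ρ ^ 2) := by
        funext θ
        rw [hΔ]
        ring
      have hint : Integrable (fun θ => (-2 / ρ ^ 2) * inner ℝ z (eu θ • h)) cm := by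
        have := integrable_cavg (f := fun y => (-2 / ρ ^ 2) * inner ℝ z y)
          (continuous_const.mul (continuous_const.inner continuous_id)) h 0
        simpa using this
      rw [e1, integral_add hint (integrable_const _), integral_const_mul, integral_eu_smul,
        mul_zero, zero_add]
      simp
    have hΔi : Integrable Δ cm := by
      have := integrable_cavg (f := fun y => -(2 * inner ℝ z y + ‖h‖ ^ 2) / ρ ^ 2)
        (by fun_prop) h 0
      simp only [zero_add] at this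
      exact this
    have hi : Integrable (fun θ => eta ρ z + 2 * max 0 x * Δ θ) cm :=
      (integrable_const _).add (hΔi.const_mul _)
    have hle : cavg (eta ρ) h z ≤ ∫ θ, (eta ρ z + 2 * max 0 x * Δ θ + 49 * ‖h‖ ^ 2 / ρ ^ 2) ∂cm := by
      refine integral_mono (integrable_cavg (continuous_eta ρ) h z) ?_ hpt
      exact hi.add (integrable_const _)
    rw [integral_add hi (integrable_const _),
      integral_add (integrable_const _) (hΔi.const_mul _), integral_const_mul, hΔint] at hle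
    simp only [integral_const, probReal_univ, smul_eq_mul, one_mul] at hle
    have h9 : 2 * max 0 x * (-‖h‖ ^ 2 / ρ ^ 2) ≤ 0 := by
      have h10 : 0 ≤ max 0 x := le_max_left _ _
      have h11 : 0 ≤ ‖h‖ ^ 2 / ρ ^ 2 := by positivity
      have h12 : -‖h‖ ^ 2 / ρ ^ 2 = -(‖h‖ ^ 2 / ρ ^ 2) := by ring
      rw [h12]
      nlinarith
    linarith
  · push Not at hz
    rw [indicator_of_notMem (by simpa [mem_closedBall, dist_eq_norm] using hz)]
    have h1 : cavg (eta ρ) h z = 0 := by
      unfold cavg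
      have : ∀ θ, eta ρ (z + eu θ • h) = 0 := by
        intro θ
        apply eta_eq_zero hρ
        have h2 : ‖z‖ ≤ ‖z + eu θ • h‖ + ‖eu θ • h‖ := by
          have := norm_sub_le (z + eu θ • h) (eu θ • h)
          rwa [add_sub_cancel_right] at this
        rw [norm_eu_smul] at h2
        linarith
      simp [this]
    rw [h1, eta_eq_zero hρ (by linarith)]
    simp

/-- A bounded continuous function on `ℂⁿ × ℝ` with bounded support in the first variable is
integrable. -/
theorem integrable_prod_cm {F : Cn n × ℝ → ℝ} (hF : Continuous F) {C R : ℝ}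
    (hC : ∀ p, |F p| ≤ C) (hR : ∀ p : Cn n × ℝ, R < ‖p.1‖ → F p = 0) :
    Integrable F ((volume : Measure (Cn n)).prod cm) := by
  have h1 : Integrable ((closedBall (0 : Cn n) R).indicator fun _ => C) volume := by
    rw [integrable_indicator_iff measurableSet_closedBall]
    exact integrableOn_const (measure_closedBall_lt_top).ne
  have h2 : Integrable (fun p : Cn n × ℝ =>
      (closedBall (0 : Cn n) R).indicator (fun _ => C) p.1 * (1 : ℝ))
      ((volume : Measure (Cn n)).prod cm) := h1.mul_prod (integrable_const (1 : ℝ))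
  refine h2.mono' hF.aestronglyMeasurable (Eventually.of_forall fun p => ?_)
  rw [Real.norm_eq_abs, mul_one]
  by_cases hp : p.1 ∈ closedBall (0 : Cn n) R
  · rw [indicator_of_mem hp]; exact hC p
  · rw [indicator_of_notMem hp, hR p (by simpa [mem_closedBall, dist_eq_norm] using hp)]
    simp

/-- Moving the circle average from one factor to the other. -/
theorem integral_eta_mul_cavg {u : Cn n → ℝ} (hu : Continuous u) {ρ : ℝ} (hρ : 0 < ρ) (h : Cn n) :
    ∫ z, eta ρ z * cavg u h z = ∫ z, cavg (eta ρ) (-h) z * u z := by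
  obtain ⟨C, hC0, hC⟩ := exists_bound_closedBall hu (0 : Cn n) (2 * ρ + ‖h‖)
  have hcont1 : Continuous fun p : Cn n × ℝ => eta ρ p.1 * u (p.1 + eu p.2 • h) := by
    have := continuous_eta (n := n) ρ
    fun_prop
  have hcont2 : Continuous fun p : Cn n × ℝ => eta ρ (p.1 + eu p.2 • (-h)) * u p.1 := by
    have := continuous_eta (n := n) ρ
    fun_prop
  have hnorm : ∀ (z : Cn n) (θ : ℝ), ‖z + eu θ • h‖ ≤ ‖z‖ + ‖h‖ := fun z θ => by
    have := norm_add_le z (eu θ • h)
    rwa [norm_eu_smul] at this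
  have hnorm2 : ∀ (z : Cn n) (θ : ℝ), ‖z‖ ≤ ‖z + eu θ • (-h)‖ + ‖h‖ := fun z θ => by
    have := norm_sub_le (z + eu θ • (-h)) (eu θ • (-h))
    rwa [add_sub_cancel_right, norm_eu_smul, norm_neg] at this
  have hint1 : Integrable (fun p : Cn n × ℝ => eta ρ p.1 * u (p.1 + eu p.2 • h))
      ((volume : Measure (Cn n)).prod cm) := by
    refine integrable_prod_cm hcont1 (C := 4 * C) (R := 2 * ρ) (fun p => ?_) (fun p hp => ?_)
    · by_cases hp : ‖p.1‖ ≤ 2 * ρ
      · rw [abs_mul, abs_of_nonneg (eta_nonneg _ _)]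
        have h2 : |u (p.1 + eu p.2 • h)| ≤ C := by
          have := hC (p.1 + eu p.2 • h) (by
            rw [mem_closedBall, dist_eq_norm, sub_zero]
            exact (hnorm _ _).trans (by linarith))
          exact this
        exact mul_le_mul (eta_le _ _) h2 (abs_nonneg _) (by norm_num)
      · push Not at hp
        rw [eta_eq_zero hρ hp.le, zero_mul, abs_zero]
        positivity
    · rw [eta_eq_zero hρ hp.le, zero_mul]
  have hint2 : Integrable (fun p : Cn n × ℝ => eta ρ (p.1 + eu p.2 • (-h)) * u p.1)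
      ((volume : Measure (Cn n)).prod cm) := by
    refine integrable_prod_cm hcont2 (C := 4 * C) (R := 2 * ρ + ‖h‖) (fun p => ?_)
      (fun p hp => ?_)
    · by_cases hp : ‖p.1‖ ≤ 2 * ρ + ‖h‖
      · rw [abs_mul, abs_of_nonneg (eta_nonneg _ _)]
        have h2 : |u p.1| ≤ C := by
          have := hC p.1 (by rw [mem_closedBall, dist_eq_norm, sub_zero]; exact hp)
          exact this
        exact mul_le_mul (eta_le _ _) h2 (abs_nonneg _) (by norm_num)
      · push Not at hp
        rw [eta_eq_zero hρ (by linarith [hnorm2 p.1 p.2]), zero_mul, abs_zero]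
        positivity
    · rw [eta_eq_zero hρ (by linarith [hnorm2 p.1 p.2]), zero_mul]
  calc ∫ z, eta ρ z * cavg u h z = ∫ z, ∫ θ, eta ρ z * u (z + eu θ • h) ∂cm := by
        refine integral_congr_ae (Eventually.of_forall fun z => ?_)
        simp only [cavg]
        rw [integral_const_mul]
    _ = ∫ θ, (∫ z : Cn n, eta ρ z * u (z + eu θ • h)) ∂cm := integral_integral_swap hint1
    _ = ∫ θ, (∫ z : Cn n, eta ρ (z + eu θ • (-h)) * u z) ∂cm := by
        refine integral_congr_ae (Eventually.of_forall fun θ => ?_)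
        have := integral_add_right_eq_self (μ := (volume : Measure (Cn n)))
          (fun z => eta ρ (z + eu θ • (-h)) * u z) (eu θ • h)
        simp only at this ⊢
        rw [← this]
        refine integral_congr_ae (Eventually.of_forall fun z => ?_)
        simp
    _ = ∫ z, ∫ θ, eta ρ (z + eu θ • (-h)) * u z ∂cm := (integral_integral_swap hint2).symm
    _ = ∫ z, cavg (eta ρ) (-h) z * u z := by
        refine integral_congr_ae (Eventually.of_forall fun z => ?_)
        simp only [cavg]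
        rw [integral_mul_const]

theorem hasCompactSupport_of_zero {F : Cn n → ℝ} {R : ℝ} (hR : ∀ z, R < ‖z‖ → F z = 0) :
    HasCompactSupport F := by
  refine HasCompactSupport.intro (isCompact_closedBall (0 : Cn n) R) fun z hz => hR z ?_
  simpa [mem_closedBall, dist_eq_norm] using hz

theorem integrable_eta_mul {g : Cn n → ℝ} (hg : Continuous g) {ρ : ℝ} (hρ : 0 < ρ) :
    Integrable (fun z => eta ρ z * g z) (volume : Measure (Cn n)) := by
  have hc : Continuous fun z => eta ρ z * g z := (continuous_eta ρ).mul hg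
  exact hc.integrable_of_hasCompactSupport
    (hasCompactSupport_of_zero (R := 2 * ρ) fun z hz => by
      rw [eta_eq_zero hρ hz.le, zero_mul])

/-- The `L¹` bound on `A_h u = cavg u h - u`. -/
theorem integral_eta_mul_le {u : Cn n → ℝ} (hu : Continuous u) (hu0 : ∀ z, 0 ≤ u z)
    {ρ : ℝ} (hρ : 0 < ρ) {h : Cn n} (hh : ‖h‖ ≤ ρ) {K : ℝ}
    (hK : ∀ z ∈ closedBall (0 : Cn n) (3 * ρ), u z ≤ K) :
    ∫ z, eta ρ z * (cavg u h z - u z) ≤
      K * (49 * ‖h‖ ^ 2 / ρ ^ 2) * (volume : Measure (Cn n)).real (closedBall 0 (3 * ρ)) := by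
  have hch : Continuous (cavg (eta (n := n) ρ) (-h)) := continuous_cavg (continuous_eta ρ) _
  have hzero : ∀ z : Cn n, 3 * ρ < ‖z‖ → cavg (eta ρ) (-h) z = 0 := by
    intro z hz
    unfold cavg
    have : ∀ θ, eta ρ (z + eu θ • (-h)) = 0 := by
      intro θ
      apply eta_eq_zero hρ
      have h2 : ‖z‖ ≤ ‖z + eu θ • (-h)‖ + ‖eu θ • (-h)‖ := by
        have := norm_sub_le (z + eu θ • (-h)) (eu θ • (-h))
        rwa [add_sub_cancel_right] at this
      rw [norm_eu_smul, norm_neg] at h2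
      linarith
    simp only [this, integral_zero]
  have hc1 : Continuous fun z => cavg (eta ρ) (-h) z * u z := hch.mul hu
  have hint1 : Integrable (fun z => cavg (eta ρ) (-h) z * u z) (volume : Measure (Cn n)) :=
    hc1.integrable_of_hasCompactSupport
      (hasCompactSupport_of_zero (R := 3 * ρ) fun z hz => by rw [hzero z hz, zero_mul])
  have e1 : ∫ z, eta ρ z * (cavg u h z - u z) =
      ∫ z, (cavg (eta ρ) (-h) z - eta ρ z) * u z := by
    have e2 : ∀ z, eta ρ z * (cavg u h z - u z) = eta ρ z * cavg u h z - eta ρ z * u z :=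
      fun z => by ring
    have e3 : ∀ z, (cavg (eta ρ) (-h) z - eta ρ z) * u z =
        cavg (eta ρ) (-h) z * u z - eta ρ z * u z := fun z => by ring
    simp only [e2, e3]
    rw [integral_sub (integrable_eta_mul (continuous_cavg hu h) hρ) (integrable_eta_mul hu hρ),
      integral_sub hint1 (integrable_eta_mul hu hρ), integral_eta_mul_cavg hu hρ]
  rw [e1]
  have hle : ∀ z, (cavg (eta ρ) (-h) z - eta ρ z) * u z ≤
      (closedBall (0 : Cn n) (3 * ρ)).indicator (fun _ => K * (49 * ‖h‖ ^ 2 / ρ ^ 2)) z := by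
    intro z
    have h1 := cavg_eta_sub_le hρ (h := -h) (by rwa [norm_neg]) z
    rw [norm_neg] at h1
    by_cases hz : z ∈ closedBall (0 : Cn n) (3 * ρ)
    · rw [indicator_of_mem hz] at h1 ⊢
      calc (cavg (eta ρ) (-h) z - eta ρ z) * u z ≤ (49 * ‖h‖ ^ 2 / ρ ^ 2) * u z :=
            mul_le_mul_of_nonneg_right h1 (hu0 z)
        _ ≤ (49 * ‖h‖ ^ 2 / ρ ^ 2) * K :=
            mul_le_mul_of_nonneg_left (hK z hz) (by positivity)
        _ = K * (49 * ‖h‖ ^ 2 / ρ ^ 2) := by ring
    · rw [indicator_of_notMem hz] at h1 ⊢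
      exact mul_nonpos_of_nonpos_of_nonneg h1 (hu0 z)
  have hint2 : Integrable (fun z => (cavg (eta ρ) (-h) z - eta ρ z) * u z)
      (volume : Measure (Cn n)) := by
    have e3 : (fun z => (cavg (eta ρ) (-h) z - eta ρ z) * u z) =
        fun z => cavg (eta ρ) (-h) z * u z - eta ρ z * u z := by funext z; ring
    rw [e3]
    exact hint1.sub (integrable_eta_mul hu hρ)
  refine (integral_mono hint2 ?_ hle).trans (le_of_eq ?_)
  · rw [integrable_indicator_iff measurableSet_closedBall]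
    exact integrableOn_const (measure_closedBall_lt_top).ne
  · rw [integral_indicator_const _ measurableSet_closedBall, smul_eq_mul]
    ring

end Pool.Agent.MP_ccae28_an
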