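import Mathlib

namespace Pool.Agent.MP_ccae28_an

/-- `n`-dimensional complex space `ℂⁿ` with its Euclidean norm `‖z‖ ^ 2 = ∑ ‖z k‖ ^ 2`. -/
abbrev Cn (n : ℕ) := EuclideanSpace ℂ (Fin n)

/-- The partial derivative `∂f/∂x_i`, where `z_i = x_i + √-1 y_i`. -/
noncomputable def partialX {n : ℕ} (i : Fin n) (f : Cn n → ℂ) (z : Cn n) : ℂ :=
  fderiv ℝ f z (EuclideanSpace.single i 1)

/-- The partial derivative `∂f/∂y_i`, where `z_i = x_i + √-1 y_i`. -/
noncomputable def partialY {n : ℕ} (i : Fin n) (f : Cn n → ℂ) (z : Cn n) : ℂ :=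
  fderiv ℝ f z (EuclideanSpace.single i Complex.I)

/-- The Wirtinger derivative `∂f/∂z_i = (∂f/∂x_i - √-1 ∂f/∂y_i) / 2`. -/
noncomputable def wirtinger {n : ℕ} (i : Fin n) (f : Cn n → ℂ) (z : Cn n) : ℂ :=
  (1 / 2) * (partialX i f z - Complex.I * partialY i f z)

/-- The Wirtinger derivative `∂f/∂z̄_i = (∂f/∂x_i + √-1 ∂f/∂y_i) / 2`. -/
noncomputable def wirtingerBar {n : ℕ} (i : Fin n) (f : Cn n → ℂ) (z : Cn n) : ℂ :=
  (1 / 2) * (partialX i f z + Complex.I * partialY i f z)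

/-- The complex Hessian matrix `u_{i j̄} = ∂²u/∂z_i∂z̄_j` of a real valued function `u`. -/
noncomputable def complexHessian {n : ℕ} (u : Cn n → ℝ) (z : Cn n) : Matrix (Fin n) (Fin n) ℂ :=
  Matrix.of fun i j => wirtinger i (wirtingerBar j (fun w => (u w : ℂ))) z

open scoped ComplexOrder in
/-- A function `u` of class `C²` is plurisubharmonic when its complex Hessian is positive
semidefinite at every point. -/
def IsPlurisubharmonic {n : ℕ} (u : Cn n → ℝ) : Prop :=
  ContDiff ℝ 2 u ∧ ∀ z, (complexHessian u z).PosSemidef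

/-- A function on `ℂⁿ` is quadratic if it is a polynomial of degree at most `2` in the real
coordinates `x_1, …, x_n, y_1, …, y_n`. -/
def IsQuadratic {n : ℕ} (u : Cn n → ℝ) : Prop :=
  ∃ p : MvPolynomial (Fin n ⊕ Fin n) ℝ, p.totalDegree ≤ 2 ∧
    ∀ z, u z = MvPolynomial.eval (Sum.elim (fun i => (z i).re) (fun i => (z i).im)) p

end Pool.Agent.MP_ccae28_an
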