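import Pool.Agent.MP_ccae28_an.Cutoff

open MeasureTheory Metric Set Filter
open scoped Real Topology ComplexOrder

set_option linter.unusedSectionVars false

namespace Pool.Agent.MP_ccae28_an

variable {n : ℕ}

theorem D2_add {f g : Cn n → ℝ} (hf : ContDiff ℝ 2 f) (hg : ContDiff ℝ 2 g) (z v w : Cn n) :
    D2 (fun y => f y + g y) z v w = D2 f z v w + D2 g z v w := by
  unfold D2
  have h1 : fderiv ℝ (fun y => f y + g y) = fun y => fderiv ℝ f y + fderiv ℝ g y := by
    funext y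
    exact fderiv_fun_add (hf.differentiable (by norm_num) y) (hg.differentiable (by norm_num) y)
  rw [h1, fderiv_fun_add (differentiable_fderiv hf z) (differentiable_fderiv hg z)]
  simp

theorem D2_sub {f g : Cn n → ℝ} (hf : ContDiff ℝ 2 f) (hg : ContDiff ℝ 2 g) (z v w : Cn n) :
    D2 (fun y => f y - g y) z v w = D2 f z v w - D2 g z v w := by
  have h1 := D2_add hf hg.neg z v w
  have h2 := D2_neg g z v w
  simp only [sub_eq_add_neg]
  rw [← h2]
  exact h1

theorem D2_const_mul {f : Cn n → ℝ} (hf : ContDiff ℝ 2 f) (c : ℝ) (z v w : Cn n) :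
    D2 (fun y => c * f y) z v w = c * D2 f z v w := by
  unfold D2
  have h1 : fderiv ℝ (fun y => c * f y) = fun y => c • fderiv ℝ f y := by
    funext y
    exact fderiv_const_mul (hf.differentiable (by norm_num) y) c
  rw [h1, fderiv_fun_const_smul (differentiable_fderiv hf z)]
  simp

theorem D2_const (c : ℝ) (z v w : Cn n) : D2 (fun _ : Cn n => c) z v w = 0 := by
  unfold D2
  have h1 : fderiv ℝ (fun _ : Cn n => c) = fun _ => 0 := by
    funext y
    simp
  rw [h1]
  simp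

theorem D2_inner (x z v w : Cn n) : D2 (fun y : Cn n => inner ℝ x y) z v w = 0 := by
  unfold D2
  have h1 : fderiv ℝ (fun y : Cn n => inner ℝ x y) = fun _ => innerSL ℝ x := by
    funext y
    exact (innerSL ℝ x).hasFDerivAt.fderiv
  rw [h1]
  simp

theorem lev_add {f g : Cn n → ℝ} (hf : ContDiff ℝ 2 f) (hg : ContDiff ℝ 2 g) (z h : Cn n) :
    lev (fun y => f y + g y) z h = lev f z h + lev g z h := by
  simp only [lev, D2_add hf hg]
  ring

theorem lev_sub {f g : Cn n → ℝ} (hf : ContDiff ℝ 2 f) (hg : ContDiff ℝ 2 g) (z h : Cn n) :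
    lev (fun y => f y - g y) z h = lev f z h - lev g z h := by
  simp only [lev, D2_sub hf hg]
  ring

theorem lev_const_mul {f : Cn n → ℝ} (hf : ContDiff ℝ 2 f) (c : ℝ) (z h : Cn n) :
    lev (fun y => c * f y) z h = c * lev f z h := by
  simp only [lev, D2_const_mul hf]
  ring

theorem lev_const (c : ℝ) (z h : Cn n) : lev (fun _ : Cn n => c) z h = 0 := by
  simp [lev, D2_const]

theorem lev_inner (x z h : Cn n) : lev (fun y : Cn n => inner ℝ x y) z h = 0 := by
  simp [lev, D2_inner]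

theorem lev_cavg {f : Cn n → ℝ} (hf : ContDiff ℝ 2 f) (k z h : Cn n) :
    lev (cavg f k) z h = cavg (fun y => lev f y h) k z := by
  simp only [lev, D2_cavg hf]
  unfold cavg
  rw [integral_const_mul, integral_add]
  · exact integrable_cavg (f := fun y => D2 f y h h) (continuous_D2 hf _ _) k z
  · exact integrable_cavg (f := fun y => D2 f y (Complex.I • h) (Complex.I • h))
      (continuous_D2 hf _ _) k z

/-- The squared norm has Levi form `‖h‖ ^ 2`. -/
theorem lev_normSq (z h : Cn n) : lev (fun y : Cn n => ‖y‖ ^ 2) z h = ‖h‖ ^ 2 := by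
  have h1 : ∀ v : Cn n, D2 (fun y : Cn n => ‖y‖ ^ 2) z v v = 2 * ‖v‖ ^ 2 := by
    intro v
    unfold D2
    have h2 : fderiv ℝ (fun y : Cn n => ‖y‖ ^ 2) = fun y => (2 : ℝ) • (innerSL ℝ y) := by
      funext y
      rw [(hasStrictFDerivAt_norm_sq y).hasFDerivAt.fderiv]
      ext w
      simp [two_mul]
    have h3 : HasFDerivAt (fun y : Cn n => (2 : ℝ) • (innerSL ℝ y)) ((2 : ℝ) • innerSL ℝ) z :=
      (innerSL ℝ : Cn n →L[ℝ] Cn n →L[ℝ] ℝ).hasFDerivAt.const_smul (2 : ℝ)
    rw [h2, h3.fderiv]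
    change 2 * inner ℝ v v = 2 * ‖v‖ ^ 2
    rw [real_inner_self_eq_norm_sq]
  have h2 : ‖Complex.I • h‖ = ‖h‖ := by rw [norm_smul]; simp
  rw [lev, h1, h1, h2]
  ring

/-- The complex Hessian being positive semidefinite, the Levi form is nonnegative. -/
theorem lev_nonneg {u : Cn n → ℝ} (hu : ContDiff ℝ 2 u)
    (hpsh : ∀ z, (complexHessian u z).PosSemidef) (z h : Cn n) : 0 ≤ lev u z h := by
  have h1 := sesq_self hu z h
  rw [sesq_eq_hessian hu] at h1
  have h2 := (hpsh z).dotProduct_mulVec_nonneg (fun i => (starRingEnd ℂ) (h i))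
  have h3 : star (fun i => (starRingEnd ℂ) (h i)) ⬝ᵥ
      Matrix.mulVec (complexHessian u z) (fun i => (starRingEnd ℂ) (h i)) =
      ∑ i, ∑ j, h i * (starRingEnd ℂ) (h j) * complexHessian u z i j := by
    simp only [dotProduct, Matrix.mulVec, Pi.star_apply, Finset.mul_sum]
    refine Finset.sum_congr rfl fun i _ => Finset.sum_congr rfl fun j _ => ?_
    rw [← starRingEnd_apply, Complex.conj_conj]
    ring
  rw [h3] at h2
  have h4 : (0 : ℂ) ≤ ((4 * lev u z h : ℝ) : ℂ) := by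
    rw [← h1]
    exact mul_nonneg (by norm_num) h2
  rw [Complex.zero_le_real] at h4
  linarith

/-- Normalised frames for the solution `u`. -/
structure IsFrame (u : Cn n → ℝ) (T : Cn n → Cn n →ₗ[ℂ] Cn n) : Prop where
  det : ∀ z, |LinearMap.det ((T z).restrictScalars ℝ)| = 1
  levT : ∀ z h, lev u z (T z h) = ‖h‖ ^ 2
  sum : ∀ z y, (n : ℝ) ≤ ∑ a, lev u y (T z (ev a))

/-- The linearised operator. -/
noncomputable def ell (T : Cn n → Cn n →ₗ[ℂ] Cn n) (f : Cn n → ℝ) (z : Cn n) : ℝ :=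
  ∑ a, lev f z (T z (ev a))

theorem norm_ev (a : Fin n) : ‖(ev a : Cn n)‖ = 1 := by
  simp [ev]

section

variable {u : Cn n → ℝ} {T : Cn n → Cn n →ₗ[ℂ] Cn n}

theorem ell_self (hT : IsFrame u T) (z : Cn n) : ell T u z = n := by
  simp [ell, hT.levT, norm_ev]

theorem ell_sub {f g : Cn n → ℝ} (hf : ContDiff ℝ 2 f) (hg : ContDiff ℝ 2 g) (z : Cn n) :
    ell T (fun y => f y - g y) z = ell T f z - ell T g z := by
  simp only [ell, lev_sub hf hg, Finset.sum_sub_distrib]

theorem ell_add {f g : Cn n → ℝ} (hf : ContDiff ℝ 2 f) (hg : ContDiff ℝ 2 g) (z : Cn n) :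
    ell T (fun y => f y + g y) z = ell T f z + ell T g z := by
  simp only [ell, lev_add hf hg, Finset.sum_add_distrib]

theorem ell_const_mul {f : Cn n → ℝ} (hf : ContDiff ℝ 2 f) (c : ℝ) (z : Cn n) :
    ell T (fun y => c * f y) z = c * ell T f z := by
  simp only [ell, lev_const_mul hf, Finset.mul_sum]

theorem ell_const (c : ℝ) (z : Cn n) : ell T (fun _ => c) z = 0 := by
  simp [ell, lev_const]

theorem ell_inner (x z : Cn n) : ell T (fun y => inner ℝ x y) z = 0 := by
  simp [ell, lev_inner]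

/-- The difference `cavg u h - u` is a subsolution of the linearised operator. -/
theorem ell_cavg_sub_nonneg (hu : ContDiff ℝ 2 u) (hT : IsFrame u T) (h z : Cn n) :
    0 ≤ ell T (fun y => cavg u h y - u y) z := by
  rw [ell_sub (contDiff_cavg hu h) hu, ell_self hT]
  have h1 : ell T (cavg u h) z = cavg (fun y => ∑ a, lev u y (T z (ev a))) h z := by
    simp only [ell, lev_cavg hu]
    unfold cavg
    rw [integral_finsetSum]
    intro a _
    exact integrable_cavg (f := fun y => lev u y (T z (ev a))) (continuous_lev hu _) h z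
  have h2 : (n : ℝ) ≤ cavg (fun y => ∑ a, lev u y (T z (ev a))) h z := by
    rw [← cavg_const (n : ℝ) h z]
    refine cavg_mono continuous_const ?_ h z fun y _ => hT.sum z y
    exact continuous_finsetSum _ fun a _ => continuous_lev hu _
  rw [h1]
  linarith

/-- The ABP estimate for the linearised operator. -/
theorem abp_complex (hn : 0 < n) (hT : IsFrame u T) {Ψ : Cn n → ℝ} (hΨ : ContDiff ℝ 2 Ψ)
    {Ω : Set (Cn n)} (hΩ : IsOpen Ω) (hbd : Bornology.IsBounded Ω) {x₀ : Cn n} (hx₀ : x₀ ∈ Ω)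
    {d : ℝ} (hd : 0 < d) (hdist : ∀ x ∈ closure Ω, dist x x₀ ≤ d)
    (hfr : ∀ x ∈ frontier Ω, Ψ x ≤ 0) (hpos : 0 < Ψ x₀)
    {S : Set (Cn n)} (hS : MeasurableSet S) (hSfin : volume S ≠ ⊤) {k : ℝ} (hk : 0 ≤ k)
    (h1 : ∀ x ∈ Ω, 0 < Ψ x → -k ≤ ell T Ψ x)
    (h2 : ∀ x ∈ Ω, 0 < Ψ x → x ∉ S → 0 ≤ ell T Ψ x) :
    (Ψ x₀ / d) ^ (2 * n) * (volume : Measure (Cn n)).real (ball 0 1) ≤
      (2 * k / n) ^ (2 * n) * (volume : Measure (Cn n)).real S := by
  have : Nonempty (Fin n) := ⟨⟨0, hn⟩⟩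
  have hsum : ∀ x, ∑ i, D2 Ψ x (((T x).restrictScalars ℝ) (rb n i))
      (((T x).restrictScalars ℝ) (rb n i)) = 4 * ell T Ψ x := by
    intro x
    rw [sum_rb, ell, Finset.mul_sum]
  have hmain := abp (volume : Measure (Cn n)) (rb n) hΨ hΩ hbd hx₀ hd hdist hfr hpos hS
    (k := 4 * k) (by linarith) (fun x => (T x).restrictScalars ℝ) hT.det
    (fun x hx hx' => by rw [hsum]; linarith [h1 x hx hx'])
    (fun x hx hx' hxS => by rw [hsum]; linarith [h2 x hx hx' hxS])
  have hcard : Fintype.card (Fin 2 × Fin n) = 2 * n := by simp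
  rw [hcard] at hmain
  have hn' : (0 : ℝ) < n := by exact_mod_cast hn
  have e1 : 4 * k / ((2 * n : ℕ) : ℝ) = 2 * k / n := by
    push_cast
    field_simp
    ring
  rw [e1] at hmain
  have hfin2 : ENNReal.ofReal ((2 * k / n) ^ (2 * n)) * volume S ≠ ⊤ :=
    ENNReal.mul_ne_top ENNReal.ofReal_ne_top hSfin
  have hreal := ENNReal.toReal_mono hfin2 hmain
  rw [ENNReal.toReal_mul, ENNReal.toReal_mul, ENNReal.toReal_ofReal (by positivity),
    ENNReal.toReal_ofReal (by positivity)] at hreal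
  exact hreal

end

end Pool.Agent.MP_ccae28_an
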