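import Pool.Agent.MP_ccae28_an.ABP
import Pool.Agent.MP_ccae28_an.Defs

open Matrix
open scoped ComplexOrder

set_option linter.unusedSectionVars false

namespace Pool.Agent.MP_ccae28_an

variable {n : ℕ}

/-- The Levi form `∑ u_{j k̄} h_j h̄_k`, expressed through real second derivatives. -/
noncomputable def lev (f : Cn n → ℝ) (z h : Cn n) : ℝ :=
  (1 / 4) * (D2 f z h h + D2 f z (Complex.I • h) (Complex.I • h))

/-- The sesquilinear form attached to the second derivative. -/
noncomputable def sesq (f : Cn n → ℝ) (z v w : Cn n) : ℂ :=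
  (D2 f z v w : ℂ) + D2 f z (Complex.I • v) (Complex.I • w) +
    Complex.I * ((D2 f z v (Complex.I • w) : ℂ) - D2 f z (Complex.I • v) w)

theorem D2_add_left (f : Cn n → ℝ) (z v v' w : Cn n) :
    D2 f z (v + v') w = D2 f z v w + D2 f z v' w := by simp [D2]

theorem D2_add_right (f : Cn n → ℝ) (z v w w' : Cn n) :
    D2 f z v (w + w') = D2 f z v w + D2 f z v w' := by simp [D2]

theorem D2_smul_left (f : Cn n → ℝ) (z v w : Cn n) (r : ℝ) :
    D2 f z (r • v) w = r * D2 f z v w := by simp [D2]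

theorem D2_smul_right (f : Cn n → ℝ) (z v w : Cn n) (r : ℝ) :
    D2 f z v (r • w) = r * D2 f z v w := by simp [D2]

theorem D2_neg_left (f : Cn n → ℝ) (z v w : Cn n) :
    D2 f z (-v) w = - D2 f z v w := by simp [D2]

theorem D2_neg_right (f : Cn n → ℝ) (z v w : Cn n) :
    D2 f z v (-w) = - D2 f z v w := by simp [D2]

theorem csmul_eq (c : ℂ) (v : Cn n) : c • v = c.re • v + c.im • (Complex.I • v) := by
  ext i
  simp only [PiLp.smul_apply, PiLp.add_apply, smul_eq_mul, Complex.real_smul]
  conv_lhs => rw [← Complex.re_add_im c]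
  ring

theorem I_smul_I_smul (v : Cn n) : Complex.I • (Complex.I • v) = -v := by
  rw [smul_smul, Complex.I_mul_I, neg_one_smul]

theorem sesq_add_left (f : Cn n → ℝ) (z v v' w : Cn n) :
    sesq f z (v + v') w = sesq f z v w + sesq f z v' w := by
  simp only [sesq, smul_add, D2_add_left]
  push_cast
  ring

theorem sesq_add_right (f : Cn n → ℝ) (z v w w' : Cn n) :
    sesq f z v (w + w') = sesq f z v w + sesq f z v w' := by
  simp only [sesq, smul_add, D2_add_right]
  push_cast
  ring

theorem sesq_rsmul_left (f : Cn n → ℝ) (z v w : Cn n) (r : ℝ) :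
    sesq f z (r • v) w = r * sesq f z v w := by
  have h : Complex.I • (r • v) = r • (Complex.I • v) := smul_comm _ _ _
  simp only [sesq, h, D2_smul_left]
  push_cast
  ring

theorem sesq_rsmul_right (f : Cn n → ℝ) (z v w : Cn n) (r : ℝ) :
    sesq f z v (r • w) = r * sesq f z v w := by
  have h : Complex.I • (r • w) = r • (Complex.I • w) := smul_comm _ _ _
  simp only [sesq, h, D2_smul_right]
  push_cast
  ring

theorem sesq_I_left (f : Cn n → ℝ) (z v w : Cn n) :
    sesq f z (Complex.I • v) w = Complex.I * sesq f z v w := by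
  simp only [sesq, I_smul_I_smul, D2_neg_left]
  push_cast
  linear_combination ((D2 f z v (Complex.I • w) : ℂ) - D2 f z (Complex.I • v) w) *
    (-Complex.I_mul_I)

theorem sesq_I_right (f : Cn n → ℝ) (z v w : Cn n) :
    sesq f z v (Complex.I • w) = -Complex.I * sesq f z v w := by
  simp only [sesq, I_smul_I_smul, D2_neg_right]
  push_cast
  linear_combination ((D2 f z v (Complex.I • w) : ℂ) - D2 f z (Complex.I • v) w) *
    (Complex.I_mul_I)

theorem sesq_smul_left (f : Cn n → ℝ) (z v w : Cn n) (c : ℂ) :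
    sesq f z (c • v) w = c * sesq f z v w := by
  rw [csmul_eq, sesq_add_left, sesq_rsmul_left, sesq_rsmul_left, sesq_I_left]
  conv_rhs => rw [← Complex.re_add_im c]
  ring

theorem sesq_smul_right (f : Cn n → ℝ) (z v w : Cn n) (c : ℂ) :
    sesq f z v (c • w) = (starRingEnd ℂ) c * sesq f z v w := by
  rw [csmul_eq, sesq_add_right, sesq_rsmul_right, sesq_rsmul_right, sesq_I_right]
  have : (starRingEnd ℂ) c = c.re - c.im * Complex.I := by
    apply Complex.ext <;> simp
  rw [this]
  ring

theorem sesq_self {f : Cn n → ℝ} (hf : ContDiff ℝ 2 f) (z v : Cn n) :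
    sesq f z v v = ((4 * lev f z v : ℝ) : ℂ) := by
  simp only [sesq, lev, D2_symm hf z (Complex.I • v) v, sub_self, mul_zero, add_zero]
  push_cast
  ring

theorem sesq_zero_left (f : Cn n → ℝ) (z w : Cn n) : sesq f z 0 w = 0 := by
  simp [sesq, D2]

theorem sesq_zero_right (f : Cn n → ℝ) (z w : Cn n) : sesq f z w 0 = 0 := by
  simp [sesq, D2]

theorem sesq_sum_left {ι : Type*} (f : Cn n → ℝ) (z w : Cn n) (s : Finset ι) (v : ι → Cn n) :
    sesq f z (∑ i ∈ s, v i) w = ∑ i ∈ s, sesq f z (v i) w := by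
  classical
  induction s using Finset.induction_on with
  | empty => simp [sesq_zero_left]
  | insert a s ha ih => rw [Finset.sum_insert ha, Finset.sum_insert ha, sesq_add_left, ih]

theorem sesq_sum_right {ι : Type*} (f : Cn n → ℝ) (z w : Cn n) (s : Finset ι) (v : ι → Cn n) :
    sesq f z w (∑ i ∈ s, v i) = ∑ i ∈ s, sesq f z w (v i) := by
  classical
  induction s using Finset.induction_on with
  | empty => simp [sesq_zero_right]
  | insert a s ha ih => rw [Finset.sum_insert ha, Finset.sum_insert ha, sesq_add_right, ih]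

/-- The standard basis vector. -/
noncomputable def ev (i : Fin n) : Cn n := EuclideanSpace.single i 1

theorem single_I (i : Fin n) :
    (EuclideanSpace.single i Complex.I : Cn n) = Complex.I • ev i := by
  ext j
  simp [ev]

theorem sum_ev (h : Cn n) : h = ∑ i, h i • ev i := by
  ext j
  simp [ev, Pi.single_apply]

theorem fderiv_ofReal {u : Cn n → ℝ} (hu : ContDiff ℝ 2 u) (z v : Cn n) :
    fderiv ℝ (fun w => (u w : ℂ)) z v = (fderiv ℝ u z v : ℂ) := by
  have h1 : HasFDerivAt u (fderiv ℝ u z) z := (hu.differentiable (by norm_num) z).hasFDerivAt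
  have h2 := (Complex.ofRealCLM.hasFDerivAt (x := u z)).comp z h1
  have h3 : HasFDerivAt (fun w => (u w : ℂ)) (Complex.ofRealCLM.comp (fderiv ℝ u z)) z := h2
  rw [h3.fderiv]
  simp

theorem wirtingerBar_ofReal {u : Cn n → ℝ} (hu : ContDiff ℝ 2 u) (j : Fin n) :
    wirtingerBar j (fun w => (u w : ℂ)) = fun z =>
      (1 / 2 : ℂ) * ((fderiv ℝ u z (ev j) : ℂ) + Complex.I * (fderiv ℝ u z (Complex.I • ev j) : ℂ)) := by
  funext z
  simp only [wirtingerBar, partialX, partialY, fderiv_ofReal hu, single_I]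
  rfl

theorem fderiv_wirtingerBar {u : Cn n → ℝ} (hu : ContDiff ℝ 2 u) (j : Fin n) (z v : Cn n) :
    fderiv ℝ (wirtingerBar j (fun w => (u w : ℂ))) z v =
      (1 / 2 : ℂ) * ((D2 u z v (ev j) : ℂ) + Complex.I * (D2 u z v (Complex.I • ev j) : ℂ)) := by
  rw [wirtingerBar_ofReal hu]
  have h0 : ∀ w : Cn n, HasFDerivAt (fun x => (fderiv ℝ u x w : ℂ))
      (Complex.ofRealCLM.comp ((ContinuousLinearMap.apply ℝ ℝ w).comp
        (fderiv ℝ (fderiv ℝ u) z))) z := by
    intro w
    have h1 : HasFDerivAt (fderiv ℝ u) (fderiv ℝ (fderiv ℝ u) z) z :=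
      (differentiable_fderiv hu z).hasFDerivAt
    have h2 : HasFDerivAt (fun x => fderiv ℝ u x w)
      ((ContinuousLinearMap.apply ℝ ℝ w).comp (fderiv ℝ (fderiv ℝ u) z)) z :=
      (ContinuousLinearMap.apply ℝ ℝ w).hasFDerivAt.comp z h1
    exact (Complex.ofRealCLM.hasFDerivAt (x := fderiv ℝ u z w)).comp z h2
  have h3 := ((h0 (ev j)).add ((h0 (Complex.I • ev j)).const_mul Complex.I)).const_mul (1 / 2 : ℂ)
  have h4 : fderiv ℝ (fun z => (1 / 2 : ℂ) * ((fderiv ℝ u z (ev j) : ℂ) +
      Complex.I * (fderiv ℝ u z (Complex.I • ev j) : ℂ))) z = _ := h3.fderiv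
  rw [h4]
  simp [D2, mul_add]

theorem complexHessian_apply {u : Cn n → ℝ} (hu : ContDiff ℝ 2 u) (z : Cn n) (i j : Fin n) :
    complexHessian u z i j = (1 / 4 : ℂ) * sesq u z (ev i) (ev j) := by
  simp only [complexHessian, Matrix.of_apply, wirtinger, partialX, partialY,
    fderiv_wirtingerBar hu, single_I, sesq]
  have : (EuclideanSpace.single i 1 : Cn n) = ev i := rfl
  rw [this]
  linear_combination (-(1 / 4 : ℂ) * (D2 u z (Complex.I • ev i) (Complex.I • ev j) : ℂ)) *
    Complex.I_mul_I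

/-- The Levi form in terms of the complex Hessian. -/
theorem sesq_eq_hessian {u : Cn n → ℝ} (hu : ContDiff ℝ 2 u) (z v w : Cn n) :
    sesq u z v w = 4 * ∑ i, ∑ j, v i * (starRingEnd ℂ) (w j) * complexHessian u z i j := by
  conv_lhs => rw [sum_ev v, sum_ev w]
  rw [sesq_sum_left, Finset.mul_sum]
  refine Finset.sum_congr rfl fun i _ => ?_
  rw [sesq_sum_right, Finset.mul_sum]
  refine Finset.sum_congr rfl fun j _ => ?_
  rw [sesq_smul_left, sesq_smul_right, complexHessian_apply hu]
  ring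

/-- The real orthonormal basis `e_a, √-1 e_a` of `ℂⁿ`, as a basis. -/
noncomputable def rb0 (n : ℕ) : Module.Basis (Fin 2 × Fin n) ℝ (Cn n) :=
  Complex.basisOneI.smulTower (PiLp.basisFun 2 ℂ (Fin n))

theorem rb0_zero (a : Fin n) : rb0 n (0, a) = ev a := by
  rw [rb0, Module.Basis.smulTower_apply]
  simp [ev, Complex.coe_basisOneI]

theorem rb0_one (a : Fin n) : rb0 n (1, a) = Complex.I • ev a := by
  rw [rb0, Module.Basis.smulTower_apply]
  simp [ev, Complex.coe_basisOneI]

theorem inner_smul_ev (c d : ℂ) (a b : Fin n) :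
    inner ℝ (c • ev a : Cn n) (d • ev b) = if a = b then (d * (starRingEnd ℂ) c).re else 0 := by
  rw [PiLp.inner_apply]
  have h : ∀ k : Fin n, inner ℝ ((c • ev a : Cn n) k) ((d • ev b : Cn n) k) =
      if k = a then (if a = b then (d * (starRingEnd ℂ) c).re else 0) else 0 := by
    intro k
    rw [Complex.inner]
    simp only [ev, PiLp.smul_apply, smul_eq_mul]
    by_cases hka : k = a
    · subst hka
      by_cases hkb : k = b
      · subst hkb; simp
      · simp [hkb]
    · simp [hka]
  rw [Finset.sum_congr rfl fun k _ => h k, Finset.sum_ite_eq' Finset.univ a]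
  simp

theorem inner_rb0 (p q : Fin 2 × Fin n) :
    inner ℝ (rb0 n p) (rb0 n q) = if p = q then 1 else 0 := by
  have e1 : ∀ a : Fin n, ev a = (1 : ℂ) • ev a := fun a => (one_smul _ _).symm
  obtain ⟨i, a⟩ := p
  obtain ⟨j, b⟩ := q
  fin_cases i <;> fin_cases j <;>
    simp only [Fin.zero_eta, Fin.mk_one, rb0_zero, rb0_one, Prod.mk.injEq, true_and,
      zero_ne_one, one_ne_zero, false_and, if_false]
  · rw [e1 a, e1 b, inner_smul_ev]; simp
  · rw [e1 a, inner_smul_ev]; simp
  · rw [e1 b, inner_smul_ev]; simp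
  · rw [inner_smul_ev]; simp

/-- The real orthonormal basis `e_a, √-1 e_a` of `ℂⁿ`. -/
noncomputable def rb (n : ℕ) : OrthonormalBasis (Fin 2 × Fin n) ℝ (Cn n) :=
  (rb0 n).toOrthonormalBasis (by
    classical
    rw [orthonormal_iff_ite]
    intro i j
    exact inner_rb0 i j)

theorem rb_zero (a : Fin n) : rb n (0, a) = ev a := by
  simp [rb, rb0_zero]

theorem rb_one (a : Fin n) : rb n (1, a) = Complex.I • ev a := by
  simp [rb, rb0_one]

theorem sum_rb (f : Cn n → ℝ) (z : Cn n) (T : Cn n →ₗ[ℂ] Cn n) :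
    ∑ i, D2 f z ((T.restrictScalars ℝ) (rb n i)) ((T.restrictScalars ℝ) (rb n i)) =
      ∑ a, 4 * lev f z (T (ev a)) := by
  rw [Fintype.sum_prod_type]
  simp only [Fin.sum_univ_two, rb_zero, rb_one, LinearMap.coe_restrictScalars, map_smul]
  rw [← Finset.sum_add_distrib]
  refine Finset.sum_congr rfl fun a _ => ?_
  rw [lev]
  ring

/-- The complex linear map whose columns are the conjugates of the columns of `W`. -/
noncomputable def frameMap (W : Matrix (Fin n) (Fin n) ℂ) : Cn n →ₗ[ℂ] Cn n :=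
  Matrix.toLpLin 2 2 (W.map (starRingEnd ℂ))

theorem frameMap_ev (W : Matrix (Fin n) (Fin n) ℂ) (a i : Fin n) :
    frameMap W (ev a) i = (starRingEnd ℂ) (W i a) := by
  rw [frameMap, Matrix.toLpLin_apply]
  simp [ev, Matrix.mulVec_single]

theorem frameMap_apply (W : Matrix (Fin n) (Fin n) ℂ) (h : Cn n) :
    frameMap W h = ∑ a, h a • frameMap W (ev a) := by
  conv_lhs => rw [sum_ev h]
  rw [map_sum]
  refine Finset.sum_congr rfl fun a _ => ?_
  rw [map_smul]

theorem sesq_frame {f : Cn n → ℝ} (hf : ContDiff ℝ 2 f) (z : Cn n)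
    (W : Matrix (Fin n) (Fin n) ℂ) (a b : Fin n) :
    sesq f z (frameMap W (ev a)) (frameMap W (ev b)) =
      4 * (Wᴴ * complexHessian f z * W) a b := by
  rw [sesq_eq_hessian hf, Matrix.mul_apply]
  congr 1
  simp only [frameMap_ev, Matrix.mul_apply, Matrix.conjTranspose_apply, Complex.conj_conj,
    Finset.sum_mul]
  rw [Finset.sum_comm]
  refine Finset.sum_congr rfl fun j _ => Finset.sum_congr rfl fun i _ => ?_
  rw [← starRingEnd_apply]
  ring

theorem sesq_frameMap {f : Cn n → ℝ} (hf : ContDiff ℝ 2 f) (z : Cn n)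
    (W : Matrix (Fin n) (Fin n) ℂ) (hW : Wᴴ * complexHessian f z * W = 1) (h : Cn n) :
    lev f z (frameMap W h) = ‖h‖ ^ 2 := by
  have h1 := sesq_self hf z (frameMap W h)
  have h2 : sesq f z (frameMap W h) (frameMap W h) = ((4 * ‖h‖ ^ 2 : ℝ) : ℂ) := by
    rw [frameMap_apply, sesq_sum_left]
    have h3 : ∀ a, sesq f z (h a • frameMap W (ev a)) (∑ b, h b • frameMap W (ev b)) =
        4 * (h a * (starRingEnd ℂ) (h a)) := by
      intro a
      rw [sesq_smul_left, sesq_sum_right]
      have h4 : ∀ b, sesq f z (frameMap W (ev a)) (h b • frameMap W (ev b)) =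
          if a = b then 4 * (starRingEnd ℂ) (h b) else 0 := by
        intro b
        rw [sesq_smul_right, sesq_frame hf, hW, Matrix.one_apply]
        split_ifs <;> ring
      simp only [h4]
      simp
      ring
    simp only [h3]
    rw [EuclideanSpace.norm_eq, Real.sq_sqrt (Finset.sum_nonneg fun i _ => by positivity)]
    push_cast
    rw [Finset.mul_sum]
    refine Finset.sum_congr rfl fun a _ => ?_
    rw [Complex.mul_conj, Complex.normSq_eq_norm_sq]
    push_cast
    ring
  rw [h1] at h2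
  have h5 : 4 * lev f z (frameMap W h) = 4 * ‖h‖ ^ 2 := by exact_mod_cast h2
  linarith

theorem sum_lev_frame {f : Cn n → ℝ} (hf : ContDiff ℝ 2 f) (z : Cn n)
    (W : Matrix (Fin n) (Fin n) ℂ) :
    ∑ a, lev f z (frameMap W (ev a)) = (Wᴴ * complexHessian f z * W).trace.re := by
  rw [Matrix.trace, Complex.re_sum]
  refine Finset.sum_congr rfl fun a _ => ?_
  have h1 := sesq_self hf z (frameMap W (ev a))
  rw [sesq_frame hf] at h1
  have h2 := congrArg Complex.re h1
  rw [Complex.ofReal_re] at h2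
  simp only [Matrix.diag]
  have h3 : (4 * (Wᴴ * complexHessian f z * W) a a).re =
      4 * ((Wᴴ * complexHessian f z * W) a a).re := by simp
  linarith

theorem det_frameMap (W : Matrix (Fin n) (Fin n) ℂ) :
    LinearMap.det ((frameMap W).restrictScalars ℝ) = ‖W.det‖ ^ 2 := by
  have h0 : LinearMap.det (frameMap W) = (starRingEnd ℂ) W.det := by
    rw [frameMap, Matrix.toLpLin_eq_toLin, LinearMap.det_toLin, RingHom.map_det]
    rfl
  have h1 := LinearMap.det_restrictScalars (R := ℝ) (f := frameMap W)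
  rw [h0, Algebra.norm_complex_apply, Complex.normSq_conj, Complex.normSq_eq_norm_sq] at h1
  exact h1

open scoped MatrixOrder in
theorem exists_frame {G : Matrix (Fin n) (Fin n) ℂ} (hG : G.PosSemidef) (hdet : G.det = 1) :
    ∃ W : Matrix (Fin n) (Fin n) ℂ, Wᴴ * G * W = 1 ∧ ‖W.det‖ = 1 := by
  obtain ⟨B, hB⟩ := CStarAlgebra.nonneg_iff_eq_star_mul_self.mp hG.nonneg
  rw [star_eq_conjTranspose] at hB
  have hBdet : star B.det * B.det = 1 := by
    rw [← hdet, hB, Matrix.det_mul, Matrix.det_conjTranspose]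
  have hunit : IsUnit B.det := isUnit_iff_exists_inv'.2 ⟨_, hBdet⟩
  have hnorm : ‖B.det‖ = 1 := by
    have h1 := congrArg norm hBdet
    rw [norm_mul, norm_star, norm_one] at h1
    nlinarith [norm_nonneg B.det]
  refine ⟨B⁻¹, ?_, ?_⟩
  · rw [hB, Matrix.conjTranspose_nonsing_inv]
    have h2 : IsUnit Bᴴ.det := by
      rw [Matrix.det_conjTranspose]; exact hunit.star
    rw [← Matrix.mul_assoc, Matrix.nonsing_inv_mul _ h2, Matrix.one_mul,
      Matrix.mul_nonsing_inv _ hunit]
  · rw [Matrix.det_nonsing_inv, Ring.inverse_eq_inv', norm_inv, hnorm, inv_one]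

/-- Existence of normalised frames for a solution of the complex Monge-Ampere equation. -/
theorem exists_frame_map {u : Cn n → ℝ} (hu : ContDiff ℝ 2 u)
    (hpsh : ∀ z, (complexHessian u z).PosSemidef) (hdet : ∀ z, (complexHessian u z).det = 1) :
    ∃ T : Cn n → Cn n →ₗ[ℂ] Cn n,
      (∀ z, |LinearMap.det ((T z).restrictScalars ℝ)| = 1) ∧
      (∀ z h, lev u z (T z h) = ‖h‖ ^ 2) ∧
      (∀ z y, (n : ℝ) ≤ ∑ a, lev u y (T z (ev a))) := by
  choose W hW1 hW2 using fun z => exists_frame (hpsh z) (hdet z)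
  refine ⟨fun z => frameMap (W z), fun z => ?_, fun z h => ?_, fun z y => ?_⟩
  · rw [det_frameMap, hW2]; simp
  · exact sesq_frameMap hu z _ (hW1 z) h
  · rw [sum_lev_frame hu]
    rcases Nat.eq_zero_or_pos n with hn | hn
    · subst hn; simp
    have : Nonempty (Fin n) := ⟨⟨0, hn⟩⟩
    have hP : ((W z)ᴴ * complexHessian u y * (W z)).PosSemidef :=
      (hpsh y).conjTranspose_mul_mul_same (W z)
    have h1 := det_le_trace_pow (𝕜 := ℂ) hP
    have h2 : ((W z)ᴴ * complexHessian u y * (W z)).det = 1 := by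
      rw [Matrix.det_mul, Matrix.det_mul, Matrix.det_conjTranspose, hdet y, mul_one]
      have : star (W z).det * (W z).det = ((‖(W z).det‖ ^ 2 : ℝ) : ℂ) := by
        have h5 := Complex.conj_mul' (W z).det
        rw [starRingEnd_apply] at h5
        rw [h5]
        push_cast
        ring
      rw [this, hW2]
      simp
    rw [h2] at h1
    simp only [RCLike.one_re, Fintype.card_fin, RCLike.re_to_complex] at h1
    have hn' : (0 : ℝ) < n := by exact_mod_cast hn
    have h3 : 1 ≤ ((W z)ᴴ * complexHessian u y * (W z)).trace.re / n := by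
      by_contra hcon
      push Not at hcon
      have h4 : 0 ≤ ((W z)ᴴ * complexHessian u y * (W z)).trace.re / n := by
        refine div_nonneg ?_ hn'.le
        have := hP.trace_nonneg
        rw [Complex.nonneg_iff] at this
        exact this.1
      have h6 := pow_lt_one₀ h4 hcon hn.ne'
      linarith
    rw [le_div_iff₀ hn'] at h3
    linarith

end Pool.Agent.MP_ccae28_an
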