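import Pool.Agent.MP_ccae28_an.Uniform

open MeasureTheory Metric Set Filter
open scoped Real Topology ComplexOrder

set_option linter.unusedSectionVars false

namespace Pool.Agent.MP_ccae28_an

variable {n : ℕ}

/-- A Gaussian. -/
noncomputable def gauss (p : ℝ) (c : Cn n) (z : Cn n) : ℝ := Real.exp (-p * ‖z - c‖ ^ 2)

theorem contDiff_gauss (p : ℝ) (c : Cn n) : ContDiff ℝ 2 (gauss p c) := by
  unfold gauss
  apply ContDiff.exp
  exact contDiff_const.mul ((contDiff_id.sub contDiff_const).norm_sq ℝ)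

theorem hasFDerivAt_gauss (p : ℝ) (c z : Cn n) :
    HasFDerivAt (gauss p c) ((-(2 * p) * gauss p c z) • innerSL ℝ (z - c)) z := by
  have h1 : HasFDerivAt (fun y : Cn n => y - c) (ContinuousLinearMap.id ℝ (Cn n)) z :=
    (hasFDerivAt_id z).sub_const c
  have h2 := h1.norm_sq
  have h3 := (h2.const_mul (-p)).exp
  refine h3.congr_fderiv ?_
  ext v
  simp [gauss]
  ring

theorem D2_gauss (p : ℝ) (c z h : Cn n) :
    D2 (gauss p c) z h h =
      gauss p c z * (4 * p ^ 2 * (inner ℝ (z - c) h) ^ 2 - 2 * p * ‖h‖ ^ 2) := by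
  unfold D2
  have h1 : fderiv ℝ (gauss p c) =
      fun y => (-(2 * p) * gauss p c y) • innerSL ℝ (y - c) := by
    funext y
    exact (hasFDerivAt_gauss p c y).fderiv
  have h2 : HasFDerivAt (fun y : Cn n => y - c) (ContinuousLinearMap.id ℝ (Cn n)) z :=
    (hasFDerivAt_id z).sub_const c
  have h3 : HasFDerivAt (fun y : Cn n => (innerSL ℝ : Cn n →L[ℝ] Cn n →L[ℝ] ℝ) (y - c))
      ((innerSL ℝ : Cn n →L[ℝ] Cn n →L[ℝ] ℝ).comp (ContinuousLinearMap.id ℝ (Cn n))) z :=
    (innerSL ℝ : Cn n →L[ℝ] Cn n →L[ℝ] ℝ).hasFDerivAt.comp z h2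
  have h4 := ((hasFDerivAt_gauss p c z).const_mul (-(2 * p))).smul h3
  rw [h1]
  have h5 : fderiv ℝ (fun y => (-(2 * p) * gauss p c y) • (innerSL ℝ : Cn n →L[ℝ] Cn n →L[ℝ] ℝ)
      (y - c)) z = _ := h4.fderiv
  rw [h5]
  simp only [_root_.add_apply, _root_.smul_apply, ContinuousLinearMap.smulRight_apply,
    ContinuousLinearMap.comp_id, smul_eq_mul]
  change -(2 * p) * gauss p c z * inner ℝ h h +
    (-(2 * p) * (-(2 * p) * gauss p c z * inner ℝ (z - c) h)) * inner ℝ (z - c) h = _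
  rw [real_inner_self_eq_norm_sq]
  ring

theorem lev_gauss (p : ℝ) (c z h : Cn n) :
    lev (gauss p c) z h = gauss p c z *
      (p ^ 2 * ((inner ℝ (z - c) h) ^ 2 + (inner ℝ (z - c) (Complex.I • h)) ^ 2) -
        p * ‖h‖ ^ 2) := by
  have h2 : ‖Complex.I • h‖ = ‖h‖ := by rw [norm_smul]; simp
  rw [lev, D2_gauss, D2_gauss, h2]
  ring

theorem ell_gauss (T : Cn n → Cn n →ₗ[ℂ] Cn n) (p : ℝ) (c z : Cn n) :
    ell T (gauss p c) z = gauss p c z *
      (p ^ 2 * (∑ a, ((inner ℝ (z - c) (T z (ev a))) ^ 2 +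
        (inner ℝ (z - c) (Complex.I • T z (ev a))) ^ 2)) - p * ∑ a, ‖T z (ev a)‖ ^ 2) := by
  simp only [ell, lev_gauss]
  rw [← Finset.mul_sum, Finset.sum_sub_distrib, Finset.mul_sum, Finset.mul_sum]

theorem gauss_le_one {p : ℝ} (hp : 0 ≤ p) (c z : Cn n) : gauss p c z ≤ 1 := by
  unfold gauss
  rw [Real.exp_le_one_iff]
  have : 0 ≤ p * ‖z - c‖ ^ 2 := by positivity
  linarith

theorem gauss_pos (p : ℝ) (c z : Cn n) : 0 < gauss p c z := Real.exp_pos _

section

variable {u : Cn n → ℝ} {T : Cn n → Cn n →ₗ[ℂ] Cn n} {Λ : ℝ}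

/-- Growth lemma: a nonnegative supersolution which is at most `t` somewhere near a ball is at
most `K t` on a fixed proportion of the ball. -/
theorem growth (hn : 0 < n) (hT : IsFrame u T) (hΛ : 0 < Λ)
    (hb : ∀ z h : Cn n, lev u z h ≤ Λ * ‖h‖ ^ 2) :
    ∃ K θ : ℝ, 1 ≤ K ∧ 0 < θ ∧ ∀ v : Cn n → ℝ, ContDiff ℝ 2 v → (∀ z, 0 ≤ v z) →
      (∀ z, ell T v z ≤ 0) → ∀ (c : Cn n) (ρ : ℝ), 0 < ρ → ∀ t : ℝ, 0 < t → ∀ y : Cn n,
        dist y c ≤ 5 * ρ → v y ≤ t →
        θ * (volume : Measure (Cn n)).real (closedBall c ρ) ≤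
          (volume : Measure (Cn n)).real {z | z ∈ closedBall c ρ ∧ v z < K * t} := by
  have hn' : (0 : ℝ) < n := by exact_mod_cast hn
  set P₀ : ℝ := n * Λ ^ (2 * n - 1) with hP₀
  have hP₀pos : 0 < P₀ := by positivity
  set p : ℝ := Λ * P₀ with hp
  have hppos : 0 < p := by positivity
  have hexp : 0 < Real.exp (-(25 * p)) - Real.exp (-(36 * p)) := by
    rw [sub_pos, Real.exp_lt_exp]
    linarith
  set A : ℝ := 2 / (Real.exp (-(25 * p)) - Real.exp (-(36 * p))) with hA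
  have hApos : 0 < A := by positivity
  have hA1 : 1 ≤ A := by
    rw [hA, le_div_iff₀ hexp]
    have h1 : Real.exp (-(25 * p)) ≤ 1 := by
      rw [Real.exp_le_one_iff]; linarith
    have h2 := Real.exp_pos (-(36 * p))
    linarith
  refine ⟨A, (n / (24 * A * p * P₀)) ^ (2 * n), hA1, by positivity, ?_⟩
  intro v hv hv0 hvell c ρ hρ t ht y hy hvy
  set g : Cn n → ℝ := gauss (p / ρ ^ 2) c with hg
  have hg2 : ContDiff ℝ 2 g := contDiff_gauss _ _
  have hpρ : 0 < p / ρ ^ 2 := by positivity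
  set φ : Cn n → ℝ := fun z => t * A * g z - t * A * Real.exp (-(36 * p)) with hφ
  have hφ1 : ContDiff ℝ 2 (fun z => t * A * g z) := contDiff_const.mul hg2
  have hφ2 : ContDiff ℝ 2 φ := hφ1.sub contDiff_const
  set Ψ : Cn n → ℝ := fun z => φ z - v z with hΨ
  have hΨ2 : ContDiff ℝ 2 Ψ := hφ2.sub hv
  have hell : ∀ z, ell T Ψ z = t * A * ell T g z - ell T v z := by
    intro z
    rw [hΨ, ell_sub hφ2 hv, hφ, ell_sub hφ1 contDiff_const, ell_const_mul hg2, ell_const]
    ring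
  have hP : ∀ z, ∑ a, ‖T z (ev a)‖ ^ 2 ≤ P₀ := fun z => frame_upper hT hΛ hb z
  have hellg_low : ∀ z, -(p / ρ ^ 2 * P₀) ≤ ell T g z := by
    intro z
    rw [hg, ell_gauss]
    set Q := ∑ a, ((inner ℝ (z - c) (T z (ev a))) ^ 2 +
        (inner ℝ (z - c) (Complex.I • T z (ev a))) ^ 2) with hQ
    have hQ0 : 0 ≤ Q := Finset.sum_nonneg fun a _ => by positivity
    have h1 := gauss_le_one hpρ.le c z
    have h2 := gauss_pos (p / ρ ^ 2) c z
    have h3 : -(p / ρ ^ 2 * P₀) ≤ (p / ρ ^ 2) ^ 2 * Q - p / ρ ^ 2 * ∑ a, ‖T z (ev a)‖ ^ 2 := by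
      have h4 : p / ρ ^ 2 * ∑ a, ‖T z (ev a)‖ ^ 2 ≤ p / ρ ^ 2 * P₀ :=
        mul_le_mul_of_nonneg_left (hP z) hpρ.le
      have h5 : 0 ≤ (p / ρ ^ 2) ^ 2 * Q := by positivity
      linarith
    have h6 : 0 ≤ p / ρ ^ 2 * P₀ := by positivity
    nlinarith
  have hellg_pos : ∀ z, ρ ≤ ‖z - c‖ → 0 ≤ ell T g z := by
    intro z hz
    rw [hg, ell_gauss]
    set Q := ∑ a, ((inner ℝ (z - c) (T z (ev a))) ^ 2 +
        (inner ℝ (z - c) (Complex.I • T z (ev a))) ^ 2) with hQ
    have hlow : ‖z - c‖ ^ 2 ≤ Λ * Q := frame_lower hT hb z (z - c)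
    have h1 : ρ ^ 2 ≤ Λ * Q := (pow_le_pow_left₀ hρ.le hz 2).trans hlow
    refine mul_nonneg (gauss_pos _ _ _).le ?_
    have h2 : p / ρ ^ 2 * ∑ a, ‖T z (ev a)‖ ^ 2 ≤ p / ρ ^ 2 * P₀ :=
      mul_le_mul_of_nonneg_left (hP z) hpρ.le
    have h3 : P₀ ≤ p / ρ ^ 2 * Q := by
      rw [hp, div_mul_eq_mul_div, le_div_iff₀ (by positivity)]
      calc P₀ * ρ ^ 2 ≤ P₀ * (Λ * Q) := mul_le_mul_of_nonneg_left h1 hP₀pos.le
        _ = Λ * P₀ * Q := by ring
    have h4 : p / ρ ^ 2 * P₀ ≤ (p / ρ ^ 2) ^ 2 * Q := by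
      calc p / ρ ^ 2 * P₀ ≤ p / ρ ^ 2 * (p / ρ ^ 2 * Q) := mul_le_mul_of_nonneg_left h3 hpρ.le
        _ = (p / ρ ^ 2) ^ 2 * Q := by ring
    linarith
  have hgle : ∀ z, φ z ≤ A * t := by
    intro z
    have h1 := gauss_le_one hpρ.le c z
    have h2 : 0 ≤ t * A * Real.exp (-(36 * p)) := by positivity
    have h3 : t * A * g z ≤ t * A * 1 := mul_le_mul_of_nonneg_left h1 (by positivity)
    simp only [hφ]
    linarith
  have hφy : 2 * t ≤ φ y := by
    have h1 : Real.exp (-(25 * p)) ≤ g y := by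
      rw [hg, gauss, Real.exp_le_exp]
      have h2 : ‖y - c‖ ^ 2 ≤ 25 * ρ ^ 2 := by
        rw [dist_eq_norm] at hy
        calc ‖y - c‖ ^ 2 ≤ (5 * ρ) ^ 2 := pow_le_pow_left₀ (norm_nonneg _) hy 2
          _ = 25 * ρ ^ 2 := by ring
      have h3 : p / ρ ^ 2 * ‖y - c‖ ^ 2 ≤ p / ρ ^ 2 * (25 * ρ ^ 2) :=
        mul_le_mul_of_nonneg_left h2 hpρ.le
      have h4 : p / ρ ^ 2 * (25 * ρ ^ 2) = 25 * p := by field_simp
      linarith
    have h5 : t * A * (Real.exp (-(25 * p)) - Real.exp (-(36 * p))) = 2 * t := by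
      rw [hA, mul_assoc, div_mul_cancel₀ _ hexp.ne']; ring
    have h6 : t * A * Real.exp (-(25 * p)) ≤ t * A * g y :=
      mul_le_mul_of_nonneg_left h1 (by positivity)
    simp only [hφ]
    linarith
  have hΨy : t ≤ Ψ y := by simp only [hΨ]; linarith
  set S : Set (Cn n) := {z | z ∈ closedBall c ρ ∧ v z < A * t} with hS
  have hSm : MeasurableSet S := by
    have : S = closedBall c ρ ∩ {z | v z < A * t} := by
      ext z; simp only [hS, mem_inter_iff, mem_ofPred_eq]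
    rw [this]
    exact measurableSet_closedBall.inter (isOpen_lt hv.continuous continuous_const).measurableSet
  have hSfin : (volume : Measure (Cn n)) S ≠ ⊤ :=
    ((measure_mono fun z hz => hz.1).trans_lt (measure_closedBall_lt_top (x := c) (r := ρ))).ne
  have hyball : y ∈ ball c (6 * ρ) := by
    rw [mem_ball]
    linarith
  have habp := abp_complex hn hT hΨ2 (Ω := ball c (6 * ρ)) isOpen_ball isBounded_ball hyball
    (d := 12 * ρ) (by positivity)
    (fun x hx => by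
      have h1 : dist x c ≤ 6 * ρ := by
        have := closure_ball_subset_closedBall hx
        rwa [mem_closedBall] at this
      have h2 := dist_triangle x c y
      rw [dist_comm c y] at h2
      linarith)
    (fun x hx => by
      have h1 : dist x c = 6 * ρ := by
        have := frontier_ball_subset_sphere hx
        rwa [mem_sphere] at this
      have h2 : φ x = 0 := by
        have h3 : g x = Real.exp (-(36 * p)) := by
          rw [hg, gauss, ← dist_eq_norm, h1]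
          congr 1
          field_simp
          ring
        simp only [hφ, h3, sub_self]
      simp only [hΨ, h2]
      linarith [hv0 x])
    (by linarith) hSm hSfin (k := t * A * (p / ρ ^ 2 * P₀)) (by positivity)
    (fun x _ _ => by
      rw [hell]
      have h1 := mul_le_mul_of_nonneg_left (hellg_low x) (by positivity : 0 ≤ t * A)
      have h2 := hvell x
      linarith)
    (fun x _ hx' hxS => by
      rw [hell]
      have h2 := hvell x
      have h3 : ρ ≤ ‖x - c‖ := by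
        by_contra hcon
        push Not at hcon
        apply hxS
        refine ⟨by rw [mem_closedBall, dist_eq_norm]; exact hcon.le, ?_⟩
        simp only [hΨ] at hx'
        linarith [hgle x]
      have h4 : 0 ≤ t * A * ell T g x := mul_nonneg (by positivity) (hellg_pos x h3)
      linarith)
  rw [volume_closedBall_real hρ.le]
  have hB := volume_ball_pos (n := n)
  set B := (volume : Measure (Cn n)).real (ball 0 1) with hBdef
  have h1 : (t / (12 * ρ)) ^ (2 * n) * B ≤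
      (2 * (t * A * (p / ρ ^ 2 * P₀)) / n) ^ (2 * n) * (volume : Measure (Cn n)).real S := by
    refine le_trans ?_ habp
    refine mul_le_mul_of_nonneg_right ?_ hB.le
    refine pow_le_pow_left₀ (by positivity) ?_ _
    gcongr
  have hk : 0 < 2 * (t * A * (p / ρ ^ 2 * P₀)) / n := by positivity
  have h2 : (n / (24 * A * p * P₀)) ^ (2 * n) * (ρ ^ (2 * n) * B) =
      (t / (12 * ρ)) ^ (2 * n) * B / (2 * (t * A * (p / ρ ^ 2 * P₀)) / n) ^ (2 * n) := by
    rw [← mul_assoc, ← mul_pow, mul_div_right_comm, ← div_pow]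
    congr 2
    field_simp
    ring
  rw [h2, div_le_iff₀ (by positivity)]
  rw [mul_comm ((volume : Measure (Cn n)).real _)]
  exact h1

end

end Pool.Agent.MP_ccae28_an
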