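import Pool.Agent.MP_ccae28_an.Ink

open MeasureTheory Metric Set Filter
open scoped Real Topology ComplexOrder

set_option linter.unusedSectionVars false

namespace Pool.Agent.MP_ccae28_an

variable {n : ℕ}

section

variable {u : Cn n → ℝ} {T : Cn n → Cn n →ₗ[ℂ] Cn n} {Λ : ℝ}

/-- Weak Harnack inequality, in a qualitative form. -/
theorem avg_le (hn : 0 < n) (hT : IsFrame u T) (hΛ : 0 < Λ)
    (hb : ∀ z h : Cn n, lev u z h ≤ Λ * ‖h‖ ^ 2) :
    ∃ K q : ℝ, 1 ≤ K ∧ 0 ≤ q ∧ q < 1 ∧ ∀ v : Cn n → ℝ, ContDiff ℝ 2 v → (∀ z, 0 ≤ v z) →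
      (∀ z, ell T v z ≤ 0) → ∀ V : ℝ, (∀ z, v z ≤ V) → ∀ (x₁ : Cn n) (t : ℝ), 0 < t → v x₁ ≤ t →
        ∀ (R : ℝ) (k : ℕ), ∫ z in ball x₁ R, v z ≤
          (K ^ k * t + V * q ^ k) * (volume : Measure (Cn n)).real (ball x₁ R) := by
  obtain ⟨K, θ, hK, hθ, hgrow⟩ := growth hn hT hΛ hb
  have hK0 : 0 < K := by linarith
  set θ' : ℝ := min (θ / 5 ^ (2 * n)) (1 / 2) with hθ'
  have hθ'0 : 0 < θ' := lt_min (by positivity) (by norm_num)
  have hθ'1 : θ' ≤ 1 / 2 := min_le_right _ _
  have hθ'2 : θ' ≤ θ / 5 ^ (2 * n) := min_le_left _ _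
  refine ⟨K, 1 - θ', hK, by linarith, by linarith, ?_⟩
  intro v hv hv0 hvell V hV x₁ t ht hx₁ R k
  have hV0 : 0 ≤ V := (hv0 x₁).trans (hV x₁)
  have hm : ∀ k : ℕ, (volume : Measure (Cn n)).real {z | z ∈ ball x₁ R ∧ K ^ k * t < v z} ≤
      (1 - θ') ^ k * (volume : Measure (Cn n)).real (ball x₁ R) := by
    intro k
    induction k with
    | zero =>
      rw [pow_zero, pow_zero, one_mul, one_mul]
      exact measureReal_mono (fun z hz => hz.1) (measure_ball_lt_top (x := x₁) (r := R)).ne
    | succ k ih =>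
      have htk : 0 < K ^ k * t := by positivity
      have hxk : v x₁ ≤ K ^ k * t := by
        have h1 : 1 ≤ K ^ k := one_le_pow₀ hK
        nlinarith
      have h1 := ink hv.continuous hK hθ htk
        (fun c ρ hρ y hy hvy => hgrow v hv hv0 hvell c ρ hρ (K ^ k * t) htk y hy hvy) hxk R
      have e1 : K * (K ^ k * t) = K ^ (k + 1) * t := by ring
      rw [e1] at h1
      refine h1.trans ?_
      calc (1 - θ / 5 ^ (2 * n)) *
            (volume : Measure (Cn n)).real {z | z ∈ ball x₁ R ∧ K ^ k * t < v z}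
          ≤ (1 - θ') * (volume : Measure (Cn n)).real {z | z ∈ ball x₁ R ∧ K ^ k * t < v z} :=
            mul_le_mul_of_nonneg_right (by linarith) measureReal_nonneg
        _ ≤ (1 - θ') * ((1 - θ') ^ k * (volume : Measure (Cn n)).real (ball x₁ R)) :=
            mul_le_mul_of_nonneg_left ih (by linarith)
        _ = (1 - θ') ^ (k + 1) * (volume : Measure (Cn n)).real (ball x₁ R) := by ring
  set A : Set (Cn n) := {z | K ^ k * t < v z} with hA
  have hAm : MeasurableSet A := (isOpen_lt continuous_const hv.continuous).measurableSet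
  have hfin : (volume : Measure (Cn n)) (ball x₁ R) ≠ ⊤ :=
    (measure_ball_lt_top (x := x₁) (r := R)).ne
  have hic : IntegrableOn (fun _ : Cn n => K ^ k * t) (ball x₁ R) volume :=
    integrableOn_const hfin
  have hiA : IntegrableOn (A.indicator fun _ => V) (ball x₁ R) volume :=
    (integrableOn_const hfin).indicator hAm
  have hiv : IntegrableOn v (ball x₁ R) volume :=
    (hv.continuous.continuousOn.integrableOn_compact
      (isCompact_closedBall x₁ R)).mono_set ball_subset_closedBall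
  have h1 : ∫ z in ball x₁ R, v z ≤ ∫ z in ball x₁ R, (K ^ k * t + A.indicator (fun _ => V) z) := by
    refine integral_mono hiv (hic.add hiA) fun z => ?_
    by_cases hz : z ∈ A
    · simp only [indicator_of_mem hz]
      have := hV z
      have : 0 ≤ K ^ k * t := by positivity
      linarith
    · simp only [indicator_of_notMem hz, add_zero]
      exact not_lt.1 hz
  refine h1.trans ?_
  rw [integral_add hic hiA, setIntegral_const, integral_indicator hAm,
    Measure.restrict_restrict hAm, setIntegral_const, smul_eq_mul, smul_eq_mul]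
  have h2 := hm k
  have h3 : A ∩ ball x₁ R = {z | z ∈ ball x₁ R ∧ K ^ k * t < v z} := by
    ext z
    simp only [hA, mem_inter_iff, mem_ofPred_eq]
    exact and_comm
  rw [h3]
  have h4 := mul_le_mul_of_nonneg_right h2 hV0
  linarith

/-- The supremum of the Levi form in a given direction. -/
noncomputable def slev (u : Cn n → ℝ) (h : Cn n) : ℝ := ⨆ z, lev u z h

theorem bddAbove_lev (hb : ∀ z h : Cn n, lev u z h ≤ Λ * ‖h‖ ^ 2) (h : Cn n) :
    BddAbove (range fun z => lev u z h) := ⟨_, by rintro _ ⟨z, rfl⟩; exact hb z h⟩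

theorem lev_le_slev (hb : ∀ z h : Cn n, lev u z h ≤ Λ * ‖h‖ ^ 2) (z h : Cn n) :
    lev u z h ≤ slev u h := le_ciSup (bddAbove_lev hb h) z

theorem exists_lt_lev {h : Cn n} {a : ℝ} (ha : a < slev u h) : ∃ z, a < lev u z h :=
  exists_lt_of_lt_ciSup ha

/-- Around suitable centres the averages of the Levi form are close to the supremum, at all
scales. -/
theorem exists_center (hn : 0 < n) (hu : ContDiff ℝ 2 u)
    (hpsh : ∀ z, (complexHessian u z).PosSemidef) (hT : IsFrame u T) (hΛ : 0 < Λ)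
    (hb : ∀ z h : Cn n, lev u z h ≤ Λ * ‖h‖ ^ 2) (h : Cn n) {ε : ℝ} (hε : 0 < ε) :
    ∃ z₁ : Cn n, ∀ R : ℝ, 0 < R → ∫ z in ball z₁ R, (slev u h - lev u z h) ≤
      ε * (volume : Measure (Cn n)).real (ball z₁ R) := by
  obtain ⟨K, q, hK, hq0, hq1, hmain⟩ := avg_le hn hT hΛ hb
  have hK0 : 0 < K := by linarith
  set S := slev u h with hS
  have hS0 : 0 ≤ S := (lev_nonneg hu hpsh 0 h).trans (lev_le_slev hb 0 h)
  obtain ⟨k, hk⟩ : ∃ k : ℕ, S * q ^ k ≤ ε / 4 := by
    have h1 : Tendsto (fun k : ℕ => S * q ^ k) atTop (𝓝 (S * 0)) :=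
      (tendsto_pow_atTop_nhds_zero_of_lt_one hq0 hq1).const_mul S
    rw [mul_zero] at h1
    obtain ⟨k, hk⟩ := (h1.eventually (gt_mem_nhds (by positivity : 0 < ε / 4))).exists
    exact ⟨k, hk.le⟩
  set δ : ℝ := ε / (8 * K ^ k) with hδ
  have hδ0 : 0 < δ := by positivity
  have hδK : K ^ k * (2 * δ) = ε / 4 := by
    rw [hδ]
    field_simp
    ring
  obtain ⟨z₁, hz₁⟩ := exists_lt_lev (u := u) (h := h) (a := S - δ) (by rw [← hS]; linarith)
  refine ⟨z₁, fun R hR => ?_⟩
  set η : ℝ := min δ (ε / 4) with hη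
  have hη0 : 0 < η := lt_min hδ0 (by positivity)
  have hηδ : η ≤ δ := min_le_left _ _
  have hηε : η ≤ ε / 4 := min_le_right _ _
  have hcont : Continuous fun z => lev u z h := continuous_lev hu h
  -- uniform continuity
  have huc : UniformContinuousOn (fun z => lev u z h) (closedBall z₁ (R + 1)) :=
    (isCompact_closedBall z₁ (R + 1)).uniformContinuousOn_of_continuous hcont.continuousOn
  obtain ⟨r, hr, hunif⟩ := Metric.uniformContinuousOn_iff.1 huc η hη0
  obtain ⟨s, hs0, hs1⟩ : ∃ s : ℝ, 0 < s ∧ s * ‖h‖ < min r 1 := by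
    refine ⟨min r 1 / (‖h‖ + 1), by positivity, ?_⟩
    rw [div_mul_eq_mul_div, div_lt_iff₀ (by positivity)]
    have : 0 < min r 1 := by positivity
    nlinarith [norm_nonneg h]
  have hsr : s * ‖h‖ < r := lt_of_lt_of_le hs1 (min_le_left _ _)
  have hs11 : s * ‖h‖ < 1 := lt_of_lt_of_le hs1 (min_le_right _ _)
  have hnorm : ‖s • h‖ = s * ‖h‖ := by rw [norm_smul, Real.norm_of_nonneg hs0.le]
  have hlevs : ∀ y, lev u y (s • h) = s ^ 2 * lev u y h := by
    intro y
    have e1 : s • h = (s : ℂ) • h := by ext i; simp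
    rw [e1, lev_smul hu]
    simp
  have hclose : ∀ z ∈ ball z₁ R, ∀ y ∈ closedBall z ‖s • h‖, |lev u y h - lev u z h| ≤ η := by
    intro z hz y hy
    rw [mem_closedBall, hnorm] at hy
    rw [mem_ball] at hz
    have hy1 : y ∈ closedBall z₁ (R + 1) := by
      rw [mem_closedBall]
      linarith [dist_triangle y z z₁]
    have hz1 : z ∈ closedBall z₁ (R + 1) := by
      rw [mem_closedBall]
      linarith
    have := hunif y hy1 z hz1 (by linarith)
    rw [Real.dist_eq] at this
    exact this.le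
  set W : Cn n → ℝ := fun z => cavg u (s • h) z - u z with hW
  have hW2 : ContDiff ℝ 2 W := (contDiff_cavg hu (s • h)).sub hu
  have hs2 : 0 < s ^ 2 := by positivity
  have hWup : ∀ z, W z ≤ s ^ 2 * S := fun z =>
    cavg_sub_le hu z (s • h) fun y _ => by
      rw [hlevs]
      exact mul_le_mul_of_nonneg_left (lev_le_slev hb y h) hs2.le
  have hW0 : ∀ z, 0 ≤ W z := fun z =>
    le_cavg_sub hu z (s • h) fun y _ => lev_nonneg hu hpsh y _
  have hWclose_up : ∀ z ∈ ball z₁ R, W z ≤ s ^ 2 * (lev u z h + η) := fun z hz =>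
    cavg_sub_le hu z (s • h) fun y hy => by
      rw [hlevs]
      refine mul_le_mul_of_nonneg_left ?_ hs2.le
      linarith [(abs_le.1 (hclose z hz y hy)).2]
  have hWclose_low : s ^ 2 * (lev u z₁ h - η) ≤ W z₁ :=
    le_cavg_sub hu z₁ (s • h) fun y hy => by
      rw [hlevs]
      refine mul_le_mul_of_nonneg_left ?_ hs2.le
      linarith [(abs_le.1 (hclose z₁ (mem_ball_self hR) y hy)).1]
  set v : Cn n → ℝ := fun z => S - (s ^ 2)⁻¹ * W z with hv
  have hv2' : ContDiff ℝ 2 fun z => (s ^ 2)⁻¹ * W z := contDiff_const.mul hW2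
  have hv2 : ContDiff ℝ 2 v := contDiff_const.sub hv2'
  have hinv : 0 < (s ^ 2)⁻¹ := by positivity
  have hv0 : ∀ z, 0 ≤ v z := by
    intro z
    have h1 := mul_le_mul_of_nonneg_left (hWup z) hinv.le
    rw [inv_mul_cancel_left₀ hs2.ne'] at h1
    simp only [hv]
    linarith
  have hvS : ∀ z, v z ≤ S := by
    intro z
    have h1 := mul_nonneg hinv.le (hW0 z)
    simp only [hv]
    linarith
  have hvell : ∀ z, ell T v z ≤ 0 := by
    intro z
    rw [hv, ell_sub contDiff_const hv2', ell_const, ell_const_mul hW2]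
    have h1 := ell_cavg_sub_nonneg hu hT (s • h) z
    have h2 := mul_nonneg hinv.le h1
    rw [hW]
    linarith
  have hvz₁ : v z₁ ≤ 2 * δ := by
    have h1 := mul_le_mul_of_nonneg_left hWclose_low hinv.le
    rw [inv_mul_cancel_left₀ hs2.ne'] at h1
    simp only [hv]
    linarith
  have hkey := hmain v hv2 hv0 hvell S hvS z₁ (2 * δ) (by linarith) hvz₁ R k
  rw [hδK] at hkey
  have hiv : IntegrableOn v (ball z₁ R) volume :=
    (hv2.continuous.continuousOn.integrableOn_compact
      (isCompact_closedBall z₁ R)).mono_set ball_subset_closedBall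
  have hil : IntegrableOn (fun z => S - lev u z h) (ball z₁ R) volume :=
    ((continuous_const.sub hcont).continuousOn.integrableOn_compact
      (isCompact_closedBall z₁ R)).mono_set ball_subset_closedBall
  have hfin : (volume : Measure (Cn n)) (ball z₁ R) ≠ ⊤ :=
    (measure_ball_lt_top (x := z₁) (r := R)).ne
  have hcomp : ∫ z in ball z₁ R, (S - lev u z h) ≤ ∫ z in ball z₁ R, (v z + η) := by
    refine setIntegral_mono_on hil (hiv.add (integrableOn_const hfin)) measurableSet_ball ?_
    intro z hz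
    have h1 := mul_le_mul_of_nonneg_left (hWclose_up z hz) hinv.le
    rw [inv_mul_cancel_left₀ hs2.ne'] at h1
    simp only [hv]
    linarith
  refine hcomp.trans ?_
  rw [integral_add hiv (integrableOn_const hfin), setIntegral_const, smul_eq_mul]
  have hvol : 0 ≤ (volume : Measure (Cn n)).real (ball z₁ R) := measureReal_nonneg
  have h5 : (ε / 4 + S * q ^ k) * (volume : Measure (Cn n)).real (ball z₁ R) ≤
      (ε / 4 + ε / 4) * (volume : Measure (Cn n)).real (ball z₁ R) :=
    mul_le_mul_of_nonneg_right (by linarith) hvol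
  have h6 : (volume : Measure (Cn n)).real (ball z₁ R) * η ≤
      (volume : Measure (Cn n)).real (ball z₁ R) * (ε / 4) :=
    mul_le_mul_of_nonneg_left hηε hvol
  have h7 : 0 ≤ ε * (volume : Measure (Cn n)).real (ball z₁ R) := by positivity
  linarith

/-- Averages over large balls centred at the origin. -/
theorem eventually_avg (hn : 0 < n) (hu : ContDiff ℝ 2 u)
    (hpsh : ∀ z, (complexHessian u z).PosSemidef) (hT : IsFrame u T) (hΛ : 0 < Λ)
    (hb : ∀ z h : Cn n, lev u z h ≤ Λ * ‖h‖ ^ 2) (h : Cn n) {ε : ℝ} (hε : 0 < ε) :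
    ∀ᶠ R : ℝ in atTop, ∫ z in ball (0 : Cn n) R, (slev u h - lev u z h) ≤
      ε * (volume : Measure (Cn n)).real (ball 0 R) := by
  obtain ⟨z₁, hz₁⟩ := exists_center hn hu hpsh hT hΛ hb h
    (ε := ε / 2 ^ (2 * n)) (by positivity)
  filter_upwards [eventually_ge_atTop ‖z₁‖, eventually_gt_atTop 0] with R hR hR0
  have h1 := hz₁ (2 * R) (by linarith)
  have hsub : ball (0 : Cn n) R ⊆ ball z₁ (2 * R) := by
    intro z hz
    rw [mem_ball] at hz ⊢
    have h3 := dist_triangle z 0 z₁
    have h4 : dist (0 : Cn n) z₁ = ‖z₁‖ := by rw [dist_comm, dist_zero_right]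
    linarith
  have hil : IntegrableOn (fun z => slev u h - lev u z h) (ball z₁ (2 * R)) volume :=
    ((continuous_const.sub (continuous_lev hu h)).continuousOn.integrableOn_compact
      (isCompact_closedBall z₁ (2 * R))).mono_set ball_subset_closedBall
  have h2 : ∫ z in ball (0 : Cn n) R, (slev u h - lev u z h) ≤
      ∫ z in ball z₁ (2 * R), (slev u h - lev u z h) :=
    setIntegral_mono_set hil (Eventually.of_forall fun z => sub_nonneg.2 (lev_le_slev hb z h))
      hsub.eventuallyLE
  refine (h2.trans h1).trans (le_of_eq ?_)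
  have e1 : (volume : Measure (Cn n)).real (ball z₁ (2 * R)) =
      2 ^ (2 * n) * (volume : Measure (Cn n)).real (ball 0 R) := by
    rw [Measure.real, Measure.real, Measure.addHaar_ball_of_pos _ _ (by positivity),
      Measure.addHaar_ball_of_pos _ (0 : Cn n) hR0, finrank_Cn, mul_pow,
      ENNReal.ofReal_mul (by positivity), mul_assoc, ENNReal.toReal_mul,
      ENNReal.toReal_ofReal (by positivity)]
  rw [e1]
  field_simp

/-- Simultaneous approximation of the suprema. -/
theorem exists_close (hn : 0 < n) (hu : ContDiff ℝ 2 u)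
    (hpsh : ∀ z, (complexHessian u z).PosSemidef) (hT : IsFrame u T) (hΛ : 0 < Λ)
    (hb : ∀ z h : Cn n, lev u z h ≤ Λ * ‖h‖ ^ 2) (F : Finset (Cn n)) {ε : ℝ} (hε : 0 < ε) :
    ∃ z : Cn n, ∀ h ∈ F, slev u h - lev u z h ≤ ε := by
  set N : ℝ := F.card + 1 with hN
  have hN0 : 0 < N := by positivity
  have hev : ∀ᶠ R : ℝ in atTop, ∀ h ∈ F, ∫ z in ball (0 : Cn n) R, (slev u h - lev u z h) ≤
      ε / N * (volume : Measure (Cn n)).real (ball 0 R) := by
    rw [eventually_all_finset]
    intro h _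
    exact eventually_avg hn hu hpsh hT hΛ hb h (by positivity)
  obtain ⟨R, hR, hR0⟩ := (hev.and (eventually_gt_atTop 0)).exists
  by_contra hcon
  push Not at hcon
  have hvol : 0 < (volume : Measure (Cn n)).real (ball 0 R) := by
    rw [Measure.real, ENNReal.toReal_pos_iff]
    exact ⟨measure_ball_pos _ _ hR0, measure_ball_lt_top⟩
  have hi : ∀ h, IntegrableOn (fun z => slev u h - lev u z h) (ball (0 : Cn n) R) volume := fun h =>
    ((continuous_const.sub (continuous_lev hu h)).continuousOn.integrableOn_compact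
      (isCompact_closedBall (0 : Cn n) R)).mono_set ball_subset_closedBall
  have h1 : ∫ z in ball (0 : Cn n) R, ∑ h ∈ F, (slev u h - lev u z h) ≤
      F.card * (ε / N * (volume : Measure (Cn n)).real (ball 0 R)) := by
    rw [integral_finsetSum _ fun h _ => hi h]
    refine (Finset.sum_le_sum fun h hh => hR h hh).trans (le_of_eq ?_)
    rw [Finset.sum_const, nsmul_eq_mul]
  have h2 : ∫ z in ball (0 : Cn n) R, ε ≤
      ∫ z in ball (0 : Cn n) R, ∑ h ∈ F, (slev u h - lev u z h) := by
    refine setIntegral_mono_on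
      (integrableOn_const (measure_ball_lt_top (x := (0 : Cn n)) (r := R)).ne)
      (integrable_finsetSum _ fun h _ => hi h) measurableSet_ball ?_
    intro z _
    obtain ⟨h, hh, hlt⟩ := hcon z
    refine hlt.le.trans ?_
    exact Finset.single_le_sum (f := fun h => slev u h - lev u z h)
      (fun h _ => sub_nonneg.2 (lev_le_slev hb z h)) hh
  rw [setIntegral_const, smul_eq_mul] at h2
  have h3 := h2.trans h1
  have h4 : (F.card : ℝ) * (ε / N * (volume : Measure (Cn n)).real (ball 0 R)) =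
      (F.card / N) * ((volume : Measure (Cn n)).real (ball 0 R) * ε) := by
    field_simp
  rw [h4] at h3
  have h5 : (F.card : ℝ) / N < 1 := by
    rw [div_lt_one hN0, hN]
    linarith
  have h6 : 0 < (volume : Measure (Cn n)).real (ball 0 R) * ε := by positivity
  nlinarith

end

end Pool.Agent.MP_ccae28_an
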