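import Pool.Agent.MP_ccae28_an.Growth

open MeasureTheory Metric Set Filter
open scoped Real Topology ComplexOrder

set_option linter.unusedSectionVars false

namespace Pool.Agent.MP_ccae28_an

variable {n : ℕ}

theorem volume_closedBall_five {r : ℝ} (hr : 0 ≤ r) (x : Cn n) :
    (volume : Measure (Cn n)) (closedBall x (5 * r)) =
      ENNReal.ofReal (5 ^ (2 * n)) * (volume : Measure (Cn n)) (closedBall x r) := by
  rw [Measure.addHaar_closedBall _ _ (by positivity), Measure.addHaar_closedBall _ _ hr,
    finrank_Cn, mul_pow, ENNReal.ofReal_mul (by positivity), mul_assoc]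

/-- Ink spots: if every point of the open set `{v > t}` sees the closed set `{v ≤ t}` through a
ball on a fixed proportion of which `v < K t`, the measure of `{v > K t}` is a fixed fraction of
the measure of `{v > t}`. -/
theorem ink {v : Cn n → ℝ} (hv : Continuous v) {K θ t : ℝ} (hK : 1 ≤ K) (hθ : 0 < θ) (ht : 0 < t)
    (hgrow : ∀ (c : Cn n) (ρ : ℝ), 0 < ρ → ∀ y : Cn n,
        dist y c ≤ 5 * ρ → v y ≤ t →
        θ * (volume : Measure (Cn n)).real (closedBall c ρ) ≤
          (volume : Measure (Cn n)).real {z | z ∈ closedBall c ρ ∧ v z < K * t})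
    {x₁ : Cn n} (hx₁ : v x₁ ≤ t) (R : ℝ) :
    (volume : Measure (Cn n)).real {z | z ∈ ball x₁ R ∧ K * t < v z} ≤
      (1 - θ / 5 ^ (2 * n)) * (volume : Measure (Cn n)).real {z | z ∈ ball x₁ R ∧ t < v z} := by
  set F : Set (Cn n) := {z | v z ≤ t} with hF
  have hFc : IsClosed F := isClosed_le hv continuous_const
  have hFn : F.Nonempty := ⟨x₁, hx₁⟩
  set U : Set (Cn n) := {z | z ∈ ball x₁ R ∧ t < v z} with hU
  have hUm : MeasurableSet U := by
    have : U = ball x₁ R ∩ {z | t < v z} := by
      ext z; simp only [hU, mem_inter_iff, mem_ofPred_eq]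
    rw [this]
    exact measurableSet_ball.inter (isOpen_lt continuous_const hv).measurableSet
  have hUfin : (volume : Measure (Cn n)) U ≠ ⊤ :=
    ((measure_mono fun z hz => hz.1).trans_lt (measure_ball_lt_top (x := x₁) (r := R))).ne
  -- the data attached to a point
  set d : Cn n → ℝ := fun y => infDist y F with hd
  set cen : Cn n → Cn n := fun y => y + (d y / 4 / ‖x₁ - y‖) • (x₁ - y) with hcen
  have hdpos : ∀ y ∈ U, 0 < d y := fun y hy =>
    (hFc.notMem_iff_infDist_pos hFn).1 (by
      simp only [hF, mem_ofPred_eq, not_le]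
      exact hy.2)
  have hdle : ∀ y, d y ≤ ‖x₁ - y‖ := fun y => by
    rw [← dist_eq_norm, dist_comm]
    exact infDist_le_dist_of_mem hx₁
  have hdistcen : ∀ y ∈ U, dist (cen y) y = d y / 4 := by
    intro y hy
    have h1 := hdpos y hy
    have h2 := hdle y
    have h3 : 0 < ‖x₁ - y‖ := by linarith
    simp only [hcen]
    rw [dist_eq_norm, add_sub_cancel_left, norm_smul, norm_div, norm_norm,
      Real.norm_of_nonneg (by linarith)]
    field_simp
  have hdistcen' : ∀ y ∈ U, dist (cen y) x₁ = ‖x₁ - y‖ - d y / 4 := by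
    intro y hy
    have h1 := hdpos y hy
    have h2 := hdle y
    have h3 : 0 < ‖x₁ - y‖ := by linarith
    have h4 : cen y - x₁ = (-(1 - d y / 4 / ‖x₁ - y‖)) • (x₁ - y) := by
      simp only [hcen]
      module
    have h5 : d y / 4 / ‖x₁ - y‖ ≤ 1 := by
      rw [div_le_one h3]
      linarith
    rw [dist_eq_norm, h4, norm_smul, norm_neg, Real.norm_of_nonneg (by linarith)]
    field_simp
  have hsub : ∀ y ∈ U, closedBall (cen y) (d y / 4) ⊆ U := by
    intro y hy z hz
    rw [mem_closedBall] at hz
    have h1 := hdpos y hy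
    have h2 := hdistcen y hy
    have h3 := hdistcen' y hy
    have h4 := hy.1
    rw [mem_ball, dist_comm, dist_eq_norm] at h4
    refine ⟨?_, ?_⟩
    · rw [mem_ball]
      linarith [dist_triangle z (cen y) x₁]
    · by_contra hcon
      push Not at hcon
      have h5 : d y ≤ dist y z := infDist_le_dist_of_mem hcon
      have h6 := dist_triangle z (cen y) y
      rw [dist_comm y z] at h5
      linarith
  -- the covering
  obtain ⟨I, hIU, hdisj, hcov⟩ :=
    Vitali.exists_disjoint_subfamily_covering_enlargement_closedBall U cen (fun y => d y / 4)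
      (R / 4) (fun y hy => by
        have h1 := hdle y
        have h4 := hy.1
        rw [mem_ball, dist_comm, dist_eq_norm] at h4
        linarith) 5 (by norm_num)
  have hIc : I.Countable := by
    refine hdisj.countable_of_nonempty_interior fun y hy => ?_
    have h1 := hdpos y (hIU hy)
    refine ((nonempty_ball (x := cen y)).2 (by linarith : 0 < d y / 4)).mono ?_
    exact interior_maximal ball_subset_closedBall isOpen_ball
  have hUsub : U ⊆ ⋃ y ∈ I, closedBall (cen y) (5 * (d y / 4)) := by
    intro y hy
    obtain ⟨b, hb, hbs⟩ := hcov y hy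
    refine mem_iUnion₂.2 ⟨b, hb, hbs ?_⟩
    rw [mem_closedBall, dist_comm, hdistcen y hy]
  set G : Cn n → Set (Cn n) := fun y => {z | z ∈ closedBall (cen y) (d y / 4) ∧ v z < K * t}
    with hG
  have hGm : ∀ y, MeasurableSet (G y) := by
    intro y
    have : G y = closedBall (cen y) (d y / 4) ∩ {z | v z < K * t} := by
      ext z; simp only [hG, mem_inter_iff, mem_ofPred_eq]
    rw [this]
    exact measurableSet_closedBall.inter (isOpen_lt hv continuous_const).measurableSet
  have hGgrow : ∀ y ∈ U, ENNReal.ofReal θ * (volume : Measure (Cn n)) (closedBall (cen y) (d y / 4))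
      ≤ (volume : Measure (Cn n)) (G y) := by
    intro y hy
    have h1 := hdpos y hy
    obtain ⟨y', hy', hdy'⟩ := hFc.exists_infDist_eq_dist hFn y
    have h2 : dist y' (cen y) ≤ 5 * (d y / 4) := by
      have h3 := dist_triangle y' y (cen y)
      have h4 := hdistcen y hy
      rw [dist_comm (cen y) y] at h4
      rw [dist_comm y' y] at h3
      have h5 : dist y y' = d y := hdy'.symm
      linarith
    have h3 := hgrow (cen y) (d y / 4) (by linarith) y' h2 hy'
    have hfinc : (volume : Measure (Cn n)) (closedBall (cen y) (d y / 4)) ≠ ⊤ :=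
      measure_closedBall_lt_top.ne
    have hfinG : (volume : Measure (Cn n)) (G y) ≠ ⊤ :=
      ((measure_mono fun z hz => hz.1).trans_lt
        (measure_closedBall_lt_top (x := cen y) (r := d y / 4))).ne
    rw [← ENNReal.toReal_le_toReal (ENNReal.mul_ne_top ENNReal.ofReal_ne_top hfinc) hfinG,
      ENNReal.toReal_mul, ENNReal.toReal_ofReal hθ.le]
    exact h3
  have hGdisj : I.PairwiseDisjoint G := by
    intro a ha b hb hab
    exact (hdisj ha hb hab).mono (fun z hz => hz.1) (fun z hz => hz.1)
  have hmain : ENNReal.ofReal θ * (volume : Measure (Cn n)) U ≤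
      ENNReal.ofReal (5 ^ (2 * n)) * (volume : Measure (Cn n)) {z | z ∈ U ∧ v z < K * t} := by
    calc ENNReal.ofReal θ * (volume : Measure (Cn n)) U
        ≤ ENNReal.ofReal θ *
          ∑' y : I, (volume : Measure (Cn n)) (closedBall (cen y) (5 * (d y / 4))) := by
          gcongr
          exact (measure_mono hUsub).trans (measure_biUnion_le _ hIc _)
      _ = ∑' y : I, ENNReal.ofReal (5 ^ (2 * n)) *
          (ENNReal.ofReal θ * (volume : Measure (Cn n)) (closedBall (cen y) (d y / 4))) := by
          rw [← ENNReal.tsum_mul_left]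
          refine tsum_congr fun y => ?_
          rw [volume_closedBall_five (by have := hdpos y (hIU y.2); linarith)]
          ring
      _ ≤ ∑' y : I, ENNReal.ofReal (5 ^ (2 * n)) * (volume : Measure (Cn n)) (G y) := by
          refine ENNReal.tsum_le_tsum fun y => ?_
          gcongr
          exact hGgrow y (hIU y.2)
      _ = ENNReal.ofReal (5 ^ (2 * n)) * (volume : Measure (Cn n)) (⋃ y ∈ I, G y) := by
          rw [ENNReal.tsum_mul_left, measure_biUnion hIc hGdisj fun y _ => hGm y]
      _ ≤ _ := by
          gcongr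
          refine iUnion₂_subset fun y hy z hz => ?_
          exact ⟨hsub y (hIU hy) hz.1, hz.2⟩
  -- conclusion
  set V : Set (Cn n) := {z | z ∈ U ∧ v z < K * t} with hV
  have hVfin : (volume : Measure (Cn n)) V ≠ ⊤ :=
    ((measure_mono fun z hz => hz.1).trans_lt hUfin.lt_top).ne
  have hreal : θ * (volume : Measure (Cn n)).real U ≤
      5 ^ (2 * n) * (volume : Measure (Cn n)).real V := by
    have := ENNReal.toReal_mono (ENNReal.mul_ne_top ENNReal.ofReal_ne_top hVfin) hmain
    rwa [ENNReal.toReal_mul, ENNReal.toReal_mul, ENNReal.toReal_ofReal hθ.le,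
      ENNReal.toReal_ofReal (by positivity)] at this
  have hVm : MeasurableSet V := by
    have : V = U ∩ {z | v z < K * t} := by
      ext z; simp only [hV, mem_inter_iff, mem_ofPred_eq]
    rw [this]
    exact hUm.inter (isOpen_lt hv continuous_const).measurableSet
  have hsplit : (volume : Measure (Cn n)).real {z | z ∈ ball x₁ R ∧ K * t < v z} +
      (volume : Measure (Cn n)).real V ≤ (volume : Measure (Cn n)).real U := by
    rw [← measureReal_union (by
      rw [Set.disjoint_left]
      intro z hz hz'
      exact absurd hz.2 (not_lt.2 hz'.2.le)) hVm (by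
        exact ((measure_mono fun z hz => hz.1).trans_lt (measure_ball_lt_top (x := x₁) (r := R))).ne)
        hVfin]
    refine measureReal_mono ?_ hUfin
    intro z hz
    rcases hz with hz | hz
    · refine ⟨hz.1, lt_of_le_of_lt ?_ hz.2⟩
      nlinarith
    · exact hz.1
  have h5 : θ / 5 ^ (2 * n) * (volume : Measure (Cn n)).real U ≤
      (volume : Measure (Cn n)).real V := by
    rw [div_mul_eq_mul_div, div_le_iff₀ (by positivity), mul_comm ((volume : Measure (Cn n)).real V)]
    exact hreal
  linarith

end Pool.Agent.MP_ccae28_an
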