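import Mathlib

open Matrix
open scoped ComplexOrder

namespace Pool.Agent.MP_ccae28_an

/-- The inequality of arithmetic and geometric means, in product form. -/
theorem prod_le_mean_pow {ι : Type*} [Fintype ι] [Nonempty ι] (z : ι → ℝ) (hz : ∀ i, 0 ≤ z i) :
    ∏ i, z i ≤ ((∑ i, z i) / Fintype.card ι) ^ Fintype.card ι := by
  classical
  have hn : (0 : ℝ) < Fintype.card ι := by exact_mod_cast Fintype.card_pos
  have h := Real.geom_mean_le_arith_mean_weighted (Finset.univ : Finset ι)
    (fun _ => (1 : ℝ) / Fintype.card ι) z (fun _ _ => by positivity)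
    (by simp [hn.ne']) (fun i _ => hz i)
  have h2 : (∏ i, z i ^ ((1 : ℝ) / Fintype.card ι)) ^ (Fintype.card ι) = ∏ i, z i := by
    rw [← Finset.prod_pow]
    refine Finset.prod_congr rfl fun i _ => ?_
    rw [← Real.rpow_natCast, ← Real.rpow_mul (hz i)]
    rw [one_div, inv_mul_cancel₀ hn.ne', Real.rpow_one]
  rw [← h2]
  refine pow_le_pow_left₀ (Finset.prod_nonneg fun i _ => Real.rpow_nonneg (hz i) _) ?_ _
  refine h.trans (le_of_eq ?_)
  rw [← Finset.mul_sum]
  ring

/-- The inequality of arithmetic and geometric means for the determinant of a positive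
semidefinite matrix. -/
theorem det_le_trace_pow {ι 𝕜 : Type*} [Fintype ι] [DecidableEq ι] [Nonempty ι] [RCLike 𝕜]
    {P : Matrix ι ι 𝕜} (hP : P.PosSemidef) :
    RCLike.re P.det ≤ (RCLike.re P.trace / Fintype.card ι) ^ Fintype.card ι := by
  have h1 : RCLike.re P.det = ∏ i, hP.1.eigenvalues i := by
    rw [hP.1.det_eq_prod_eigenvalues, ← RCLike.ofReal_prod, RCLike.ofReal_re]
  have h2 : RCLike.re P.trace = ∑ i, hP.1.eigenvalues i := by
    rw [hP.1.trace_eq_sum_eigenvalues, ← RCLike.ofReal_sum, RCLike.ofReal_re]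
  rw [h1, h2]
  exact prod_le_mean_pow _ hP.eigenvalues_nonneg

/-- If `H` is a real negative semidefinite matrix, `T` has determinant of absolute value one and
the trace of `Tᵀ H T` is at least `-k`, then `|det H| ≤ (k / m) ^ m`. -/
theorem abs_det_le_of_frame {ι : Type*} [Fintype ι] [DecidableEq ι] [Nonempty ι]
    {H T : Matrix ι ι ℝ} (hH : (-H).PosSemidef) (hT : |T.det| = 1) {k : ℝ}
    (hk : -k ≤ (Tᵀ * H * T).trace) :
    |H.det| ≤ (k / Fintype.card ι) ^ Fintype.card ι := by
  have hP : (Tᵀ * (-H) * T).PosSemidef := by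
    have := hH.conjTranspose_mul_mul_same T
    simpa [conjTranspose_eq_transpose_of_trivial] using this
  have h1 := det_le_trace_pow (𝕜 := ℝ) hP
  simp only [RCLike.re_to_real] at h1
  have hdet : (Tᵀ * (-H) * T).det = |H.det| := by
    have h2 : 0 ≤ (-H).det := hH.det_nonneg
    have h3 : (-H).det = |H.det| := by
      rw [← abs_of_nonneg h2, det_neg, abs_mul, abs_pow, abs_neg, abs_one, one_pow, one_mul]
    rw [det_mul, det_mul, det_transpose, h3]
    have h4 : T.det * T.det = 1 := by
      rw [← abs_mul_abs_self, hT, one_mul]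
    calc T.det * |H.det| * T.det = (T.det * T.det) * |H.det| := by ring
      _ = |H.det| := by rw [h4, one_mul]
  rw [hdet] at h1
  have htr : (Tᵀ * (-H) * T).trace ≤ k := by
    have : (Tᵀ * (-H) * T) = -(Tᵀ * H * T) := by
      rw [Matrix.mul_neg, Matrix.neg_mul]
    rw [this, trace_neg]
    linarith
  refine h1.trans (pow_le_pow_left₀ (div_nonneg hP.trace_nonneg (Nat.cast_nonneg _)) ?_ _)
  gcongr

end Pool.Agent.MP_ccae28_an
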