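import Pool.Agent.MP_ccae28_an.Const

open MeasureTheory Metric Set Filter
open scoped Real Topology ComplexOrder

set_option linter.unusedSectionVars false

namespace Pool.Agent.MP_ccae28_an

variable {n : ℕ}

/-- Rotation by `e^{iθ}`. -/
noncomputable def rot (n : ℕ) (θ : ℝ) : Cn n ≃ₗᵢ[ℝ] Cn n where
  toLinearEquiv := (LinearEquiv.smulOfNeZero ℂ (Cn n) (eu θ) (by
    rw [← norm_ne_zero_iff, norm_eu]; norm_num)).restrictScalars ℝ
  norm_map' := fun h => norm_eu_smul h θ

theorem rot_apply (θ : ℝ) (h : Cn n) : rot n θ h = eu θ • h := rfl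

theorem setIntegral_rot (f : Cn n → ℝ) (θ R : ℝ) :
    ∫ h in ball (0 : Cn n) R, f (eu θ • h) = ∫ h in ball (0 : Cn n) R, f h := by
  have h1 := (rot n θ).measurePreserving.setIntegral_preimage_emb
    (rot n θ).toHomeomorph.measurableEmbedding f (ball (0 : Cn n) R)
  have h2 : (rot n θ) ⁻¹' ball (0 : Cn n) R = ball (0 : Cn n) R := by
    ext h
    simp [mem_ball, dist_zero_right]
  rw [h2] at h1
  exact h1

theorem integrable_rot {f : Cn n → ℝ} (hf : Continuous f) (z : Cn n) (R : ℝ) :
    Integrable (fun p : Cn n × ℝ => f (z + eu p.2 • p.1))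
      ((volume.restrict (ball (0 : Cn n) R)).prod cm) := by
  obtain ⟨C, hC0, hC⟩ := exists_bound_closedBall hf z R
  have hcont : Continuous fun p : Cn n × ℝ => f (z + eu p.2 • p.1) := by fun_prop
  have hfin : IsFiniteMeasure (volume.restrict (ball (0 : Cn n) R)) :=
    ⟨by rw [Measure.restrict_apply_univ]; exact measure_ball_lt_top⟩
  have hset : ∀ᵐ p ∂((volume.restrict (ball (0 : Cn n) R)).prod cm), p.1 ∈ ball (0 : Cn n) R := by
    have h1 : ∀ᵐ x ∂(volume.restrict (ball (0 : Cn n) R)), x ∈ ball (0 : Cn n) R :=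
      ae_restrict_mem measurableSet_ball
    exact Measure.quasiMeasurePreserving_fst.ae h1
  refine Integrable.mono' (integrable_const C) hcont.aestronglyMeasurable ?_
  filter_upwards [hset] with p hp
  refine hC _ ?_
  rw [mem_closedBall, dist_eq_norm, add_sub_cancel_left, norm_eu_smul]
  rw [mem_ball, dist_zero_right] at hp
  exact hp.le

theorem integral_ball_cavg {f : Cn n → ℝ} (hf : Continuous f) (z : Cn n) (R : ℝ) :
    ∫ h in ball (0 : Cn n) R, cavg f h z = ∫ h in ball (0 : Cn n) R, f (z + h) := by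
  have hint := integrable_rot hf z R
  unfold cavg
  rw [integral_integral_swap (f := fun h θ => f (z + eu θ • h)) hint]
  have h1 : ∀ θ, ∫ h in ball (0 : Cn n) R, f (z + eu θ • h) =
      ∫ h in ball (0 : Cn n) R, f (z + h) := fun θ => setIntegral_rot (fun h => f (z + h)) θ R
  simp only [h1]
  simp

/-- Mean value property up to a constant. -/
def MV (f : Cn n → ℝ) : Prop :=
  ∀ R : ℝ, 0 < R → ∀ z w : Cn n, (f z - f w) * (volume : Measure (Cn n)).real (ball 0 R) =
    (∫ h in ball (0 : Cn n) R, f (z + h)) - ∫ h in ball (0 : Cn n) R, f (w + h)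

theorem integrableOn_add {f : Cn n → ℝ} (hf : Continuous f) (z c : Cn n) (R : ℝ) :
    IntegrableOn (fun h => f (z + h)) (ball c R) volume :=
  ((hf.comp (continuous_const.add continuous_id)).continuousOn.integrableOn_compact
    (isCompact_closedBall c R)).mono_set ball_subset_closedBall

theorem mv_of_lev {u : Cn n → ℝ} (hu : ContDiff ℝ 2 u) {g : Cn n → ℝ}
    (hg : ∀ z h, lev u z h = g h) : MV u := by
  intro R hR z w
  have h1 : ∀ y h, cavg u h y - u y = g h := fun y h =>
    le_antisymm (cavg_sub_le hu y h fun x _ => (hg x h).le)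
      (le_cavg_sub hu y h fun x _ => (hg x h).ge)
  have hi : ∀ y, IntegrableOn (fun h => cavg u h y) (ball (0 : Cn n) R) volume := fun y => by
    have := (integrable_rot hu.continuous y R).integral_prod_left
    exact this
  rw [← integral_ball_cavg hu.continuous, ← integral_ball_cavg hu.continuous,
    ← integral_sub (hi z) (hi w)]
  have h2 : ∀ h, cavg u h z - cavg u h w = u z - u w := fun h => by
    linarith [h1 z h, h1 w h]
  simp only [h2]
  rw [setIntegral_const, smul_eq_mul, mul_comm]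

theorem mv_diff {f : Cn n → ℝ} (hf : Continuous f) (hmv : MV f) (k : Cn n) :
    MV fun z => f (z + k) - f z := by
  intro R hR z w
  have h1 : ∀ y, (∫ h in ball (0 : Cn n) R, (f (y + h + k) - f (y + h))) =
      (∫ h in ball (0 : Cn n) R, f (y + k + h)) - ∫ h in ball (0 : Cn n) R, f (y + h) := by
    intro y
    rw [← integral_sub (integrableOn_add hf (y + k) 0 R) (integrableOn_add hf y 0 R)]
    simp only [add_right_comm]
  rw [h1, h1]
  have h2 := hmv R hR (z + k) (w + k)
  have h3 := hmv R hR z w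
  linarith

/-- The one-sided estimate of a difference. -/
theorem diff_le {f : Cn n → ℝ} (hf : Continuous f) (hmv : MV f) (z k : Cn n) {R M : ℝ}
    (hR : 0 < R) (hM : ∀ y, ‖y - z‖ ≤ R + ‖k‖ → |f y| ≤ M) :
    (f (z + k) - f z) * (volume : Measure (Cn n)).real (ball 0 R) ≤
      2 * M * ((volume : Measure (Cn n)).real (ball 0 (R + ‖k‖)) -
        (volume : Measure (Cn n)).real (ball 0 R)) := by
  rw [hmv R hR]
  have hfin : ∀ (c : Cn n) (r : ℝ), (volume : Measure (Cn n)) (ball c r) ≠ ⊤ := fun c r =>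
    (measure_ball_lt_top (x := c) (r := r)).ne
  -- shift
  have e1 : ∫ h in ball (0 : Cn n) R, f (z + k + h) = ∫ h in ball k R, f (z + h) := by
    have h1 := (measurePreserving_add_left (volume : Measure (Cn n)) k).setIntegral_preimage_emb
      (Homeomorph.addLeft k).measurableEmbedding (fun h => f (z + h)) (ball k R)
    have h2 : (fun x => k + x) ⁻¹' ball k R = ball (0 : Cn n) R := by
      ext h
      simp [mem_ball, dist_eq_norm]
    rw [h2] at h1
    rw [← h1]
    simp only [add_assoc]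
  rw [e1]
  have hvolk : (volume : Measure (Cn n)).real (ball k R) =
      (volume : Measure (Cn n)).real (ball 0 R) := by
    rw [Measure.real, Measure.real, Measure.addHaar_ball_center]
  have hsub : ball k R ⊆ ball (0 : Cn n) (R + ‖k‖) := by
    intro y hy
    rw [mem_ball] at hy ⊢
    have := dist_triangle y k 0
    rw [dist_zero_right k] at this
    linarith
  have hsub2 : ball (0 : Cn n) R ⊆ ball (0 : Cn n) (R + ‖k‖) :=
    ball_subset_ball (by linarith [norm_nonneg k])
  have hbd : ∀ h ∈ ball (0 : Cn n) (R + ‖k‖), |f (z + h)| ≤ M := by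
    intro h hh
    rw [mem_ball, dist_zero_right] at hh
    exact hM _ (by rw [add_sub_cancel_left]; exact hh.le)
  have hiF : ∀ (c : Cn n) (r : ℝ), IntegrableOn (fun h => f (z + h) + M) (ball c r) volume :=
    fun c r => (integrableOn_add hf z c r).add (integrableOn_const (hfin c r))
  have hadd : ∀ (c : Cn n) (r : ℝ), ∫ h in ball c r, (f (z + h) + M) =
      (∫ h in ball c r, f (z + h)) + (volume : Measure (Cn n)).real (ball c r) * M := by
    intro c r
    rw [integral_add (integrableOn_add hf z c r) (integrableOn_const (hfin c r)),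
      setIntegral_const, smul_eq_mul]
  have h1 : ∫ h in ball k R, (f (z + h) + M) ≤
      ∫ h in ball (0 : Cn n) (R + ‖k‖), (f (z + h) + M) := by
    refine setIntegral_mono_set (hiF 0 _) ?_ hsub.eventuallyLE
    rw [EventuallyLE, ae_restrict_iff' measurableSet_ball]
    refine Eventually.of_forall fun h hh => ?_
    have := (abs_le.1 (hbd h hh)).1
    simp only [Pi.zero_apply]
    linarith
  have h2 : ∫ h in ball (0 : Cn n) (R + ‖k‖), (f (z + h) + M) =
      (∫ h in ball (0 : Cn n) R, (f (z + h) + M)) +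
        ∫ h in ball (0 : Cn n) (R + ‖k‖) \ ball (0 : Cn n) R, (f (z + h) + M) := by
    rw [← setIntegral_union disjoint_sdiff_right (measurableSet_ball.diff measurableSet_ball)
      (hiF 0 R) ((hiF 0 (R + ‖k‖)).mono_set sdiff_subset), union_sdiff_cancel hsub2]
  have h3 : ∫ h in ball (0 : Cn n) (R + ‖k‖) \ ball (0 : Cn n) R, (f (z + h) + M) ≤
      ∫ h in ball (0 : Cn n) (R + ‖k‖) \ ball (0 : Cn n) R, 2 * M := by
    refine setIntegral_mono_on ((hiF 0 (R + ‖k‖)).mono_set sdiff_subset)
      (integrableOn_const ((measure_mono sdiff_subset).trans_lt (hfin 0 (R + ‖k‖)).lt_top).ne)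
      (measurableSet_ball.diff measurableSet_ball) ?_
    intro h hh
    have := (abs_le.1 (hbd h hh.1)).2
    linarith
  rw [setIntegral_const, smul_eq_mul, measureReal_sdiff hsub2 measurableSet_ball] at h3
  rw [hadd, hadd, hvolk] at h1
  rw [hadd, hadd] at h2
  linarith

theorem diff_abs_le {f : Cn n → ℝ} (hf : Continuous f) (hmv : MV f) (z k : Cn n) {R M : ℝ}
    (hR : 0 < R) (hM : ∀ y, ‖y - z‖ ≤ R + ‖k‖ → |f y| ≤ M) :
    |f (z + k) - f z| * (volume : Measure (Cn n)).real (ball 0 R) ≤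
      2 * M * ((volume : Measure (Cn n)).real (ball 0 (R + ‖k‖)) -
        (volume : Measure (Cn n)).real (ball 0 R)) := by
  have hmv' : MV fun z => -f z := by
    intro R hR z w
    rw [integral_neg, integral_neg]
    have := hmv R hR z w
    linarith
  have h1 := diff_le hf hmv z k hR hM
  have h2 := diff_le (f := fun z => -f z) hf.neg hmv' z k hR
    (fun y hy => by rw [abs_neg]; exact hM y hy)
  rcases abs_cases (f (z + k) - f z) with ⟨h, _⟩ | ⟨h, _⟩ <;> rw [h]
  · exact h1
  · have e : -(f (z + k) - f z) = -f (z + k) - -f z := by ring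
    rw [e]
    exact h2

theorem bernoulli_aux {x t : ℝ} (hx : 0 ≤ x) (ht : 0 ≤ t) (ht1 : t ≤ 1) (N : ℕ) :
    (1 + t * x) ^ N ≤ 1 + t * ((1 + x) ^ N - 1) := by
  induction N with
  | zero => simp
  | succ N ih =>
    have h1 : 1 ≤ (1 + x) ^ N := one_le_pow₀ (by linarith)
    set a := (1 + x) ^ N - 1 with ha
    have ha0 : 0 ≤ a := by linarith
    have e1 : (1 + x) ^ (N + 1) - 1 = a + x + a * x := by
      rw [pow_succ, ha]
      ring
    rw [e1, pow_succ]
    have h2 : (1 + t * x) ^ N * (1 + t * x) ≤ (1 + t * a) * (1 + t * x) :=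
      mul_le_mul_of_nonneg_right ih (by positivity)
    refine h2.trans ?_
    have h3 : t * t * (a * x) ≤ t * (a * x) := by
      have : t * t ≤ t := by nlinarith
      exact mul_le_mul_of_nonneg_right this (by positivity)
    nlinarith

theorem diff_abs_le' {f : Cn n → ℝ} (hf : Continuous f) (hmv : MV f) (z k : Cn n) {R M : ℝ}
    (hR : 1 ≤ R) (hM : ∀ y, ‖y - z‖ ≤ R + ‖k‖ → |f y| ≤ M) :
    |f (z + k) - f z| ≤ 2 * M * ((1 + ‖k‖) ^ (2 * n) - 1) / R := by
  have hR0 : 0 < R := by linarith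
  have h1 := diff_abs_le hf hmv z k hR0 hM
  have hB := volume_ball_pos (n := n)
  set B := (volume : Measure (Cn n)).real (ball 0 1) with hBdef
  have hvol : ∀ r : ℝ, 0 < r → (volume : Measure (Cn n)).real (ball 0 r) = r ^ (2 * n) * B := by
    intro r hr
    rw [Measure.real, Measure.addHaar_ball_of_pos _ _ hr, finrank_Cn, ENNReal.toReal_mul,
      ENNReal.toReal_ofReal (by positivity)]
    rfl
  have hM0 : 0 ≤ M := (abs_nonneg _).trans (hM z (by simp; positivity))
  rw [hvol R hR0, hvol (R + ‖k‖) (by positivity)] at h1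
  have h2 : (R + ‖k‖) ^ (2 * n) = R ^ (2 * n) * (1 + R⁻¹ * ‖k‖) ^ (2 * n) := by
    rw [← mul_pow]
    congr 1
    field_simp
  have h3 := bernoulli_aux (norm_nonneg k) (inv_nonneg.2 hR0.le) (inv_le_one_of_one_le₀ hR) (2 * n)
  have hRB : 0 < R ^ (2 * n) * B := by positivity
  have h4 : |f (z + k) - f z| * (R ^ (2 * n) * B) ≤
      2 * M * ((1 + ‖k‖) ^ (2 * n) - 1) / R * (R ^ (2 * n) * B) := by
    refine h1.trans ?_
    rw [h2]
    have h5 : R ^ (2 * n) * (1 + R⁻¹ * ‖k‖) ^ (2 * n) * B - R ^ (2 * n) * B =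
        ((1 + R⁻¹ * ‖k‖) ^ (2 * n) - 1) * (R ^ (2 * n) * B) := by ring
    rw [h5, ← mul_assoc]
    refine mul_le_mul_of_nonneg_right ?_ hRB.le
    have h6 : (1 + R⁻¹ * ‖k‖) ^ (2 * n) - 1 ≤ R⁻¹ * ((1 + ‖k‖) ^ (2 * n) - 1) := by linarith
    have h7 := mul_le_mul_of_nonneg_left h6 (by positivity : 0 ≤ 2 * M)
    refine h7.trans (le_of_eq ?_)
    field_simp
  exact le_of_mul_le_mul_right h4 hRB

/-- Polynomial growth of order `m`. -/
def Gro (m : ℕ) (f : Cn n → ℝ) : Prop := ∃ C : ℝ, 0 ≤ C ∧ ∀ z, |f z| ≤ C * (1 + ‖z‖) ^ m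

theorem gro_diff {f : Cn n → ℝ} (hf : Continuous f) (hmv : MV f) {m : ℕ} (hg : Gro (m + 1) f)
    (k : Cn n) : Gro m fun z => f (z + k) - f z := by
  obtain ⟨C, hC0, hC⟩ := hg
  refine ⟨2 * (C * (2 + ‖k‖) ^ (m + 1)) * ((1 + ‖k‖) ^ (2 * n) - 1), ?_, fun z => ?_⟩
  · have : 1 ≤ (1 + ‖k‖) ^ (2 * n) := one_le_pow₀ (by linarith [norm_nonneg k])
    have : 0 ≤ (1 + ‖k‖) ^ (2 * n) - 1 := by linarith
    positivity
  · have hz := norm_nonneg z
    have hk := norm_nonneg k
    have h1 := diff_abs_le' hf hmv z k (R := 1 + ‖z‖)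
      (M := C * ((2 + ‖k‖) * (1 + ‖z‖)) ^ (m + 1)) (by linarith) (fun y hy => by
        refine (hC y).trans (mul_le_mul_of_nonneg_left ?_ hC0)
        refine pow_le_pow_left₀ (by positivity) ?_ _
        have h2 : ‖y‖ ≤ ‖y - z‖ + ‖z‖ := by
          have := norm_add_le (y - z) z
          rwa [sub_add_cancel] at this
        nlinarith)
    refine h1.trans (le_of_eq ?_)
    have hpos : (1 + ‖z‖) ≠ 0 := by positivity
    rw [mul_pow, div_eq_iff hpos]
    ring

theorem diff_eq_zero {f : Cn n → ℝ} (hf : Continuous f) (hmv : MV f) (hg : Gro 0 f)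
    (k z : Cn n) : f (z + k) = f z := by
  obtain ⟨C, hC0, hC⟩ := hg
  have h1 : ∀ R : ℝ, 1 ≤ R → |f (z + k) - f z| ≤ 2 * C * ((1 + ‖k‖) ^ (2 * n) - 1) / R :=
    fun R hR => diff_abs_le' hf hmv z k hR (fun y _ => by simpa using hC y)
  have h2 : Tendsto (fun R : ℝ => 2 * C * ((1 + ‖k‖) ^ (2 * n) - 1) / R) atTop (𝓝 0) :=
    tendsto_const_nhds.div_atTop tendsto_id
  have h3 : |f (z + k) - f z| ≤ 0 :=
    ge_of_tendsto h2 ((eventually_ge_atTop 1).mono fun R hR => h1 R hR)
  have h4 := abs_nonpos_iff.1 h3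
  linarith

theorem third_diff {u : Cn n → ℝ} (hu : Continuous u) (hmv : MV u) (hg : Gro 2 u)
    (x a b : Cn n) : u (x + b + a) - u (x + b) - (u (x + a) - u x) =
      u (0 + b + a) - u (0 + b) - (u (0 + a) - u 0) := by
  have hc1 : Continuous fun z => u (z + a) - u z :=
    (hu.comp (continuous_id.add continuous_const)).sub hu
  have hc2 : Continuous fun z => (u (z + b + a) - u (z + b)) - (u (z + a) - u z) :=
    (hc1.comp (continuous_id.add continuous_const)).sub hc1
  have h1 := mv_diff hu hmv a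
  have h2 := mv_diff hc1 h1 b
  have g1 := gro_diff hu hmv hg a
  have g2 := gro_diff hc1 h1 g1 b
  have h3 := diff_eq_zero hc2 h2 g2 x 0
  simp only [zero_add] at h3 ⊢
  exact h3

theorem D2_const_of_third {u : Cn n → ℝ} (hu : ContDiff ℝ 2 u)
    (h3 : ∀ x a b : Cn n, u (x + b + a) - u (x + b) - (u (x + a) - u x) =
      u (0 + b + a) - u (0 + b) - (u (0 + a) - u 0)) (x : Cn n) :
    fderiv ℝ (fderiv ℝ u) x = fderiv ℝ (fderiv ℝ u) 0 := by
  have hd : ∀ y, HasFDerivAt u (fderiv ℝ u y) y := fun y =>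
    (hu.differentiable (by norm_num) y).hasFDerivAt
  have hshift : ∀ c : Cn n, HasFDerivAt (fun a => u (c + a)) (fderiv ℝ u c) 0 := by
    intro c
    have h1 : HasFDerivAt (fun a : Cn n => c + a) (ContinuousLinearMap.id ℝ (Cn n)) 0 :=
      (hasFDerivAt_id 0).const_add c
    have h2 := hd c
    have h4 : HasFDerivAt u (fderiv ℝ u c) ((fun a : Cn n => c + a) 0) := by
      simpa using h2
    have h5 := h4.comp (0 : Cn n) h1
    rw [ContinuousLinearMap.comp_id] at h5
    exact h5
  have h1 : ∀ y b, fderiv ℝ u (y + b) - fderiv ℝ u y = fderiv ℝ u (0 + b) - fderiv ℝ u 0 := by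
    intro y b
    have e1 : ∀ y, HasFDerivAt (fun a => u (y + b + a) - u (y + b) - (u (y + a) - u y))
        (fderiv ℝ u (y + b) - fderiv ℝ u y) 0 := fun y =>
      ((hshift (y + b)).sub_const _).sub ((hshift y).sub_const _)
    have e2 : (fun a => u (y + b + a) - u (y + b) - (u (y + a) - u y)) =
        fun a => u (0 + b + a) - u (0 + b) - (u (0 + a) - u 0) := by
      funext a
      exact h3 y a b
    have e3 := e1 y
    rw [e2] at e3
    exact e3.unique (e1 0)
  have hd2 : ∀ y, HasFDerivAt (fderiv ℝ u) (fderiv ℝ (fderiv ℝ u) y) y := fun y =>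
    (differentiable_fderiv hu y).hasFDerivAt
  have hshift2 : ∀ c : Cn n, HasFDerivAt (fun a => fderiv ℝ u (c + a))
      (fderiv ℝ (fderiv ℝ u) c) 0 := by
    intro c
    have h1 : HasFDerivAt (fun a : Cn n => c + a) (ContinuousLinearMap.id ℝ (Cn n)) 0 :=
      (hasFDerivAt_id 0).const_add c
    have h4 : HasFDerivAt (fderiv ℝ u) (fderiv ℝ (fderiv ℝ u) c) ((fun a : Cn n => c + a) 0) := by
      simpa using hd2 c
    have h5 := h4.comp (0 : Cn n) h1
    rw [ContinuousLinearMap.comp_id] at h5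
    exact h5
  have e1 : ∀ y, HasFDerivAt (fun b => fderiv ℝ u (y + b) - fderiv ℝ u y)
      (fderiv ℝ (fderiv ℝ u) y) 0 := fun y => (hshift2 y).sub_const _
  have e2 : (fun b => fderiv ℝ u (x + b) - fderiv ℝ u x) =
      fun b => fderiv ℝ u (0 + b) - fderiv ℝ u 0 := by
    funext b
    exact h1 x b
  have e3 := e1 x
  rw [e2] at e3
  exact e3.unique (e1 0)

/-- A `C²` function with constant second derivative is a quadratic polynomial. -/
theorem eq_taylor {u : Cn n → ℝ} (hu : ContDiff ℝ 2 u)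
    (hc : ∀ x, fderiv ℝ (fderiv ℝ u) x = fderiv ℝ (fderiv ℝ u) 0) (x : Cn n) :
    u x = u 0 + fderiv ℝ u 0 x + (1 / 2) * D2 u 0 x x := by
  set L := fderiv ℝ (fderiv ℝ u) 0 with hL
  set A := fderiv ℝ u 0 with hA
  have hd2 : ∀ y, HasFDerivAt (fderiv ℝ u) L y := fun y => by
    rw [← hc y]
    exact (differentiable_fderiv hu y).hasFDerivAt
  have h1 : ∀ y, fderiv ℝ u y = A + L y := by
    have e1 : ∀ y, HasFDerivAt (fun y => fderiv ℝ u y - L y) (0 : Cn n →L[ℝ] (Cn n →L[ℝ] ℝ)) y := by
      intro y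
      have := (hd2 y).sub L.hasFDerivAt
      rwa [sub_self] at this
    intro y
    have e2 := is_const_of_fderiv_eq_zero (𝕜 := ℝ) (f := fun y => fderiv ℝ u y - L y)
      (fun y => (e1 y).differentiableAt) (fun y => (e1 y).fderiv) y 0
    simp only [map_zero, sub_zero] at e2
    rw [← hA] at e2
    rw [← e2]
    abel
  have hsymm : ∀ v w, L v w = L w v := fun v w => D2_symm hu 0 v w
  have e1 : ∀ y, HasFDerivAt (fun y => u y - (A y + (1 / 2) * L y y)) (0 : Cn n →L[ℝ] ℝ) y := by
    intro y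
    have f1 : HasFDerivAt u (A + L y) y := by
      rw [← h1 y]
      exact (hu.differentiable (by norm_num) y).hasFDerivAt
    have f2 : HasFDerivAt (fun y => L y y) (L.flip y + L y) y := by
      have f3 := (L.hasFDerivAt (x := y)).clm_apply (hasFDerivAt_id y)
      refine f3.congr_fderiv ?_
      ext v
      simp [add_comm]
    have f4 := f1.sub ((A.hasFDerivAt (x := y)).add (f2.const_mul (1 / 2 : ℝ)))
    refine f4.congr_fderiv ?_
    ext v
    have := hsymm v y
    simp only [_root_.sub_apply, _root_.add_apply, _root_.smul_apply,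
      ContinuousLinearMap.flip_apply, smul_eq_mul, _root_.zero_apply]
    rw [this]
    ring
  have e2 := is_const_of_fderiv_eq_zero (𝕜 := ℝ) (f := fun y => u y - (A y + (1 / 2) * L y y))
    (fun y => (e1 y).differentiableAt) (fun y => (e1 y).fderiv) x 0
  simp only [map_zero, mul_zero, add_zero, sub_zero] at e2
  have e3 : D2 u 0 x x = L x x := rfl
  rw [e3]
  linarith

/-- The real coordinate vectors. -/
noncomputable def rv (s : Fin n ⊕ Fin n) : Cn n := Sum.elim (fun i => ev i) (fun i => Complex.I • ev i) s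

/-- The real coordinates. -/
noncomputable def rc (z : Cn n) (s : Fin n ⊕ Fin n) : ℝ :=
  Sum.elim (fun i => (z i).re) (fun i => (z i).im) s

theorem eq_sum_rv (z : Cn n) : z = ∑ s, rc z s • rv s := by
  rw [Fintype.sum_sum_type]
  simp only [rc, rv, Sum.elim_inl, Sum.elim_inr]
  rw [← Finset.sum_add_distrib]
  conv_lhs => rw [sum_ev z]
  refine Finset.sum_congr rfl fun i _ => ?_
  rw [csmul_eq]

theorem isQuadratic_of_taylor {u : Cn n → ℝ} {a : ℝ} {A : Cn n →L[ℝ] ℝ}
    {L : Cn n →L[ℝ] Cn n →L[ℝ] ℝ} (h : ∀ x, u x = a + A x + (1 / 2) * L x x) :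
    IsQuadratic u := by
  refine ⟨MvPolynomial.C a + ∑ s, MvPolynomial.C (A (rv s)) * MvPolynomial.X s +
    ∑ s, ∑ t, MvPolynomial.C ((1 / 2) * L (rv s) (rv t)) *
      (MvPolynomial.X s * MvPolynomial.X t), ?_, fun z => ?_⟩
  · refine (MvPolynomial.totalDegree_add _ _).trans (max_le ?_ ?_)
    · refine (MvPolynomial.totalDegree_add _ _).trans (max_le ?_ ?_)
      · simp
      · refine MvPolynomial.totalDegree_finsetSum_le fun s _ => ?_
        refine (MvPolynomial.totalDegree_mul _ _).trans ?_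
        simp
    · refine MvPolynomial.totalDegree_finsetSum_le fun s _ => ?_
      refine MvPolynomial.totalDegree_finsetSum_le fun t _ => ?_
      refine (MvPolynomial.totalDegree_mul _ _).trans ?_
      have := MvPolynomial.totalDegree_mul (MvPolynomial.X s : MvPolynomial (Fin n ⊕ Fin n) ℝ)
        (MvPolynomial.X t)
      simp only [MvPolynomial.totalDegree_C, MvPolynomial.totalDegree_X] at this ⊢
      omega
  · rw [h z]
    simp only [map_add, map_sum, map_mul, MvPolynomial.eval_C, MvPolynomial.eval_X]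
    have e1 : A z = ∑ s, A (rv s) * rc z s := by
      conv_lhs => rw [eq_sum_rv z]
      rw [map_sum]
      refine Finset.sum_congr rfl fun s _ => ?_
      rw [map_smul, smul_eq_mul, mul_comm]
    have e3 : ∀ x y : Cn n, L x y = ∑ s, rc x s * L (rv s) y := by
      intro x y
      conv_lhs => rw [eq_sum_rv x]
      rw [map_sum, _root_.sum_apply]
      refine Finset.sum_congr rfl fun s _ => ?_
      rw [map_smul, _root_.smul_apply, smul_eq_mul]
    have e2 : L z z = ∑ s, ∑ t, L (rv s) (rv t) * (rc z s * rc z t) := by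
      rw [e3 z z]
      refine Finset.sum_congr rfl fun s _ => ?_
      conv_lhs => rw [eq_sum_rv z]
      rw [map_sum, Finset.mul_sum]
      refine Finset.sum_congr rfl fun t _ => ?_
      rw [map_smul, smul_eq_mul, ← eq_sum_rv z]
      ring
    rw [e1, e2, Finset.mul_sum]
    congr 1
    refine Finset.sum_congr rfl fun s _ => ?_
    rw [Finset.mul_sum]
    refine Finset.sum_congr rfl fun t _ => ?_
    simp only [rc]
    ring

end Pool.Agent.MP_ccae28_an
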