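import Pool.Agent.MP_ccae28_an.Ellip

open MeasureTheory Metric Set Filter
open scoped Real Topology ComplexOrder

set_option linter.unusedSectionVars false

namespace Pool.Agent.MP_ccae28_an

variable {n : ℕ}

/-- The growth and positivity hypotheses on the solution. -/
structure IsSol (u : Cn n → ℝ) (c C : ℝ) : Prop where
  hn : 0 < n
  hu : ContDiff ℝ 2 u
  psh : ∀ z, (complexHessian u z).PosSemidef
  hc : 0 < c
  lower : ∀ z, c * (1 + ‖z‖ ^ 2) ≤ u z
  upper : ∀ z, u z ≤ C * (1 + ‖z‖ ^ 2)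

section

variable {u : Cn n → ℝ} {T : Cn n → Cn n →ₗ[ℂ] Cn n} {c C : ℝ}

theorem IsSol.c_le_C (hs : IsSol u c C) : c ≤ C := by
  have h1 := hs.lower 0
  have h2 := hs.upper 0
  simp only [norm_zero, ne_eq, OfNat.ofNat_ne_zero, not_false_eq_true, zero_pow, add_zero,
    mul_one] at h1 h2
  linarith

theorem IsSol.C_pos (hs : IsSol u c C) : 0 < C := hs.hc.trans_le hs.c_le_C

theorem IsSol.u_pos (hs : IsSol u c C) (z : Cn n) : 0 < u z := by
  have h1 := hs.lower z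
  have h2 : 0 < c * (1 + ‖z‖ ^ 2) := mul_pos hs.hc (by positivity)
  linarith

theorem IsSol.w_nonneg (hs : IsSol u c C) (h z : Cn n) : 0 ≤ cavg u h z - u z :=
  le_cavg_sub hs.hu z h fun y _ => lev_nonneg hs.hu hs.psh y h

theorem IsSol.apriori (hs : IsSol u c C) (h z : Cn n) :
    cavg u h z - u z ≤ C * (1 + 2 * ‖z‖ ^ 2 + 2 * ‖h‖ ^ 2) := by
  have hC := hs.C_pos
  have h1 : cavg u h z ≤ cavg (fun _ => C * (1 + 2 * ‖z‖ ^ 2 + 2 * ‖h‖ ^ 2)) h z := by
    refine cavg_mono hs.hu.continuous continuous_const h z fun y hy => ?_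
    refine (hs.upper y).trans (mul_le_mul_of_nonneg_left ?_ hC.le)
    have h2 : ‖y‖ ≤ ‖z‖ + ‖h‖ := by
      have := norm_add_le (y - z) z
      rw [sub_add_cancel] at this
      linarith
    have h3 : ‖y‖ ^ 2 ≤ (‖z‖ + ‖h‖) ^ 2 := pow_le_pow_left₀ (norm_nonneg _) h2 2
    nlinarith [sq_nonneg (‖z‖ - ‖h‖)]
  rw [cavg_const] at h1
  linarith [hs.u_pos z]

theorem finrank_Cn : Module.finrank ℝ (Cn n) = 2 * n := by
  rw [Module.finrank_eq_card_basis (rb0 n)]
  simp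

theorem volume_closedBall_real {r : ℝ} (hr : 0 ≤ r) (x : Cn n) :
    (volume : Measure (Cn n)).real (closedBall x r) =
      r ^ (2 * n) * (volume : Measure (Cn n)).real (ball 0 1) := by
  rw [Measure.real, Measure.addHaar_closedBall _ _ hr, finrank_Cn, ENNReal.toReal_mul,
    ENNReal.toReal_ofReal (by positivity)]
  rfl

theorem volume_ball_pos : 0 < (volume : Measure (Cn n)).real (ball 0 1) := by
  rw [Measure.real, ENNReal.toReal_pos_iff]
  exact ⟨measure_ball_pos _ _ zero_lt_one, measure_ball_lt_top⟩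

/-- The measure of the set where `w = cavg u h - u` is large. -/
theorem IsSol.measure_le (hs : IsSol u c C) {ρ : ℝ} (hρ : 1 ≤ ρ) {h : Cn n} (hh : ‖h‖ ≤ ρ)
    {κ : ℝ} (hκ : 0 < κ) {S : Set (Cn n)}
    (hS : ∀ z ∈ S, ‖z‖ ≤ ρ ∧ κ ≤ cavg u h z - u z) :
    (volume : Measure (Cn n)).real S ≤
      490 * C * ‖h‖ ^ 2 * 9 ^ n * ρ ^ (2 * n) * (volume : Measure (Cn n)).real (ball 0 1) / κ := by
  have hρ0 : 0 < ρ := by linarith
  have hC := hs.C_pos
  have hu0 : ∀ z, 0 ≤ u z := fun z => (hs.u_pos z).le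
  have hcw : Continuous fun z => cavg u h z - u z :=
    (continuous_cavg hs.hu.continuous h).sub hs.hu.continuous
  have h1 := integral_eta_mul_le hs.hu.continuous hu0 hρ0 hh (K := 10 * C * ρ ^ 2)
    (fun z hz => by
      rw [mem_closedBall, dist_eq_norm, sub_zero] at hz
      refine (hs.upper z).trans ?_
      have h2 : ‖z‖ ^ 2 ≤ (3 * ρ) ^ 2 := pow_le_pow_left₀ (norm_nonneg _) hz 2
      have h3 : 1 + ‖z‖ ^ 2 ≤ 10 * ρ ^ 2 := by nlinarith
      calc C * (1 + ‖z‖ ^ 2) ≤ C * (10 * ρ ^ 2) := mul_le_mul_of_nonneg_left h3 hC.le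
        _ = 10 * C * ρ ^ 2 := by ring)
  rw [volume_closedBall_real (by positivity)] at h1
  have hint : Integrable (fun z => eta ρ z * (cavg u h z - u z)) (volume : Measure (Cn n)) :=
    integrable_eta_mul hcw hρ0
  have h2 := mul_meas_ge_le_integral_of_nonneg (μ := (volume : Measure (Cn n)))
    (Eventually.of_forall fun z => mul_nonneg (eta_nonneg ρ z) (hs.w_nonneg h z)) hint κ
  have hsub : S ⊆ {z | κ ≤ eta ρ z * (cavg u h z - u z)} := by
    intro z hz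
    have h3 := hS z hz
    have h4 := one_le_eta hρ0 h3.1
    have h5 : 0 ≤ cavg u h z - u z := hs.w_nonneg h z
    change κ ≤ eta ρ z * (cavg u h z - u z)
    nlinarith
  have hfin : (volume : Measure (Cn n)) {z | κ ≤ eta ρ z * (cavg u h z - u z)} ≠ ⊤ := by
    have h5 : {z | κ ≤ eta ρ z * (cavg u h z - u z)} ⊆ closedBall (0 : Cn n) (2 * ρ) := by
      intro z hz
      rw [mem_closedBall, dist_eq_norm, sub_zero]
      by_contra hcon
      push Not at hcon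
      have hz' : κ ≤ eta ρ z * (cavg u h z - u z) := hz
      rw [eta_eq_zero hρ0 hcon.le, zero_mul] at hz'
      linarith
    exact ((measure_mono h5).trans_lt measure_closedBall_lt_top).ne
  have h6 : (volume : Measure (Cn n)).real S ≤
      (volume : Measure (Cn n)).real {z | κ ≤ eta ρ z * (cavg u h z - u z)} :=
    ENNReal.toReal_mono hfin (measure_mono hsub)
  rw [le_div_iff₀ hκ]
  calc (volume : Measure (Cn n)).real S * κ ≤
        (volume : Measure (Cn n)).real {z | κ ≤ eta ρ z * (cavg u h z - u z)} * κ :=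
        mul_le_mul_of_nonneg_right h6 hκ.le
    _ = κ * (volume : Measure (Cn n)).real {z | κ ≤ eta ρ z * (cavg u h z - u z)} := mul_comm _ _
    _ ≤ ∫ z, eta ρ z * (cavg u h z - u z) := h2
    _ ≤ _ := h1
    _ = 490 * C * ‖h‖ ^ 2 * 9 ^ n * ρ ^ (2 * n) * (volume : Measure (Cn n)).real (ball 0 1) := by
        rw [mul_pow, pow_mul 3 2 n]
        norm_num
        field_simp
        ring

/-- The barrier estimate. -/
theorem IsSol.barrier (hs : IsSol u c C) (hT : IsFrame u T) {h : Cn n} {t M ε κ ρ : ℝ}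
    (hε : 0 < ε) (hε2 : ε < 1 / 2) (hρ : 1 ≤ ρ) (hρt : c * ρ ^ 2 = t) (hh : ‖h‖ ≤ ρ)
    (hM : 0 < M) (hκ : 0 < κ) (hw : ∀ z, u z ≤ t → cavg u h z - u z ≤ M)
    {x₀ : Cn n} (hx₀ : u x₀ ≤ ε ^ 2 * t) {ν : ℝ} (hν : 0 < ν)
    (hMlarge : (4 / ((1 - 2 * ε) * c * ν)) ^ (2 * n) * (490 * C * 9 ^ n / κ) * ‖h‖ ^ 2 ≤ M) :
    cavg u h x₀ - u x₀ ≤
      M * ((u x₀ - c * ‖x₀‖ ^ 2) / ((1 - 2 * ε) * t) + κ) + ν * M := by
  have hc := hs.hc
  have hC := hs.C_pos
  have hρ0 : 0 < ρ := by linarith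
  have ht : 0 < t := by rw [← hρt]; positivity
  have hε3 : 0 < 1 - 2 * ε := by linarith
  have hn' : (0 : ℝ) < n := by exact_mod_cast hs.hn
  have hcw2 : ContDiff ℝ 2 (fun z => cavg u h z - u z) := (contDiff_cavg hs.hu h).sub hs.hu
  -- the barrier
  set q : Cn n → ℝ := fun z => (u z - 2 * c * inner ℝ x₀ z) + c * ‖x₀‖ ^ 2 with hq
  have hinner2 : ContDiff ℝ 2 (fun z : Cn n => inner ℝ x₀ z) :=
    ContDiff.inner ℝ contDiff_const contDiff_id
  have hlin2 : ContDiff ℝ 2 (fun z : Cn n => 2 * c * inner ℝ x₀ z) := contDiff_const.mul hinner2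
  have hq2 : ContDiff ℝ 2 q := (hs.hu.sub hlin2).add contDiff_const
  have hqnn : ∀ z, 0 ≤ q z := by
    intro z
    have h1 := hs.lower z
    have h2 : ‖x₀ - z‖ ^ 2 = ‖x₀‖ ^ 2 - 2 * inner ℝ x₀ z + ‖z‖ ^ 2 := norm_sub_sq_real x₀ z
    have h3 : 0 ≤ c * ‖x₀ - z‖ ^ 2 := by positivity
    rw [h2] at h3
    simp only [hq]
    nlinarith
  have hnorm : ∀ z, u z ≤ t → ‖z‖ ≤ ρ := by
    intro z hz
    have h1 := hs.lower z
    have h2 : c * ‖z‖ ^ 2 ≤ c * ρ ^ 2 := by nlinarith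
    have h3 : ‖z‖ ^ 2 ≤ ρ ^ 2 := le_of_mul_le_mul_left h2 hc
    exact (pow_le_pow_iff_left₀ (norm_nonneg _) hρ0.le two_ne_zero).1 h3
  have hx₀n : ‖x₀‖ ≤ ε * ρ := by
    have h1 := hs.lower x₀
    have h2 : c * ‖x₀‖ ^ 2 ≤ c * (ε * ρ) ^ 2 := by nlinarith
    have h3 : ‖x₀‖ ^ 2 ≤ (ε * ρ) ^ 2 := le_of_mul_le_mul_left h2 hc
    exact (pow_le_pow_iff_left₀ (norm_nonneg _) (by positivity) two_ne_zero).1 h3
  have hqb : ∀ z, u z = t → (1 - 2 * ε) * t ≤ q z := by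
    intro z hz
    have h1 : inner ℝ x₀ z ≤ ε * ρ * ρ := by
      calc inner ℝ x₀ z ≤ ‖x₀‖ * ‖z‖ := real_inner_le_norm _ _
        _ ≤ (ε * ρ) * ρ := mul_le_mul hx₀n (hnorm z hz.le) (norm_nonneg _) (by positivity)
    have h2 : 2 * c * inner ℝ x₀ z ≤ 2 * ε * t := by
      calc 2 * c * inner ℝ x₀ z ≤ 2 * c * (ε * ρ * ρ) :=
            mul_le_mul_of_nonneg_left h1 (by positivity)
        _ = 2 * ε * (c * ρ ^ 2) := by ring
        _ = 2 * ε * t := by rw [hρt]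
    have h3 : 0 ≤ c * ‖x₀‖ ^ 2 := by positivity
    simp only [hq, hz]
    linarith
  set a : ℝ := M / ((1 - 2 * ε) * t) with ha
  have ha0 : 0 < a := by positivity
  set Ψ : Cn n → ℝ := fun z => (cavg u h z - u z) - (a * q z + M * κ) with hΨ
  have hbar2 : ContDiff ℝ 2 (fun z => a * q z + M * κ) :=
    (contDiff_const.mul hq2).add contDiff_const
  have hΨ2 : ContDiff ℝ 2 Ψ := hcw2.sub hbar2
  have hellq : ∀ z, ell T q z = n := by
    intro z
    rw [hq, ell_add (hs.hu.sub hlin2) contDiff_const, ell_sub hs.hu hlin2,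
      ell_const_mul hinner2, ell_inner, ell_const, ell_self hT]
    ring
  have hellΨ : ∀ z, -(a * n) ≤ ell T Ψ z := by
    intro z
    rw [hΨ, ell_sub hcw2 hbar2, ell_add (contDiff_const.mul hq2) contDiff_const,
      ell_const_mul hq2, hellq, ell_const]
    have := ell_cavg_sub_nonneg hs.hu hT h z
    linarith
  set Ω : Set (Cn n) := {z | u z < t} with hΩ
  have hΩo : IsOpen Ω := isOpen_lt hs.hu.continuous continuous_const
  have hclos : closure Ω ⊆ {z | u z ≤ t} :=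
    closure_lt_subset_le hs.hu.continuous continuous_const
  have hΩb : Bornology.IsBounded Ω := by
    refine (isBounded_closedBall (x := (0 : Cn n)) (r := ρ)).subset fun z hz => ?_
    rw [mem_closedBall, dist_eq_norm, sub_zero]
    exact hnorm z (le_of_lt hz)
  have hx₀Ω : x₀ ∈ Ω := by
    change u x₀ < t
    have : ε ^ 2 * t < 1 * t := by
      apply mul_lt_mul_of_pos_right _ ht
      nlinarith
    linarith
  by_contra hcon
  push Not at hcon
  have hq0 : q x₀ = u x₀ - c * ‖x₀‖ ^ 2 := by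
    simp only [hq, real_inner_self_eq_norm_sq]
    ring
  have hΨx₀ : ν * M < Ψ x₀ := by
    simp only [hΨ, hq0, ha]
    have e1 : M / ((1 - 2 * ε) * t) * (u x₀ - c * ‖x₀‖ ^ 2) + M * κ =
        M * ((u x₀ - c * ‖x₀‖ ^ 2) / ((1 - 2 * ε) * t) + κ) := by ring
    rw [e1]
    linarith
  have hΨpos : 0 < Ψ x₀ := lt_trans (by positivity) hΨx₀
  set S : Set (Cn n) := {z | u z < t ∧ M * κ < cavg u h z - u z} with hS
  have hSm : MeasurableSet S := by
    refine (IsOpen.inter hΩo ?_).measurableSet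
    exact isOpen_lt continuous_const hcw2.continuous
  have hSfin : (volume : Measure (Cn n)) S ≠ ⊤ := by
    have : S ⊆ closedBall (0 : Cn n) ρ := by
      intro z hz
      rw [mem_closedBall, dist_eq_norm, sub_zero]
      exact hnorm z hz.1.le
    exact ((measure_mono this).trans_lt measure_closedBall_lt_top).ne
  have habp := abp_complex hs.hn hT hΨ2 hΩo hΩb hx₀Ω (d := 2 * ρ) (by positivity)
    (fun x hx => by
      have h1 := hnorm x (hclos hx)
      have h2 := hnorm x₀ hx₀Ω.le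
      calc dist x x₀ ≤ ‖x‖ + ‖x₀‖ := by rw [dist_eq_norm]; exact norm_sub_le _ _
        _ ≤ 2 * ρ := by linarith)
    (fun x hx => by
      have hxt : u x = t := by
        have h1 : u x ≤ t := hclos (frontier_subset_closure hx)
        have h2 : ¬ (u x < t) := by
          rw [frontier, hΩo.interior_eq] at hx
          exact hx.2
        linarith [not_lt.1 h2]
      have h3 := hw x hxt.le
      have h4 := hqb x hxt
      have h5 : M ≤ a * q x := by
        calc M = a * ((1 - 2 * ε) * t) := by rw [ha]; field_simp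
          _ ≤ a * q x := mul_le_mul_of_nonneg_left h4 ha0.le
      have h6 : 0 ≤ M * κ := by positivity
      simp only [hΨ]
      linarith)
    hΨpos hSm hSfin (k := a * n) (by positivity)
    (fun x _ _ => hellΨ x)
    (fun x hx hx' hxS => by
      exfalso
      apply hxS
      refine ⟨hx, ?_⟩
      have h3 : 0 ≤ a * q x := mul_nonneg ha0.le (hqnn x)
      simp only [hΨ] at hx'
      linarith)
  have hmeas := hs.measure_le hρ hh (κ := M * κ) (by positivity) (S := S)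
    (fun z hz => ⟨hnorm z hz.1.le, hz.2.le⟩)
  have hB := volume_ball_pos (n := n)
  set B := (volume : Measure (Cn n)).real (ball 0 1) with hBdef
  have e2 : 2 * (a * n) / n = 2 * a := by field_simp
  rw [e2] at habp
  have h7 : (Ψ x₀ / (2 * ρ)) ^ (2 * n) * B ≤ (2 * a) ^ (2 * n) *
      (490 * C * ‖h‖ ^ 2 * 9 ^ n * ρ ^ (2 * n) * B / (M * κ)) :=
    habp.trans (mul_le_mul_of_nonneg_left hmeas (by positivity))
  have h8 : (Ψ x₀) ^ (2 * n) ≤ (4 * M / ((1 - 2 * ε) * c)) ^ (2 * n) *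
      (490 * C * ‖h‖ ^ 2 * 9 ^ n / (M * κ)) := by
    have h9 : (Ψ x₀ / (2 * ρ)) ^ (2 * n) ≤ (2 * a) ^ (2 * n) *
        (490 * C * ‖h‖ ^ 2 * 9 ^ n * ρ ^ (2 * n) / (M * κ)) := by
      refine le_of_mul_le_mul_right (h7.trans (le_of_eq ?_)) hB
      ring
    have h10 : (Ψ x₀) ^ (2 * n) = (Ψ x₀ / (2 * ρ)) ^ (2 * n) * (2 * ρ) ^ (2 * n) := by
      rw [← mul_pow, div_mul_cancel₀ _ (by positivity)]
    rw [h10]
    refine (mul_le_mul_of_nonneg_right h9 (by positivity)).trans (le_of_eq ?_)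
    have h11 : 4 * M / ((1 - 2 * ε) * c) = (2 * a) * (ρ * (2 * ρ)) := by
      rw [ha, ← hρt]
      field_simp
      ring
    rw [h11, mul_pow (2 * a), mul_pow ρ]
    ring
  have h12 : (4 * M / ((1 - 2 * ε) * c)) ^ (2 * n) * (490 * C * ‖h‖ ^ 2 * 9 ^ n / (M * κ)) ≤
      (ν * M) ^ (2 * n) := by
    have h13 : (4 * M / ((1 - 2 * ε) * c)) ^ (2 * n) *
        (490 * C * ‖h‖ ^ 2 * 9 ^ n / (M * κ)) =
        (ν * M) ^ (2 * n) * (((4 / ((1 - 2 * ε) * c * ν)) ^ (2 * n) *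
          (490 * C * 9 ^ n / κ) * ‖h‖ ^ 2) / M) := by
      have h14 : 4 * M / ((1 - 2 * ε) * c) = (ν * M) * (4 / ((1 - 2 * ε) * c * ν)) := by
        field_simp
      rw [h14, mul_pow]
      field_simp
    rw [h13]
    refine mul_le_of_le_one_right (by positivity) ?_
    rw [div_le_one hM]
    exact hMlarge
  have h15 : Ψ x₀ ≤ ν * M := by
    refine le_of_pow_le_pow_left₀ (n := 2 * n) (by have := hs.hn; omega) (by positivity)
      (h8.trans h12)
  linarith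

/-- One step of the iteration. -/
theorem IsSol.improve (hs : IsSol u c C) (hT : IsFrame u T) :
    ∃ ε θ K₀ : ℝ, 0 < ε ∧ ε < 1 ∧ 0 < θ ∧ θ < 1 ∧ 0 < K₀ ∧ ∀ h : Cn n, ∃ t₀ : ℝ, 0 < t₀ ∧
      ∀ t M : ℝ, t₀ ≤ t → 0 < M → K₀ * ‖h‖ ^ 2 ≤ M →
        (∀ z, u z ≤ t → cavg u h z - u z ≤ M) →
        ∀ z, u z ≤ ε ^ 2 * t → cavg u h z - u z ≤ θ * ε ^ 2 * M := by
  have hc := hs.hc
  have hC := hs.C_pos
  have hcC := hs.c_le_C
  set β : ℝ := c / C with hβ
  have hβ0 : 0 < β := div_pos hc hC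
  have hβ1 : β ≤ 1 := (div_le_one hC).2 hcC
  have hβC : β * C = c := by rw [hβ]; field_simp
  set ε : ℝ := β / 4 with hε
  have hε0 : 0 < ε := by positivity
  have hε1 : ε < 1 / 2 := by rw [hε]; linarith
  set κ : ℝ := β * ε ^ 2 / 8 with hκ
  have hκ0 : 0 < κ := by positivity
  have hε3 : 0 < 1 - 2 * ε := by linarith
  refine ⟨ε, 1 - β / 8, (4 / ((1 - 2 * ε) * c * κ)) ^ (2 * n) * (490 * C * 9 ^ n / κ), hε0,
    by linarith, by linarith, by linarith, by positivity, fun h => ?_⟩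
  refine ⟨max (max c (c * ‖h‖ ^ 2)) (16 * c / (β * ε ^ 2)),
    lt_max_of_lt_left (lt_max_of_lt_left hc), fun t M ht hM hMK hw x₀ hx₀ => ?_⟩
  have ht1 : c ≤ t := (le_max_left _ _).trans ((le_max_left _ _).trans ht)
  have ht2 : c * ‖h‖ ^ 2 ≤ t := (le_max_right _ _).trans ((le_max_left _ _).trans ht)
  have ht3 : 16 * c / (β * ε ^ 2) ≤ t := (le_max_right _ _).trans ht
  have ht0 : 0 < t := hc.trans_le ht1
  have hρt : c * (Real.sqrt (t / c)) ^ 2 = t := by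
    rw [Real.sq_sqrt (by positivity)]
    field_simp
  have hρ1 : 1 ≤ Real.sqrt (t / c) := by
    rw [Real.one_le_sqrt, le_div_iff₀ hc]
    linarith
  have hρh : ‖h‖ ≤ Real.sqrt (t / c) := by
    apply Real.le_sqrt_of_sq_le
    rw [le_div_iff₀ hc]
    linarith
  have hmain := hs.barrier hT hε0 hε1 hρ1 hρt hρh hM hκ0 hw hx₀ hκ0 hMK
  refine hmain.trans ?_
  have h1 : u x₀ - c * ‖x₀‖ ^ 2 ≤ (1 - β) * (ε ^ 2 * t) + c := by
    have h2 := hs.upper x₀
    have h3 : β * u x₀ ≤ c * (1 + ‖x₀‖ ^ 2) := by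
      calc β * u x₀ ≤ β * (C * (1 + ‖x₀‖ ^ 2)) := mul_le_mul_of_nonneg_left h2 hβ0.le
        _ = (β * C) * (1 + ‖x₀‖ ^ 2) := by ring
        _ = c * (1 + ‖x₀‖ ^ 2) := by rw [hβC]
    have h4 : (1 - β) * u x₀ ≤ (1 - β) * (ε ^ 2 * t) :=
      mul_le_mul_of_nonneg_left hx₀ (by linarith)
    linarith
  have h5 : (u x₀ - c * ‖x₀‖ ^ 2) / ((1 - 2 * ε) * t) ≤ (1 - β / 2) * ε ^ 2 + β * ε ^ 2 / 8 := by
    rw [div_le_iff₀ (by positivity)]
    refine h1.trans ?_
    have h6 : 16 * c ≤ t * (β * ε ^ 2) := by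
      rwa [div_le_iff₀ (by positivity)] at ht3
    have h7 : 1 - 2 * ε = 1 - β / 2 := by rw [hε]; ring
    rw [h7]
    have h8 : c ≤ β * ε ^ 2 / 8 * ((1 - β / 2) * t) := by
      have h9 : (1 : ℝ) / 2 ≤ 1 - β / 2 := by linarith
      have h10 : 0 ≤ t * (β * ε ^ 2) := by positivity
      nlinarith
    have h11 : (1 - β) * (ε ^ 2 * t) ≤ (1 - β / 2) * ε ^ 2 * ((1 - β / 2) * t) := by
      have h12 : 1 - β ≤ (1 - β / 2) * (1 - β / 2) := by nlinarith [sq_nonneg β]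
      have h13 : 0 ≤ ε ^ 2 * t := by positivity
      calc (1 - β) * (ε ^ 2 * t) ≤ ((1 - β / 2) * (1 - β / 2)) * (ε ^ 2 * t) :=
            mul_le_mul_of_nonneg_right h12 h13
        _ = (1 - β / 2) * ε ^ 2 * ((1 - β / 2) * t) := by ring
    linarith
  have h14 : M * ((u x₀ - c * ‖x₀‖ ^ 2) / ((1 - 2 * ε) * t) + κ) ≤
      M * (((1 - β / 2) * ε ^ 2 + β * ε ^ 2 / 8) + κ) :=
    mul_le_mul_of_nonneg_left (by linarith) hM.le
  refine (add_le_add_left h14 _).trans (le_of_eq ?_)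
  rw [hκ]
  ring

/-- The circle averages `cavg u h - u` are bounded by a multiple of `‖h‖ ^ 2`. -/
theorem IsSol.exists_bound (hs : IsSol u c C) (hT : IsFrame u T) :
    ∃ Λ : ℝ, 0 < Λ ∧ ∀ h z : Cn n, cavg u h z - u z ≤ Λ * ‖h‖ ^ 2 := by
  obtain ⟨ε, θ, K₀, hε0, hε1, hθ0, hθ1, hK₀, himp⟩ := hs.improve hT
  have hc := hs.hc
  have hC := hs.C_pos
  refine ⟨K₀, hK₀, fun h z₀ => ?_⟩
  rcases eq_or_ne h 0 with rfl | hne
  · have : cavg u 0 z₀ = u z₀ := by simp [cavg]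
    rw [this]
    simp
  have hh : 0 < ‖h‖ := norm_pos_iff.2 hne
  set K : ℝ := K₀ * ‖h‖ ^ 2 with hK
  have hKpos : 0 < K := by positivity
  obtain ⟨t₀, ht₀, hstep⟩ := himp h
  have hε2 : 0 < ε ^ 2 := by positivity
  have hε2' : ε ^ 2 < 1 := by nlinarith
  have hθε : θ * ε ^ 2 ≤ 1 := by nlinarith
  set e : ℝ := (ε ^ 2)⁻¹ with he
  have he1 : 1 ≤ e := by
    rw [he]; exact (one_le_inv₀ hε2).2 hε2'.le
  have hind : ∀ j : ℕ, ∀ t M : ℝ, t₀ ≤ t → 0 < M →
      (∀ z, u z ≤ e ^ j * t → cavg u h z - u z ≤ M) →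
      ∀ z, u z ≤ t → cavg u h z - u z ≤ max K ((θ * ε ^ 2) ^ j * M) := by
    intro j
    induction j with
    | zero =>
      intro t M _ _ hw z hz
      refine (hw z (by simpa using hz)).trans ?_
      simp
    | succ j ih =>
      intro t M ht hM hw z hz
      have ht' : t₀ ≤ e * t := by
        have : t ≤ e * t := le_mul_of_one_le_left (ht₀.le.trans ht) he1
        linarith
      have h1 := ih (e * t) M ht' hM (fun z hz => hw z (by
        rw [pow_succ, mul_assoc]; exact hz))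
      have h2 := hstep (e * t) (max K ((θ * ε ^ 2) ^ j * M)) ht'
        (lt_max_of_lt_left hKpos) (le_max_left _ _) h1 z (by
          have : ε ^ 2 * (e * t) = t := by rw [he]; field_simp
          rw [this]; exact hz)
      refine h2.trans ?_
      rw [mul_max_of_nonneg _ _ (by positivity)]
      refine max_le_max ?_ (le_of_eq ?_)
      · exact mul_le_of_le_one_left hKpos.le hθε
      · rw [pow_succ]; ring
  set t : ℝ := max (u z₀) t₀ with ht
  have ht0 : 0 < t := lt_max_of_lt_right ht₀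
  have hk : ∀ k : ℕ, cavg u h z₀ - u z₀ ≤ max K ((θ * ε ^ 2) ^ k *
      (C * (1 + 2 * (e ^ k * t / c) + 2 * ‖h‖ ^ 2))) := by
    intro k
    have hek : 0 < e ^ k := by positivity
    refine hind k t _ (le_max_right _ _) (by positivity) (fun z hz => ?_) z₀ (le_max_left _ _)
    refine (hs.apriori h z).trans (mul_le_mul_of_nonneg_left ?_ hC.le)
    have h1 := hs.lower z
    have h2 : ‖z‖ ^ 2 ≤ e ^ k * t / c := by
      rw [le_div_iff₀ hc]
      nlinarith
    linarith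
  have hlim : Tendsto (fun k : ℕ => (θ * ε ^ 2) ^ k *
      (C * (1 + 2 * (e ^ k * t / c) + 2 * ‖h‖ ^ 2))) atTop (𝓝 0) := by
    have e1 : ∀ k : ℕ, (θ * ε ^ 2) ^ k * (C * (1 + 2 * (e ^ k * t / c) + 2 * ‖h‖ ^ 2)) =
        (θ * ε ^ 2) ^ k * (C * (1 + 2 * ‖h‖ ^ 2)) + θ ^ k * (C * (2 * t / c)) := by
      intro k
      have e2 : (θ * ε ^ 2) ^ k * e ^ k = θ ^ k := by
        rw [← mul_pow, he]
        congr 1
        field_simp
      calc (θ * ε ^ 2) ^ k * (C * (1 + 2 * (e ^ k * t / c) + 2 * ‖h‖ ^ 2)) =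
          (θ * ε ^ 2) ^ k * (C * (1 + 2 * ‖h‖ ^ 2)) +
            ((θ * ε ^ 2) ^ k * e ^ k) * (C * (2 * t / c)) := by ring
        _ = _ := by rw [e2]
    simp only [e1]
    have h1 : Tendsto (fun k : ℕ => (θ * ε ^ 2) ^ k) atTop (𝓝 0) :=
      tendsto_pow_atTop_nhds_zero_of_lt_one (by positivity) (by nlinarith)
    have h2 : Tendsto (fun k : ℕ => θ ^ k) atTop (𝓝 0) :=
      tendsto_pow_atTop_nhds_zero_of_lt_one hθ0.le hθ1
    have h3 := (h1.mul_const (C * (1 + 2 * ‖h‖ ^ 2))).add (h2.mul_const (C * (2 * t / c)))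
    simpa using h3
  have hlim2 := (tendsto_const_nhds (x := K)).max hlim
  rw [max_eq_left hKpos.le] at hlim2
  exact ge_of_tendsto' hlim2 hk

/-- The Levi form is bounded. -/
theorem IsSol.exists_lev_bound (hs : IsSol u c C) (hT : IsFrame u T) :
    ∃ Λ : ℝ, 0 < Λ ∧ ∀ z h : Cn n, lev u z h ≤ Λ * ‖h‖ ^ 2 := by
  obtain ⟨Λ, hΛ, hb⟩ := hs.exists_bound hT
  refine ⟨Λ, hΛ, fun z h => lev_le_of_cavg hs.hu z h fun s hs' => ?_⟩
  have h1 := hb (s • h) z
  rw [norm_smul, Real.norm_of_nonneg hs'.le] at h1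
  calc cavg u (s • h) z - u z ≤ Λ * (s * ‖h‖) ^ 2 := h1
    _ = Λ * ‖h‖ ^ 2 * s ^ 2 := by ring

end

end Pool.Agent.MP_ccae28_an
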