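import Pool.Agent.MP_ccae28_an.Step1

open MeasureTheory Metric Set Filter
open scoped Real Topology ComplexOrder

set_option linter.unusedSectionVars false

namespace Pool.Agent.MP_ccae28_an

variable {n : ℕ}

/-- A positive definite matrix with determinant one which is bounded below has bounded trace. -/
theorem trace_le_of_det_eq_one {ι : Type*} [Fintype ι] [DecidableEq ι]
    {P : Matrix ι ι ℝ} (hP : P.PosSemidef) (hdet : P.det = 1) {lam : ℝ} (hlam : 0 < lam)
    (hlow : ∀ v : ι → ℝ, lam * (v ⬝ᵥ v) ≤ v ⬝ᵥ (Matrix.mulVec P v)) :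
    P.trace ≤ Fintype.card ι * (lam ^ (Fintype.card ι - 1))⁻¹ := by
  set μ := hP.1.eigenvalues with hμ
  have hμlow : ∀ i, lam ≤ μ i := by
    intro i
    have h1 := hP.1.eigenvalues_eq i
    simp only [RCLike.re_to_real, star_trivial] at h1
    have h2 := hlow (hP.1.eigenvectorBasis i).ofLp
    have h3 : (hP.1.eigenvectorBasis i).ofLp ⬝ᵥ (hP.1.eigenvectorBasis i).ofLp = 1 := by
      have h4 := hP.1.eigenvectorBasis.orthonormal.1 i
      have h5 : ‖hP.1.eigenvectorBasis i‖ ^ 2 = 1 := by rw [h4]; norm_num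
      rw [EuclideanSpace.norm_sq_eq] at h5
      rw [← h5]
      simp only [dotProduct, Real.norm_eq_abs, sq_abs]
      refine Finset.sum_congr rfl fun j _ => ?_
      ring
    rw [h3, mul_one] at h2
    rw [hμ, h1]
    exact h2
  have hprod : ∏ i, μ i = 1 := by
    have h1 := hP.1.det_eq_prod_eigenvalues
    rw [hdet] at h1
    simpa using h1.symm
  have hμup : ∀ j, μ j ≤ (lam ^ (Fintype.card ι - 1))⁻¹ := by
    intro j
    have h1 : μ j * ∏ i ∈ Finset.univ.erase j, μ i = 1 := by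
      rw [Finset.mul_prod_erase _ _ (Finset.mem_univ j)]
      exact hprod
    have h2 : lam ^ (Fintype.card ι - 1) ≤ ∏ i ∈ Finset.univ.erase j, μ i := by
      have h3 : lam ^ (Fintype.card ι - 1) = ∏ i ∈ Finset.univ.erase j, lam := by
        rw [Finset.prod_const, Finset.card_erase_of_mem (Finset.mem_univ j), Finset.card_univ]
      rw [h3]
      exact Finset.prod_le_prod (fun _ _ => hlam.le) fun i _ => hμlow i
    have h4 : 0 < lam ^ (Fintype.card ι - 1) := by positivity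
    have h5 : 0 < μ j := hlam.trans_le (hμlow j)
    rw [← one_div, le_div_iff₀ h4, ← h1]
    exact mul_le_mul_of_nonneg_left h2 h5.le
  have htr : P.trace = ∑ i, μ i := by
    have h1 := hP.1.trace_eq_sum_eigenvalues
    simpa using h1
  rw [htr]
  calc ∑ i, μ i ≤ ∑ _i : ι, (lam ^ (Fintype.card ι - 1))⁻¹ := Finset.sum_le_sum fun i _ => hμup i
    _ = Fintype.card ι * (lam ^ (Fintype.card ι - 1))⁻¹ := by
      rw [Finset.sum_const, Finset.card_univ, nsmul_eq_mul]

section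

variable {u : Cn n → ℝ} {T : Cn n → Cn n →ₗ[ℂ] Cn n} {Λ : ℝ}

theorem norm_le_frame (hT : IsFrame u T) (hb : ∀ z h : Cn n, lev u z h ≤ Λ * ‖h‖ ^ 2)
    (z h : Cn n) : ‖h‖ ^ 2 ≤ Λ * ‖T z h‖ ^ 2 := by
  rw [← hT.levT z h]
  exact hb z (T z h)

theorem sum_inner_rb (x z : Cn n) :
    ∑ i, (inner ℝ x (((T z).restrictScalars ℝ) (rb n i))) ^ 2 =
      ∑ a, ((inner ℝ x (T z (ev a))) ^ 2 + (inner ℝ x (Complex.I • T z (ev a))) ^ 2) := by
  rw [Fintype.sum_prod_type]
  simp only [Fin.sum_univ_two, rb_zero, rb_one, LinearMap.coe_restrictScalars, map_smul]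
  rw [Finset.sum_add_distrib]

theorem frame_surjective (hT : IsFrame u T) (z : Cn n) :
    Function.Surjective ((T z).restrictScalars ℝ) := by
  have h1 : IsUnit (LinearMap.det ((T z).restrictScalars ℝ)) := by
    rw [isUnit_iff_ne_zero]
    intro h0
    have := hT.det z
    rw [h0] at this
    simp at this
  have h2 := (LinearMap.isUnit_iff_isUnit_det _).2 h1
  rw [LinearMap.isUnit_iff_range_eq_top] at h2
  exact LinearMap.range_eq_top.1 h2

/-- Lower ellipticity bound. -/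
theorem frame_lower (hT : IsFrame u T) (hb : ∀ z h : Cn n, lev u z h ≤ Λ * ‖h‖ ^ 2)
    (z x : Cn n) : ‖x‖ ^ 2 ≤
      Λ * ∑ a, ((inner ℝ x (T z (ev a))) ^ 2 + (inner ℝ x (Complex.I • T z (ev a))) ^ 2) := by
  rw [← sum_inner_rb]
  rcases eq_or_ne x 0 with rfl | hx
  · simp
  obtain ⟨y, hy⟩ := frame_surjective hT z x
  have hy2 : T z y = x := hy
  have h1 : ‖y‖ ^ 2 ≤ Λ * ‖x‖ ^ 2 := by
    rw [← hy2]
    exact norm_le_frame hT hb z y
  set Q := ∑ i, (inner ℝ x (((T z).restrictScalars ℝ) (rb n i))) ^ 2 with hQ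
  have hyr : y = ∑ i, (rb n).repr y i • rb n i := ((rb n).sum_repr y).symm
  have h2 : ‖x‖ ^ 2 = ∑ i, (rb n).repr y i * inner ℝ x (((T z).restrictScalars ℝ) (rb n i)) := by
    rw [← real_inner_self_eq_norm_sq]
    conv_lhs => rw [← hy, hyr]
    rw [map_sum, inner_sum, ← map_sum, ← hyr, hy]
    refine Finset.sum_congr rfl fun i _ => ?_
    rw [map_smul, inner_smul_right]
  have h3 : (‖x‖ ^ 2) ^ 2 ≤ ‖y‖ ^ 2 * Q := by
    rw [h2]
    have h4 := Finset.sum_mul_sq_le_sq_mul_sq Finset.univ (fun i => (rb n).repr y i)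
      (fun i => inner ℝ x (((T z).restrictScalars ℝ) (rb n i)))
    have h5 : ∑ i, ((rb n).repr y i) ^ 2 = ‖y‖ ^ 2 := by
      rw [← (rb n).repr.norm_map y, EuclideanSpace.norm_sq_eq]
      simp
    rw [h5] at h4
    exact h4
  have hQ0 : 0 ≤ Q := Finset.sum_nonneg fun i _ => sq_nonneg _
  have hx2 : 0 < ‖x‖ ^ 2 := by
    have := norm_pos_iff.2 hx
    positivity
  have h6 : (‖x‖ ^ 2) ^ 2 ≤ (Λ * ‖x‖ ^ 2) * Q :=
    h3.trans (mul_le_mul_of_nonneg_right h1 hQ0)
  have h7 : ‖x‖ ^ 2 * ‖x‖ ^ 2 ≤ ‖x‖ ^ 2 * (Λ * Q) := by nlinarith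
  exact le_of_mul_le_mul_left h7 hx2

/-- Upper ellipticity bound. -/
theorem frame_upper (hT : IsFrame u T) (hΛ : 0 < Λ)
    (hb : ∀ z h : Cn n, lev u z h ≤ Λ * ‖h‖ ^ 2) (z : Cn n) :
    ∑ a, ‖T z (ev a)‖ ^ 2 ≤ n * Λ ^ (2 * n - 1) := by
  set M := LinearMap.toMatrix (rb n).toBasis (rb n).toBasis ((T z).restrictScalars ℝ) with hM
  have hMb : ∀ j, ((T z).restrictScalars ℝ) (rb n j) = ∑ i, M i j • rb n i := by
    intro j
    have := (rb n).toBasis.sum_repr (((T z).restrictScalars ℝ) (rb n j))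
    simp only [OrthonormalBasis.coe_toBasis] at this
    rw [← this]
    refine Finset.sum_congr rfl fun i _ => ?_
    rw [hM, LinearMap.toMatrix_apply, OrthonormalBasis.coe_toBasis]
  have hnormsum : ∀ y : Fin 2 × Fin n → ℝ, ‖∑ i, y i • rb n i‖ ^ 2 = y ⬝ᵥ y := by
    intro y
    rw [← real_inner_self_eq_norm_sq, (rb n).orthonormal.inner_sum]
    simp [dotProduct]
  set P := M.transpose * M with hP
  have hPpsd : P.PosSemidef := by
    have := Matrix.posSemidef_conjTranspose_mul_self M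
    rwa [Matrix.conjTranspose_eq_transpose_of_trivial] at this
  have hPdet : P.det = 1 := by
    rw [hP, Matrix.det_mul, Matrix.det_transpose, hM, LinearMap.det_toMatrix,
      ← abs_mul_abs_self, hT.det, one_mul]
  have hquad : ∀ v : Fin 2 × Fin n → ℝ, v ⬝ᵥ (Matrix.mulVec P v) =
      ‖T z (∑ i, v i • rb n i)‖ ^ 2 := by
    intro v
    have h1 : T z (∑ i, v i • rb n i) = ∑ i, (Matrix.mulVec M v) i • rb n i := by
      have h2 : T z (∑ i, v i • rb n i) = ((T z).restrictScalars ℝ) (∑ i, v i • rb n i) := rfl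
      rw [h2, map_sum]
      simp only [map_smul, hMb, Finset.smul_sum, smul_smul]
      rw [Finset.sum_comm]
      refine Finset.sum_congr rfl fun i _ => ?_
      rw [← Finset.sum_smul]
      congr 1
      simp only [Matrix.mulVec, dotProduct]
      exact Finset.sum_congr rfl fun j _ => mul_comm _ _
    rw [h1, hnormsum, hP, ← Matrix.mulVec_mulVec, Matrix.dotProduct_mulVec,
      Matrix.vecMul_transpose]
  have hlow : ∀ v : Fin 2 × Fin n → ℝ, Λ⁻¹ * (v ⬝ᵥ v) ≤ v ⬝ᵥ (Matrix.mulVec P v) := by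
    intro v
    rw [hquad, ← hnormsum, inv_mul_le_iff₀ hΛ]
    exact norm_le_frame hT hb z _
  have htr := trace_le_of_det_eq_one hPpsd hPdet (inv_pos.2 hΛ) hlow
  have hcard : Fintype.card (Fin 2 × Fin n) = 2 * n := by simp
  rw [hcard, inv_pow, inv_inv] at htr
  have htr2 : P.trace = 2 * ∑ a, ‖T z (ev a)‖ ^ 2 := by
    have h1 : ∀ j, P j j = ‖((T z).restrictScalars ℝ) (rb n j)‖ ^ 2 := by
      intro j
      rw [hMb, hnormsum, hP, Matrix.mul_apply]
      simp [dotProduct, Matrix.transpose_apply]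
    rw [Matrix.trace]
    simp only [Matrix.diag, h1]
    rw [Fintype.sum_prod_type]
    simp only [Fin.sum_univ_two, rb_zero, rb_one, LinearMap.coe_restrictScalars, map_smul,
      norm_smul, Complex.norm_I, one_mul]
    ring
  rw [htr2] at htr
  push_cast at htr
  linarith

end

end Pool.Agent.MP_ccae28_an
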